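import Mathlib

/-!
# SC-4: two facts on binomial coefficients

`binom_diff`: by summation by parts, `∑_{j≤n} C(n,j)(g_j - g_{j+1}) = ∑_{j=0}^{n+1} (C(n,j) - C(n,j-1)) g_j`
(with `C(n,-1) = C(n,n+1) = 0`). For `j ≤ n/2` the difference is `≥ 0`
(`Nat.choose_le_succ_of_lt_half_left`) and these differences add up to `C(n, n/2)`; for `j > n/2` it
is `≤ 0` (symmetry) and they add up to `- C(n, n/2)`. As `0 ≤ g_j ≤ M` the sum is between
`- C(n,n/2) M` and `C(n,n/2) M`.

`central`: `C(2q,q)^2 (2q+1) ≤ 16^q` by induction: `(q+1) C(2q+2,q+1) = 2 (2q+1) C(2q,q)`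
(`Nat.succ_mul_centralBinom_succ`), and `(2q+1)(2q+3) ≤ 4 (q+1)^2`. Then take square roots.
-/

set_option autoImplicit false

namespace SC4

open Finset

private lemma sc4_inc (n k : ℕ) (h : k + 1 ≤ n / 2) : n.choose k ≤ n.choose (k + 1) := by
  have h1 := Nat.choose_succ_right_eq n k
  have h2 : n.choose k * (k + 1) ≤ n.choose (k + 1) * (k + 1) := by
    rw [h1]
    exact Nat.mul_le_mul_left _ (by omega)
  exact Nat.le_of_mul_le_mul_right h2 (Nat.succ_pos k)

private lemma sc4_dec (n k : ℕ) (h : n / 2 ≤ k) : n.choose (k + 1) ≤ n.choose k := by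
  have h1 := Nat.choose_succ_right_eq n k
  have h2 : n.choose (k + 1) * (k + 1) ≤ n.choose k * (k + 1) := by
    rw [h1]
    exact Nat.mul_le_mul_left _ (by omega)
  exact Nat.le_of_mul_le_mul_right h2 (Nat.succ_pos k)

private lemma sc4_A (n : ℕ) (g : ℕ → ℝ) (M : ℝ) (hg : ∀ j, j ≤ n + 1 → 0 ≤ g j ∧ g j ≤ M) :
    ∀ k, k ≤ n / 2 →
      0 ≤ ∑ j ∈ range (k + 1), (n.choose j : ℝ) * (g j - g (j + 1)) + (n.choose k : ℝ) * g (k + 1) ∧
      ∑ j ∈ range (k + 1), (n.choose j : ℝ) * (g j - g (j + 1)) + (n.choose k : ℝ) * g (k + 1) ≤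
        (n.choose k : ℝ) * M := by
  intro k
  induction k with
  | zero =>
    intro _
    have h0 := hg 0 (by omega)
    simp only [zero_add, sum_range_one, Nat.choose_zero_right, Nat.cast_one, one_mul]
    constructor
    · linarith
    · linarith
  | succ k ih =>
    intro hk
    obtain ⟨h1, h2⟩ := ih (by omega)
    have h3 := hg (k + 1) (by omega)
    have h4 : (n.choose k : ℝ) ≤ n.choose (k + 1) := by exact_mod_cast sc4_inc n k hk
    rw [sum_range_succ]
    have h5 : 0 ≤ ((n.choose (k + 1) : ℝ) - n.choose k) * g (k + 1) :=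
      mul_nonneg (by linarith) h3.1
    have h6 : ((n.choose (k + 1) : ℝ) - n.choose k) * g (k + 1) ≤
        ((n.choose (k + 1) : ℝ) - n.choose k) * M :=
      mul_le_mul_of_nonneg_left h3.2 (by linarith)
    constructor
    · nlinarith
    · nlinarith

private lemma sc4_B (n : ℕ) (g : ℕ → ℝ) (M : ℝ) (hg : ∀ j, j ≤ n + 1 → 0 ≤ g j ∧ g j ≤ M) :
    ∀ i k, k + i = n → n / 2 ≤ k →
      -((n.choose k : ℝ) * M) ≤
        ∑ j ∈ Ico k (n + 1), (n.choose j : ℝ) * (g j - g (j + 1)) - (n.choose k : ℝ) * g k ∧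
      ∑ j ∈ Ico k (n + 1), (n.choose j : ℝ) * (g j - g (j + 1)) - (n.choose k : ℝ) * g k ≤ 0 := by
  intro i
  induction i with
  | zero =>
    intro k hk _
    have hk' : k = n := by omega
    subst hk'
    have h0 := hg (k + 1) le_rfl
    rw [Nat.Ico_succ_singleton, sum_singleton, Nat.choose_self, Nat.cast_one]
    constructor
    · linarith
    · linarith
  | succ i ih =>
    intro k hk hk2
    obtain ⟨h1, h2⟩ := ih (k + 1) (by omega) (by omega)
    have h3 := hg (k + 1) (by omega)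
    have h4 : (n.choose (k + 1) : ℝ) ≤ n.choose k := by exact_mod_cast sc4_dec n k hk2
    rw [sum_eq_sum_Ico_succ_bot (by omega : k < n + 1)]
    have h5 : 0 ≤ ((n.choose k : ℝ) - n.choose (k + 1)) * g (k + 1) :=
      mul_nonneg (by linarith) h3.1
    have h6 : ((n.choose k : ℝ) - n.choose (k + 1)) * g (k + 1) ≤
        ((n.choose k : ℝ) - n.choose (k + 1)) * M :=
      mul_le_mul_of_nonneg_left h3.2 (by linarith)
    constructor
    · nlinarith
    · nlinarith

lemma binom_diff (n : ℕ) (g : ℕ → ℝ) (M : ℝ) (hg : ∀ j, j ≤ n + 1 → 0 ≤ g j ∧ g j ≤ M) :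
    |∑ j ∈ range (n + 1), (n.choose j : ℝ) * (g j - g (j + 1))| ≤ (n.choose (n / 2) : ℝ) * M := by
  obtain ⟨a1, a2⟩ := sc4_A n g M hg (n / 2) le_rfl
  obtain ⟨b1, b2⟩ := sc4_B n g M hg (n - n / 2) (n / 2) (by omega) le_rfl
  have h1 : ∑ j ∈ range (n + 1), (n.choose j : ℝ) * (g j - g (j + 1)) =
      ∑ j ∈ range (n / 2), (n.choose j : ℝ) * (g j - g (j + 1)) +
        ∑ j ∈ Ico (n / 2) (n + 1), (n.choose j : ℝ) * (g j - g (j + 1)) := by
    rw [sum_range_add_sum_Ico _ (by omega)]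
  rw [sum_range_succ] at a1 a2
  rw [h1, abs_le]
  constructor
  · nlinarith
  · nlinarith

private lemma sc4_central (q : ℕ) : q.centralBinom ^ 2 * (2 * q + 1) ≤ 16 ^ q := by
  induction q with
  | zero => simp
  | succ q ih =>
    have h1 := Nat.succ_mul_centralBinom_succ q
    have h2 : (q + 1) ^ 2 * ((q + 1).centralBinom ^ 2 * (2 * (q + 1) + 1)) ≤
        (q + 1) ^ 2 * 16 ^ (q + 1) := by
      calc (q + 1) ^ 2 * ((q + 1).centralBinom ^ 2 * (2 * (q + 1) + 1))
          = ((q + 1) * (q + 1).centralBinom) ^ 2 * (2 * q + 3) := by ring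
        _ = (2 * (2 * q + 1) * q.centralBinom) ^ 2 * (2 * q + 3) := by rw [h1]
        _ = 4 * (2 * q + 1) * (2 * q + 3) * (q.centralBinom ^ 2 * (2 * q + 1)) := by ring
        _ ≤ 4 * (2 * q + 1) * (2 * q + 3) * 16 ^ q := Nat.mul_le_mul_left _ ih
        _ ≤ 16 * (q + 1) ^ 2 * 16 ^ q := Nat.mul_le_mul_right _ (by nlinarith)
        _ = (q + 1) ^ 2 * 16 ^ (q + 1) := by ring
    exact Nat.le_of_mul_le_mul_left h2 (by positivity)

lemma central (q : ℕ) : (((2 * q).choose q : ℕ) : ℝ) / 4 ^ q ≤ 1 / Real.sqrt (2 * q + 1) := by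
  have h1 : ((2 * q).choose q) = q.centralBinom := (Nat.centralBinom_eq_two_mul_choose q).symm
  rw [h1]
  have h2 : ((q.centralBinom : ℝ)) ^ 2 * (2 * q + 1) ≤ 16 ^ q := by exact_mod_cast sc4_central q
  have h3 : (0 : ℝ) < 2 * q + 1 := by positivity
  have h4 : (0 : ℝ) < Real.sqrt (2 * q + 1) := Real.sqrt_pos.2 h3
  rw [div_le_div_iff₀ (by positivity) h4, one_mul]
  have h5 : (q.centralBinom : ℝ) * Real.sqrt (2 * q + 1) = Real.sqrt ((q.centralBinom : ℝ) ^ 2 * (2 * q + 1)) := by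
    rw [Real.sqrt_mul (by positivity), Real.sqrt_sq (by positivity)]
  have h6 : (4 : ℝ) ^ q = Real.sqrt (16 ^ q) := by
    rw [show (16 : ℝ) ^ q = (4 ^ q) ^ 2 by rw [← pow_mul, mul_comm, pow_mul]; norm_num,
      Real.sqrt_sq (by positivity)]
  rw [h5, h6]
  exact Real.sqrt_le_sqrt h2

end SC4
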