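import Pool.Agent.Helper4.SC.Sys

/-!
# SC-20: the map of a system in terms of the environment

`Umap_rOf`: put `i = (k n) % d`; as `d` does not divide `n` and `gcd(d, k) = 1`, `1 ≤ i ≤ d - 1`.
`((d+k) n) % d = i`, `(i : ZMod d) = (k n : ZMod d)`, `r i = i - d (ω i + 1)`,
`(d+k) n - r i = d n + (k n - i) + d (ω i + 1)` and `k n - i = d ((k n)/d)`.
`Umap_mul`: immediate. `tau_lt`, `tau_per`: immediate (`(k (j d + n) : ZMod d) = (k n : ZMod d)`).
-/

set_option autoImplicit false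

namespace SC4

open Finset

lemma Umap_rOf (k d N : ℕ) (hd : 2 ≤ d) (hc : Nat.Coprime d k) (ω : ZMod d → Fin N) (n : ℤ)
    (hn : 0 < n) (h : ¬ (d : ℤ) ∣ n) :
    Umap (d + k) d (rOf d N ω) n = F k d (tau k d N ω) n := by
  have hd0 : (0 : ℤ) < d := by exact_mod_cast (by omega : 0 < d)
  obtain ⟨i, hi⟩ : ∃ i, i = (k : ℤ) * n % (d : ℤ) := ⟨_, rfl⟩
  have h1 : ((d + k : ℕ) : ℤ) * n % (d : ℤ) = i := by
    rw [hi]
    push_cast
    rw [show ((d : ℤ) + k) * n = k * n + d * n by ring, Int.add_mul_emod_self_left]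
  have h2 : 0 ≤ i := by rw [hi]; exact Int.emod_nonneg _ hd0.ne'
  have h3 : i < d := by rw [hi]; exact Int.emod_lt_of_pos _ hd0
  have h4 : i ≠ 0 := by
    intro h0
    apply h
    rw [hi] at h0
    exact (Nat.isCoprime_iff_coprime.2 hc).dvd_of_dvd_mul_left (Int.dvd_of_emod_eq_zero h0)
  have h5 : (d : ℤ) * ((k : ℤ) * n / d) + i = k * n := by
    rw [hi]
    exact Int.mul_ediv_add_emod _ _
  have h6 : ((i : ℤ) : ZMod d) = (((k : ℤ) * n : ℤ) : ZMod d) := by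
    rw [hi]
    exact ZMod.intCast_mod _ d
  unfold Umap
  rw [if_neg h, h1]
  unfold rOf F tau
  rw [if_pos ⟨by omega, by omega⟩, h6]
  have h7 : ((d + k : ℕ) : ℤ) * n -
      (i - (d : ℤ) * (((ω (((k : ℤ) * n : ℤ) : ZMod d) : ℕ) : ℤ) + 1)) =
      (d : ℤ) * (n + (k : ℤ) * n / (d : ℤ) + 1 +
        ((ω (((k : ℤ) * n : ℤ) : ZMod d) : ℕ) : ℤ)) := by
    push_cast
    linear_combination -h5
  rw [h7]
  exact Int.mul_ediv_cancel_left _ hd0.ne'

lemma Umap_mul (m d : ℕ) (hd : 2 ≤ d) (r : ℤ → ℤ) (j : ℤ) : Umap m d r (j * d) = j := by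
  unfold Umap
  rw [if_pos (Dvd.intro_left j rfl)]
  exact Int.mul_ediv_cancel _ (by omega)

lemma tau_lt (k d N : ℕ) (ω : ZMod d → Fin N) (n : ℤ) : tau k d N ω n < N := by
  exact (ω _).isLt

lemma tau_per (k d N : ℕ) (ω : ZMod d → Fin N) (n j : ℤ) :
    tau k d N ω (j * d + n) = tau k d N ω n := by
  unfold tau
  congr 2
  push_cast
  rw [ZMod.natCast_self]
  ring

lemma tau_inj (k d : ℕ) (hd : 2 ≤ d) (hc : Nat.Coprime d k) (M x y : ℤ) (h1 : |x - y| < d)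
    (h : (((k : ℤ) * (M - x) : ℤ) : ZMod d) = (((k : ℤ) * (M - y) : ℤ) : ZMod d)) : x = y := by
  have h2 := (ZMod.intCast_eq_intCast_iff_dvd_sub _ _ d).1 h
  rw [show (k : ℤ) * (M - y) - k * (M - x) = k * (x - y) by ring] at h2
  have h3 := (Nat.isCoprime_iff_coprime.2 hc).dvd_of_dvd_mul_left h2
  have h4 := Int.eq_zero_of_abs_lt_dvd h3 h1
  omega

end SC4
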