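import Pool.Agent.Helper4.SC.Sys

/-!
# SC-21: counting systems

`d ≥ 2`, `N ≥ 1`. The functions in `Neg d N` are exactly the `rOf d N ω` (for `1 ≤ i ≤ d-1` the numbers
`≡ i` mod `d` in `(-N d, 0)` are `i - d (t + 1)`, `0 ≤ t < N`), and `rOf d N ω` determines `ω`
except for the value `ω 0` (every nonzero class of `ZMod d` is the class of exactly one `i` in
`[1, d-1]`). So `Neg d N` is in bijection with the functions on the `d - 1` nonzero classes, and every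
`r` in `Neg d N` is `rOf d N ω` for exactly `N` functions `ω`.
Hence `Neg_ncard`, and `N * ncard {r ∈ Neg | Z r} = #{ω | Z (rOf d N ω)} = N^d * Ex (indicator)`.
-/

set_option autoImplicit false

namespace SC4

open Finset Classical

/-- the system of a function on the nonzero classes -/
private noncomputable def fOf (d N : ℕ) (η : {x : ZMod d // x ≠ 0} → Fin N) (i : ℤ) : ℤ :=
  if h : (1 ≤ i ∧ i ≤ (d : ℤ) - 1) ∧ ((i : ℤ) : ZMod d) ≠ 0 then
    i - (d : ℤ) * ((η ⟨((i : ℤ) : ZMod d), h.2⟩ : ℕ) + 1) else 0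

private lemma cast_ne (d : ℕ) (i : ℤ) (h1 : 1 ≤ i) (h2 : i ≤ (d : ℤ) - 1) :
    ((i : ℤ) : ZMod d) ≠ 0 := by
  intro h
  rw [ZMod.intCast_zmod_eq_zero_iff_dvd] at h
  have := Int.le_of_dvd (by omega) h
  omega

private lemma fOf_in (d N : ℕ) (η : {x : ZMod d // x ≠ 0} → Fin N) (i : ℤ) (h1 : 1 ≤ i)
    (h2 : i ≤ (d : ℤ) - 1) : fOf d N η i =
      i - (d : ℤ) * ((η ⟨((i : ℤ) : ZMod d), cast_ne d i h1 h2⟩ : ℕ) + 1) := by
  unfold fOf
  rw [dif_pos ⟨⟨h1, h2⟩, cast_ne d i h1 h2⟩]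

private lemma fOf_out (d N : ℕ) (η : {x : ZMod d // x ≠ 0} → Fin N) (i : ℤ)
    (h : ¬ (1 ≤ i ∧ i ≤ (d : ℤ) - 1)) : fOf d N η i = 0 := by
  unfold fOf
  rw [dif_neg (fun h' => h h'.1)]

private lemma rOf_eq (d N : ℕ) (ω : ZMod d → Fin N) :
    rOf d N ω = fOf d N (fun x => ω x.1) := by
  funext i
  by_cases h : 1 ≤ i ∧ i ≤ (d : ℤ) - 1
  · rw [fOf_in d N _ i h.1 h.2]
    unfold rOf
    rw [if_pos h]
  · rw [fOf_out d N _ i h]
    unfold rOf
    rw [if_neg h]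

private lemma fOf_mem (d N : ℕ) (η : {x : ZMod d // x ≠ 0} → Fin N) : fOf d N η ∈ Neg d N := by
  refine ⟨?_, ?_⟩
  · intro i h1 h2
    rw [fOf_in d N η i h1 h2]
    have hb := (η ⟨((i : ℤ) : ZMod d), cast_ne d i h1 h2⟩).2
    generalize ((η ⟨((i : ℤ) : ZMod d), cast_ne d i h1 h2⟩ : Fin N) : ℕ) = b at hb
    refine ⟨?_, ?_, ?_⟩
    · rw [Int.modEq_iff_dvd]
      exact ⟨(b : ℤ) + 1, by ring⟩
    · have h3 : ((b : ℤ) + 1) ≤ N := by exact_mod_cast hb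
      nlinarith
    · nlinarith
  · intro i h
    exact fOf_out d N η i (by omega)

private lemma val_pos (d : ℕ) [NeZero d] (x : ZMod d) (hx : x ≠ 0) :
    1 ≤ (x.val : ℤ) ∧ (x.val : ℤ) ≤ (d : ℤ) - 1 := by
  have h1 := ZMod.val_lt x
  have h2 : x.val ≠ 0 := by
    intro h
    exact hx ((ZMod.val_eq_zero x).1 h)
  omega

private lemma fOf_inj (d N : ℕ) [NeZero d] : Function.Injective (fOf d N) := by
  intro η η' h
  funext x
  obtain ⟨x, hx⟩ := x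
  obtain ⟨h1, h2⟩ := val_pos d x hx
  have h3 := congrFun h (x.val : ℤ)
  rw [fOf_in d N η _ h1 h2, fOf_in d N η' _ h1 h2] at h3
  have hcast : (((x.val : ℕ) : ℤ) : ZMod d) = x := by
    rw [Int.cast_natCast]
    exact ZMod.natCast_zmod_val x
  have h4 : ∀ θ : {x : ZMod d // x ≠ 0} → Fin N,
      θ ⟨(((x.val : ℕ) : ℤ) : ZMod d), cast_ne d _ h1 h2⟩ = θ ⟨x, hx⟩ := by
    intro θ
    congr 1
    exact Subtype.ext hcast
  rw [h4 η, h4 η'] at h3
  have hd : (0 : ℤ) < d := by omega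
  have h5 : (d : ℤ) * (((η ⟨x, hx⟩ : ℕ) : ℤ) + 1) = (d : ℤ) * (((η' ⟨x, hx⟩ : ℕ) : ℤ) + 1) := by
    linarith
  have h6 := mul_left_cancel₀ hd.ne' h5
  apply Fin.ext
  omega

private lemma fOf_surj (d N : ℕ) [NeZero d] (r : ℤ → ℤ) (hr : r ∈ Neg d N) :
    ∃ η, fOf d N η = r := by
  have hd0 : 0 < d := Nat.pos_of_ne_zero (NeZero.ne d)
  have hd : (0 : ℤ) < d := by exact_mod_cast hd0
  obtain ⟨hr1, hr2⟩ := hr
  have hex : ∀ x : {x : ZMod d // x ≠ 0}, ∃ b : Fin N,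
      r ((x.1.val : ℕ) : ℤ) = ((x.1.val : ℕ) : ℤ) - (d : ℤ) * ((b : ℕ) + 1) := by
    rintro ⟨x, hx⟩
    obtain ⟨h1, h2⟩ := val_pos d x hx
    obtain ⟨h3, h4, h5⟩ := hr1 _ h1 h2
    rw [Int.modEq_iff_dvd] at h3
    obtain ⟨q, hq⟩ := h3
    show ∃ b : Fin N, r ((x.val : ℕ) : ℤ) = ((x.val : ℕ) : ℤ) - (d : ℤ) * ((b : ℕ) + 1)
    generalize ((x.val : ℕ) : ℤ) = i at *
    have hq1 : 0 < q := by
      by_contra hcon
      push Not at hcon
      nlinarith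
    have hq2 : q < N + 1 := by
      by_contra hcon
      push Not at hcon
      nlinarith
    refine ⟨⟨(q - 1).toNat, by omega⟩, ?_⟩
    have : (((q - 1).toNat : ℕ) : ℤ) = q - 1 := Int.toNat_of_nonneg (by omega)
    show r i = i - (d : ℤ) * ((((q - 1).toNat : ℕ) : ℤ) + 1)
    rw [this]
    linarith
  choose η hη using hex
  refine ⟨η, ?_⟩
  funext i
  by_cases h : 1 ≤ i ∧ i ≤ (d : ℤ) - 1
  · rw [fOf_in d N η i h.1 h.2]
    have h1 := hη ⟨((i : ℤ) : ZMod d), cast_ne d i h.1 h.2⟩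
    have h2 : (((((i : ℤ) : ZMod d)).val : ℕ) : ℤ) = i := by
      rw [ZMod.val_intCast]
      exact Int.emod_eq_of_lt (by omega) (by omega)
    dsimp only at h1
    rw [h2] at h1
    exact h1.symm
  · rw [fOf_out d N η i h, hr2 i (by omega)]

private lemma card_fun (d N : ℕ) [NeZero d] (hN : 1 ≤ N) :
    Fintype.card ({x : ZMod d // x ≠ 0} → Fin N) = N ^ (d - 1) := by
  have h1 := Fintype.card_congr (Equiv.funSplitAt (0 : ZMod d) (Fin N))
  rw [Fintype.card_prod, Fintype.card_fun, Fintype.card_fin, ZMod.card] at h1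
  have hd0 : 0 < d := Nat.pos_of_ne_zero (NeZero.ne d)
  have h2 : N ^ d = N * N ^ (d - 1) := by
    obtain ⟨e, rfl⟩ : ∃ e, d = e + 1 := ⟨d - 1, by omega⟩
    rw [Nat.add_sub_cancel, pow_succ, mul_comm]
  rw [h2] at h1
  exact (Nat.eq_of_mul_eq_mul_left hN h1).symm

private lemma count_eq (d N : ℕ) [NeZero d] (Z : (ℤ → ℤ) → Prop) :
    ({r | r ∈ Neg d N ∧ Z r} : Set (ℤ → ℤ)).ncard =
      (univ.filter (fun η : {x : ZMod d // x ≠ 0} → Fin N => Z (fOf d N η))).card := by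
  have h1 : ({r | r ∈ Neg d N ∧ Z r} : Set (ℤ → ℤ)) = fOf d N ''
      ((univ.filter (fun η : {x : ZMod d // x ≠ 0} → Fin N => Z (fOf d N η)) : Finset _) :
        Set ({x : ZMod d // x ≠ 0} → Fin N)) := by
    ext r
    simp only [Set.mem_ofPred_eq, Set.mem_image, coe_filter, mem_univ, true_and]
    constructor
    · rintro ⟨h1, h2⟩
      obtain ⟨η, rfl⟩ := fOf_surj d N r h1
      exact ⟨η, h2, rfl⟩
    · rintro ⟨η, h1, rfl⟩
      exact ⟨fOf_mem d N η, h1⟩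
  rw [h1, Set.ncard_image_of_injective _ (fOf_inj d N), Set.ncard_coe_finset]

lemma Neg_ncard (d N : ℕ) (hd : 2 ≤ d) (hN : 1 ≤ N) : (Neg d N).ncard = N ^ (d - 1) := by
  have : NeZero d := ⟨by omega⟩
  have h1 := count_eq d N (fun _ => True)
  have h2 : ({r | r ∈ Neg d N ∧ True} : Set (ℤ → ℤ)) = Neg d N := by
    ext r
    simp
  rw [h2] at h1
  rw [h1, ← card_fun d N hN, ← card_univ]
  congr 1
  ext η
  simp

lemma Neg_count (d N : ℕ) [NeZero d] (hd : 2 ≤ d) (hN : 1 ≤ N) (Z : (ℤ → ℤ) → Prop) (ε : ℝ)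
    (h : Ex N (fun ω : ZMod d → Fin N => if Z (rOf d N ω) then (1 : ℝ) else 0) ≤ ε) :
    (({r | r ∈ Neg d N ∧ Z r} : Set (ℤ → ℤ)).ncard : ℝ) ≤ ε * (N : ℝ) ^ (d - 1) := by
  rw [count_eq d N Z]
  have hN0 : (0 : ℝ) < (N : ℝ) := by exact_mod_cast hN
  unfold Ex at h
  rw [ZMod.card, div_le_iff₀ (pow_pos hN0 d)] at h
  have h1 : ∑ ω : ZMod d → Fin N, (if Z (rOf d N ω) then (1 : ℝ) else 0) =
      ∑ _b : Fin N, ∑ η : {x : ZMod d // x ≠ 0} → Fin N,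
        (if Z (fOf d N η) then (1 : ℝ) else 0) := by
    rw [← Fintype.sum_prod_type' (fun (_ : Fin N) (η : {x : ZMod d // x ≠ 0} → Fin N) =>
      if Z (fOf d N η) then (1 : ℝ) else 0),
      ← Equiv.sum_comp (Equiv.funSplitAt (0 : ZMod d) (Fin N))]
    apply sum_congr rfl
    intro ω _
    rw [rOf_eq]
    rfl
  rw [h1, sum_const, card_univ, Fintype.card_fin, nsmul_eq_mul, sum_boole] at h
  have h2 : (N : ℝ) ^ d = N * (N : ℝ) ^ (d - 1) := by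
    obtain ⟨e, rfl⟩ : ∃ e, d = e + 1 := ⟨d - 1, by omega⟩
    rw [Nat.add_sub_cancel, pow_succ, mul_comm]
  rw [h2] at h
  have h3 : (N : ℝ) * ((univ.filter (fun η : {x : ZMod d // x ≠ 0} → Fin N =>
      Z (fOf d N η))).card : ℝ) ≤ N * (ε * (N : ℝ) ^ (d - 1)) := by
    linarith
  exact le_of_mul_le_mul_left h3 hN0

end SC4
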