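import Pool.Agent.Helper4.SC.Sys

/-!
# SC-22: positivity and the range of `m = d + k`

`Neg_pos`: `r` in `Neg d N` and `n > 0`: if `d ∣ n` then `n / d > 0`; otherwise `i = ((d+k) n) % d` is in
`[1, d-1]`, `r i < 0`, and `d` divides `(d+k) n - r i > 0` (since `r i ≡ i`), so the quotient is positive.
`range_lt`: `log (d + k) < (d/(d-1)) log d`: `d^(d/(d-1)) = d * exp(log d/(d-1)) ≥ d (1 + log d/(d-1))
> d + log d ≥ d + k`, because `k ≤ 80 k/ε ≤ log (2B) ≤ log d`.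
-/

set_option autoImplicit false

namespace SC4

open Finset

lemma Neg_pos (k d N : ℕ) (hd : 2 ≤ d) (hc : Nat.Coprime d k) (r : ℤ → ℤ) (hr : r ∈ Neg d N)
    (n : ℤ) (hn : 0 < n) : 0 < Umap (d + k) d r n := by
  have hd0 : (0 : ℤ) < d := by
    have : 0 < d := by omega
    exact_mod_cast this
  unfold Umap
  split_ifs with h
  · exact Int.ediv_pos_of_pos_of_dvd hn hd0.le h
  · have hm : (0 : ℤ) < ((d + k : ℕ) : ℤ) := by
      have : 0 < d + k := by omega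
      exact_mod_cast this
    have hcop : IsCoprime (d : ℤ) ((d + k : ℕ) : ℤ) := by
      rw [Nat.isCoprime_iff_coprime]
      rw [Nat.coprime_self_add_right]
      exact hc
    have hnd : ¬ (d : ℤ) ∣ ((d + k : ℕ) : ℤ) * n := fun h2 => h (hcop.dvd_of_dvd_mul_left h2)
    set i : ℤ := ((d + k : ℕ) : ℤ) * n % (d : ℤ) with hi
    have hi0 : 0 ≤ i := Int.emod_nonneg _ hd0.ne'
    have hi1 : i < d := Int.emod_lt_of_pos _ hd0
    have hi2 : i ≠ 0 := fun h2 => hnd (Int.dvd_of_emod_eq_zero h2)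
    obtain ⟨h3, -, h4⟩ := hr.1 i (by omega) (by omega)
    have h5 : (d : ℤ) ∣ ((d + k : ℕ) : ℤ) * n - r i := by
      have h6 : r i ≡ ((d + k : ℕ) : ℤ) * n [ZMOD (d : ℤ)] :=
        h3.trans (Int.mod_modEq _ _)
      exact h6.dvd
    have h6 : 0 < ((d + k : ℕ) : ℤ) * n := mul_pos hm hn
    exact Int.ediv_pos_of_pos_of_dvd (by omega) hd0.le h5

lemma range_lt (ε : ℝ) (hε : 0 < ε) (hε1 : ε ≤ 1) (k B d : ℕ) (hk : 1 ≤ k)
    (hB : Real.exp (80 * k / ε) ≤ 2 * B) (hd : (2 * B) ^ 3 ≤ d) :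
    ((d + k : ℕ) : ℝ) < (d : ℝ) ^ ((d : ℝ) / ((d : ℝ) - 1)) := by
  have hk1 : (1 : ℝ) ≤ k := by exact_mod_cast hk
  have h1 : (k : ℝ) + 1 ≤ 80 * k / ε := by
    rw [le_div_iff₀ hε]
    nlinarith
  have h2 : (k : ℝ) + 1 + 1 ≤ 2 * B :=
    (add_le_add_left h1 1).trans ((Real.add_one_le_exp _).trans hB)
  have h3 : (1 : ℝ) ≤ 2 * B := by linarith
  have h4 : (2 * (B : ℝ)) ≤ d := by
    have h5 : ((2 * (B : ℝ)) ^ 3) ≤ d := by exact_mod_cast hd
    have h6 : (2 * (B : ℝ)) ^ 1 ≤ (2 * (B : ℝ)) ^ 3 := pow_le_pow_right₀ h3 (by norm_num)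
    rw [pow_one] at h6
    linarith
  have hd1 : (1 : ℝ) < d := by linarith
  have hd0 : (0 : ℝ) < d := by linarith
  have h5 : (k : ℝ) + 1 ≤ Real.log d := by
    have h6 : 80 * k / ε ≤ Real.log (2 * B) := by
      rw [Real.le_log_iff_exp_le (by linarith)]
      exact hB
    have h7 : Real.log (2 * B) ≤ Real.log d := Real.log_le_log (by linarith) h4
    linarith
  have hdm : (0 : ℝ) < (d : ℝ) - 1 := by linarith
  have h6 : (d : ℝ) ^ ((d : ℝ) / ((d : ℝ) - 1)) = d * Real.exp (Real.log d / ((d : ℝ) - 1)) := by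
    have h7 : (d : ℝ) / ((d : ℝ) - 1) = 1 + 1 / ((d : ℝ) - 1) := by
      field_simp
      ring
    rw [h7, Real.rpow_add hd0, Real.rpow_one, Real.rpow_def_of_pos hd0]
    congr 2
    ring
  rw [h6]
  have h7 : Real.log d / ((d : ℝ) - 1) + 1 ≤ Real.exp (Real.log d / ((d : ℝ) - 1)) :=
    Real.add_one_le_exp _
  have h8 : (d : ℝ) * (Real.log d / ((d : ℝ) - 1) + 1) ≤
      d * Real.exp (Real.log d / ((d : ℝ) - 1)) := mul_le_mul_of_nonneg_left h7 hd0.le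
  have h9 : Real.log d / d ≤ Real.log d / ((d : ℝ) - 1) :=
    div_le_div_of_nonneg_left (by linarith) hdm (by linarith)
  have h10 : (d : ℝ) * (Real.log d / d) ≤ d * (Real.log d / ((d : ℝ) - 1)) :=
    mul_le_mul_of_nonneg_left h9 hd0.le
  rw [mul_div_cancel₀ _ hd0.ne'] at h10
  push_cast
  linarith

end SC4
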