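import Mathlib

/-!
# Project SC (MP_34c02d_nt, small coefficients): definitions

A walk on the integers goes down from the site `s > 0` to `s - 1 - v - g s`, where the environment
`g s` is a number in `{0, ..., N - 1}`; the sites are the distances to a multiple of `d`.
-/

set_option autoImplicit false

namespace SC4

open Finset

/-- The probability that the walk with an independent uniform environment in `{0, ..., N - 1}`,
started at distance `s`, hits `0` (natural numbers). -/
noncomputable def hN (v N : ℕ) : ℕ → ℝ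
  | 0 => 1
  | s + 1 => (∑ b ∈ range N, if v + b ≤ s then hN v N (s - (v + b)) else 0) / N
termination_by s => s
decreasing_by omega

/-- The same function on the integers, `0` for negative arguments. -/
noncomputable def H (v N : ℕ) (z : ℤ) : ℝ := if z < 0 then 0 else hN v N z.toNat

lemma H_neg (v N : ℕ) {z : ℤ} (h : z < 0) : H v N z = 0 := by
  unfold H
  rw [if_pos h]

lemma H_zero (v N : ℕ) : H v N 0 = 1 := by
  unfold H
  rw [if_neg (lt_irrefl _)]
  show hN v N 0 = 1
  rw [hN]

lemma H_rec (v N : ℕ) {z : ℤ} (h : 0 < z) :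
    H v N z = (∑ b ∈ range N, H v N (z - 1 - v - b)) / N := by
  obtain ⟨s, rfl⟩ : ∃ s : ℕ, z = (s : ℤ) + 1 := ⟨(z - 1).toNat, by omega⟩
  have h1 : H v N ((s : ℤ) + 1) = hN v N (s + 1) := by
    unfold H
    rw [if_neg (by omega)]
    congr 1
  rw [h1, hN]
  congr 1
  apply sum_congr rfl
  intro b _
  unfold H
  by_cases hb : v + b ≤ s
  · rw [if_pos hb, if_neg (by omega)]
    congr 1
    omega
  · rw [if_neg hb, if_pos (by omega)]

lemma hN_nonneg (v N s : ℕ) : 0 ≤ hN v N s := by
  induction s using Nat.strong_induction_on with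
  | _ s ih =>
    cases s with
    | zero => rw [hN]; norm_num
    | succ s =>
      rw [hN]
      apply div_nonneg _ (Nat.cast_nonneg _)
      apply sum_nonneg
      intro b _
      split_ifs with hb
      · exact ih _ (by omega)
      · exact le_refl _

lemma H_nonneg (v N : ℕ) (z : ℤ) : 0 ≤ H v N z := by
  unfold H
  split_ifs
  · exact le_refl _
  · exact hN_nonneg _ _ _

/-- The probability that both the walk with parameter `v` started at `s` and the walk with
parameter `w` started at `t`, in the SAME environment, hit `0`. -/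
noncomputable def P (v w N : ℕ) (s t : ℤ) : ℝ :=
  if _h0 : s < 0 ∨ t < 0 then 0
  else if _h1 : s = 0 ∧ t = 0 then 1
  else if _h2 : t < s then (∑ b ∈ range N, P v w N (s - 1 - v - b) t) / N
  else if _h3 : s < t then (∑ b ∈ range N, P v w N s (t - 1 - w - b)) / N
  else (∑ b ∈ range N, P v w N (s - 1 - v - b) (t - 1 - w - b)) / N
termination_by s.toNat + t.toNat
decreasing_by all_goals omega

lemma P_neg (v w N : ℕ) {s t : ℤ} (h : s < 0 ∨ t < 0) : P v w N s t = 0 := by
  rw [P, dif_pos h]

lemma P_zero (v w N : ℕ) : P v w N 0 0 = 1 := by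
  rw [P, dif_neg (by omega), dif_pos ⟨rfl, rfl⟩]

lemma P_left (v w N : ℕ) {s t : ℤ} (h : t < s) (ht : 0 ≤ t) :
    P v w N s t = (∑ b ∈ range N, P v w N (s - 1 - v - b) t) / N := by
  rw [P, dif_neg (by omega), dif_neg (by omega), dif_pos h]

lemma P_right (v w N : ℕ) {s t : ℤ} (h : s < t) (hs : 0 ≤ s) :
    P v w N s t = (∑ b ∈ range N, P v w N s (t - 1 - w - b)) / N := by
  rw [P, dif_neg (by omega), dif_neg (by omega), dif_neg (by omega), dif_pos h]

lemma P_diag (v w N : ℕ) {s : ℤ} (h : 0 < s) :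
    P v w N s s = (∑ b ∈ range N, P v w N (s - 1 - v - b) (s - 1 - w - b)) / N := by
  rw [P, dif_neg (by omega), dif_neg (by omega), dif_neg (by omega), dif_neg (by omega)]

/-- The probability that the two walks with the same parameter `v` in the same environment, started
at `s` and `t`, have no common site `≥ c`. -/
noncomputable def Q (c : ℤ) (v N : ℕ) (s t : ℤ) : ℝ :=
  if _h0 : s < c ∨ t < c then 1
  else if _h1 : s = t then 0
  else if _h2 : t < s then (∑ b ∈ range N, Q c v N (s - 1 - v - b) t) / N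
  else (∑ b ∈ range N, Q c v N s (t - 1 - v - b)) / N
termination_by (s - c).toNat + (t - c).toNat
decreasing_by all_goals omega

lemma Q_out (c : ℤ) (v N : ℕ) {s t : ℤ} (h : s < c ∨ t < c) : Q c v N s t = 1 := by
  rw [Q, dif_pos h]

lemma Q_diag (c : ℤ) (v N : ℕ) {s : ℤ} (h : c ≤ s) : Q c v N s s = 0 := by
  rw [Q, dif_neg (by omega), dif_pos rfl]

lemma Q_left (c : ℤ) (v N : ℕ) {s t : ℤ} (h : t < s) (ht : c ≤ t) :
    Q c v N s t = (∑ b ∈ range N, Q c v N (s - 1 - v - b) t) / N := by
  rw [Q, dif_neg (by omega), dif_neg (by omega), dif_pos h]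

lemma Q_right (c : ℤ) (v N : ℕ) {s t : ℤ} (h : s < t) (hs : c ≤ s) :
    Q c v N s t = (∑ b ∈ range N, Q c v N s (t - 1 - v - b)) / N := by
  rw [Q, dif_neg (by omega), dif_neg (by omega), dif_neg (by omega)]

/-! ### Walks in a given environment -/

/-- one step of the walk -/
def stp (v : ℕ) (g : ℤ → ℕ) (s : ℤ) : ℤ := s - 1 - v - g s

/-- the walk started at `s` hits `0` -/
def hit (v : ℕ) (g : ℤ → ℕ) (s : ℤ) : Prop :=
  if s < 0 then False
  else if _h1 : s = 0 then True
  else hit v g (s - 1 - v - g s)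
termination_by s.toNat
decreasing_by omega

lemma hit_neg (v : ℕ) (g : ℤ → ℕ) {s : ℤ} (h : s < 0) : ¬ hit v g s := by
  rw [hit, if_pos h]
  exact id

lemma hit_zero (v : ℕ) (g : ℤ → ℕ) : hit v g 0 := by
  rw [hit, if_neg (lt_irrefl _), dif_pos rfl]
  trivial

lemma hit_pos (v : ℕ) (g : ℤ → ℕ) {s : ℤ} (h : 0 < s) : hit v g s ↔ hit v g (s - 1 - v - g s) := by
  rw [hit, if_neg (by omega), dif_neg (by omega)]

/-- the walks started at `s` and `t` have a common site `≥ c` -/
def meet (c : ℤ) (v : ℕ) (g : ℤ → ℕ) (s t : ℤ) : Prop :=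
  if _h0 : s < c ∨ t < c then False
  else if _h1 : s = t then True
  else if _h2 : t < s then meet c v g (s - 1 - v - g s) t
  else meet c v g s (t - 1 - v - g t)
termination_by (s - c).toNat + (t - c).toNat
decreasing_by all_goals omega

lemma meet_out (c : ℤ) (v : ℕ) (g : ℤ → ℕ) {s t : ℤ} (h : s < c ∨ t < c) : ¬ meet c v g s t := by
  rw [meet, dif_pos h]
  exact id

lemma meet_diag (c : ℤ) (v : ℕ) (g : ℤ → ℕ) {s : ℤ} (h : c ≤ s) : meet c v g s s := by
  rw [meet, dif_neg (by omega), dif_pos rfl]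
  trivial

lemma meet_left (c : ℤ) (v : ℕ) (g : ℤ → ℕ) {s t : ℤ} (h : t < s) (ht : c ≤ t) :
    meet c v g s t ↔ meet c v g (s - 1 - v - g s) t := by
  rw [meet, dif_neg (by omega), dif_neg (by omega), dif_pos h]

lemma meet_right (c : ℤ) (v : ℕ) (g : ℤ → ℕ) {s t : ℤ} (h : s < t) (hs : c ≤ s) :
    meet c v g s t ↔ meet c v g s (t - 1 - v - g t) := by
  rw [meet, dif_neg (by omega), dif_neg (by omega), dif_neg (by omega)]

/-! ### Expectations -/

/-- the expectation of `X` on the finite probability space `ι → Fin N` -/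
noncomputable def Ex {ι : Type} [Fintype ι] [DecidableEq ι] (N : ℕ) (X : (ι → Fin N) → ℝ) : ℝ :=
  (∑ ω, X ω) / (N : ℝ) ^ Fintype.card ι

/-- the covariance over the common letter -/
noncomputable def kap (v w N : ℕ) (z : ℤ) : ℝ :=
  (∑ b ∈ range N, H v N (z - 1 - v - b) * H w N (z - 1 - w - b)) / N - H v N z * H w N z

/-- the weights of the renewal identity: the probability that a step is larger than `i` -/
noncomputable def wt (v N i : ℕ) : ℝ := ((N - (i - v) : ℕ) : ℝ) / N

/-- the mean of a step -/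
noncomputable def mu (v N : ℕ) : ℝ := v + ((N : ℝ) + 1) / 2

/-- average over half of the letters -/
noncomputable def Au (v B : ℕ) (g : ℤ → ℝ) (x : ℤ) : ℝ := (∑ b ∈ range B, g (x - 1 - v - b)) / B

/-- the map outside the multiples of `d` -/
def F (k d : ℕ) (τ : ℤ → ℕ) (n : ℤ) : ℤ := n + ((k : ℤ) * n) / (d : ℤ) + 1 + τ n

end SC4
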