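import Pool.Agent.Helper4.SC.Defs

/-!
# SC-9: the identity for two walks with different parameters in the same environment

For integers `s, t ≤ K`:
`P s t - H_v s * H_w t = ∑_{i<K} P (s-1-i) (t-1-i) * kap v w N (i+1)`.
Strong induction on `s.toNat + t.toNat`.
 * `s < 0` or `t < 0`: everything is `0` (`P_neg`, `H_neg`).
 * `s = t = 0`: left `1 - 1 * 1`, right `0` (negative arguments).
 * `0 ≤ t < s`: `P_left` and `H_rec` at `s > 0` show that the left side is the average over `b < N` of
   the left sides at `(s-1-v-b, t)`. The same for the right side, term by term: if `t-1-i ≥ 0` use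
   `P_left` at `(s-1-i, t-1-i)` (`s-1-i-1-v-b = (s-1-v-b)-1-i`), if `t-1-i < 0` both are `0`.
 * `0 ≤ s < t`: symmetric, `P_right`.
 * `s = t > 0`: by `P_diag`, left side `= avg_b [P(s-1-v-b, s-1-w-b) - H_v(s-1-v-b) H_w(s-1-w-b)] +
   kap v w N s` (definition of `kap`). Right side: the term `i = s - 1` (it is in `range K`) is
   `P 0 0 * kap s = kap s`; for `i < s-1` use `P_diag` at `s-1-i > 0`; for `i ≥ s` both sides are `0`;
   and in the averaged right sides at `(s-1-v-b, s-1-w-b)` the terms `i ≥ s - 1` vanish
   (`s-1-v-b-1-i < 0`).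
-/

set_option autoImplicit false

namespace SC4

open Finset

private lemma id_nonneg (v w N n : ℕ) : ∀ s t : ℤ, s.toNat + t.toNat = n → 0 ≤ P v w N s t := by
  induction n using Nat.strong_induction_on with
  | _ n ih =>
    intro s t hn
    by_cases h0 : s < 0 ∨ t < 0
    · rw [P_neg v w N h0]
    push Not at h0
    rcases lt_trichotomy t s with h | h | h
    · rw [P_left v w N h h0.2]
      refine div_nonneg (sum_nonneg fun b _ => ih _ ?_ _ _ rfl) (Nat.cast_nonneg _)
      omega
    · subst h
      rcases h0.1.eq_or_lt with h1 | h1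
      · rw [← h1, P_zero]
        exact zero_le_one
      · rw [P_diag v w N h1]
        refine div_nonneg (sum_nonneg fun b _ => ih _ ?_ _ _ rfl) (Nat.cast_nonneg _)
        omega
    · rw [P_right v w N h h0.1]
      refine div_nonneg (sum_nonneg fun b _ => ih _ ?_ _ _ rfl) (Nat.cast_nonneg _)
      omega

lemma P_nonneg (v w N : ℕ) (s t : ℤ) : 0 ≤ P v w N s t :=
  id_nonneg v w N _ s t rfl

/-- the induction step: averages of the identity -/
private lemma id_avg (N K : ℕ) (a : ℕ → ℝ) (F : ℕ → ℕ → ℝ) (G k : ℕ → ℝ)
    (h1 : ∀ b ∈ range N, a b = ∑ i ∈ range K, F b i * k i)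
    (h2 : ∀ i ∈ range K, G i = (∑ b ∈ range N, F b i) / N) :
    (∑ b ∈ range N, a b) / N = ∑ i ∈ range K, G i * k i := by
  rw [sum_congr rfl h1, sum_comm, sum_div]
  refine sum_congr rfl fun i hi => ?_
  rw [h2 i hi, ← sum_mul]
  ring

lemma P_ident (v w N : ℕ) (hN : 0 < N) (K : ℕ) (s t : ℤ) (hs : s ≤ K) (ht : t ≤ K) :
    P v w N s t - H v N s * H w N t =
      ∑ i ∈ range K, P v w N (s - 1 - i) (t - 1 - i) * kap v w N ((i : ℤ) + 1) := by
  have hN0 : (N : ℝ) ≠ 0 := by exact_mod_cast hN.ne'
  obtain ⟨n, hn⟩ : ∃ n, s.toNat + t.toNat = n := ⟨_, rfl⟩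
  induction n using Nat.strong_induction_on generalizing s t with
  | _ n ih =>
    by_cases h0 : s < 0 ∨ t < 0
    · rw [P_neg v w N h0]
      have h1 : H v N s * H w N t = 0 := by
        rcases h0 with h | h
        · rw [H_neg v N h, zero_mul]
        · rw [H_neg w N h, mul_zero]
      rw [h1, sub_zero]
      refine (sum_eq_zero fun i _ => ?_).symm
      rw [P_neg v w N (by omega), zero_mul]
    push Not at h0
    rcases lt_trichotomy t s with h | h | h
    · -- the walk from `s` moves
      have e1 : P v w N s t - H v N s * H w N t = (∑ b ∈ range N,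
          (P v w N (s - 1 - v - b) t - H v N (s - 1 - v - b) * H w N t)) / N := by
        rw [P_left v w N h h0.2, H_rec v N (lt_of_le_of_lt h0.2 h), sum_sub_distrib, ← sum_mul]
        ring
      rw [e1]
      refine id_avg N K _ (fun b i => P v w N (s - 1 - v - b - 1 - i) (t - 1 - i)) _ _
        (fun b _ => ih _ ?_ _ _ ?_ ht rfl) (fun i _ => ?_)
      · omega
      · omega
      · by_cases hi : t - 1 - i < 0
        · rw [P_neg v w N (Or.inr hi), sum_eq_zero (fun b _ => P_neg v w N (Or.inr hi)), zero_div]
        · rw [P_left v w N (by omega) (not_lt.1 hi)]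
          congr 1
          refine sum_congr rfl fun b _ => ?_
          congr 1
          ring
    · subst h
      rcases h0.1.eq_or_lt with h1 | h1
      · rw [← h1, P_zero, H_zero, H_zero, mul_one, sub_self]
        refine (sum_eq_zero fun i _ => ?_).symm
        rw [P_neg v w N (by omega), zero_mul]
      · have e1 : P v w N t t - H v N t * H w N t = (∑ b ∈ range N,
            (P v w N (t - 1 - v - b) (t - 1 - w - b) -
              H v N (t - 1 - v - b) * H w N (t - 1 - w - b))) / N + kap v w N t := by
          rw [P_diag v w N h1, sum_sub_distrib]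
          unfold kap
          ring
        have e2 : (∑ b ∈ range N,
            (P v w N (t - 1 - v - b) (t - 1 - w - b) -
              H v N (t - 1 - v - b) * H w N (t - 1 - w - b))) / N =
            ∑ i ∈ range K, ((∑ b ∈ range N,
              P v w N (t - 1 - v - b - 1 - i) (t - 1 - w - b - 1 - i)) / N) *
                kap v w N ((i : ℤ) + 1) := by
          refine id_avg N K _ (fun b i => P v w N (t - 1 - v - b - 1 - i) (t - 1 - w - b - 1 - i))
            _ _ (fun b _ => ih _ ?_ _ _ ?_ ?_ rfl) (fun i _ => rfl)
          · omega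
          · omega
          · omega
        have e3 : ∀ i ∈ range K, P v w N (t - 1 - i) (t - 1 - i) * kap v w N ((i : ℤ) + 1) =
            ((∑ b ∈ range N,
              P v w N (t - 1 - v - b - 1 - i) (t - 1 - w - b - 1 - i)) / N) *
                kap v w N ((i : ℤ) + 1) +
              (if i = (t - 1).toNat then kap v w N t else 0) := by
          intro i _
          rcases lt_trichotomy (t - 1 - i) 0 with h2 | h2 | h2
          · rw [P_neg v w N (Or.inl h2), sum_eq_zero (fun b _ => P_neg v w N (by omega)),
              if_neg (by omega)]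
            ring
          · rw [h2, P_zero, sum_eq_zero (fun b _ => P_neg v w N (by omega)), if_pos (by omega)]
            have h3 : (i : ℤ) + 1 = t := by omega
            rw [h3]
            ring
          · rw [P_diag v w N h2, if_neg (by omega), add_zero]
            congr 2
            refine sum_congr rfl fun b _ => ?_
            congr 1 <;> ring
        rw [e1, e2, sum_congr rfl e3, sum_add_distrib, sum_ite_eq', if_pos]
        rw [mem_range]
        omega
    · -- the walk from `t` moves
      have e1 : P v w N s t - H v N s * H w N t = (∑ b ∈ range N,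
          (P v w N s (t - 1 - w - b) - H v N s * H w N (t - 1 - w - b))) / N := by
        rw [P_right v w N h h0.1, H_rec w N (lt_of_le_of_lt h0.1 h), sum_sub_distrib, ← mul_sum]
        ring
      rw [e1]
      refine id_avg N K _ (fun b i => P v w N (s - 1 - i) (t - 1 - w - b - 1 - i)) _ _
        (fun b _ => ih _ ?_ _ _ hs ?_ rfl) (fun i _ => ?_)
      · omega
      · omega
      · by_cases hi : s - 1 - i < 0
        · rw [P_neg v w N (Or.inl hi), sum_eq_zero (fun b _ => P_neg v w N (Or.inl hi)), zero_div]
        · rw [P_right v w N (by omega) (not_lt.1 hi)]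
          congr 1
          refine sum_congr rfl fun b _ => ?_
          congr 1
          ring

end SC4
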