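import Pool.Agent.Helper4.SC.Kap
import Pool.Agent.Helper4.SC.Ident

/-!
# SC-11: the pair bound

`N = 2 B`, `v ≠ w`, `∑_{i<W} |kap (i+1)| ≤ θ ≤ 1/2`.

`P_diag_le`: for `1 ≤ s ≤ W`, `P s s ≤ 80/N^2`. Strong induction on `s`: by `P_ident` (`K = s`),
`P s s = H_v s H_w s + kap s (the term i = s-1, P 0 0 = 1) + ∑_{i<s-1} P(s-1-i, s-1-i) kap(i+1)`,
which is at most `16/N^2 + 24/N^2 + (80/N^2) θ ≤ 80/N^2` (`H_le`, `kap_near`).

`P_final`: the same identity for `s = W`.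
-/

set_option autoImplicit false

namespace SC4

open Finset

private lemma diag_step (v w B : ℕ) (hB : 0 < B) (W : ℕ) (θ : ℝ)
    (hsum : ∑ i ∈ range W, |kap v w (2 * B) ((i : ℤ) + 1)| ≤ θ) (s : ℕ) (hs : 1 ≤ s) (hsW : s ≤ W)
    (ih : ∀ r : ℕ, 1 ≤ r → r < s → P v w (2 * B) r r ≤ 80 / ((2 * B : ℕ) : ℝ) ^ 2) :
    P v w (2 * B) s s ≤ H v (2 * B) s * H w (2 * B) s + |kap v w (2 * B) s|
      + 80 / ((2 * B : ℕ) : ℝ) ^ 2 * θ := by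
  obtain ⟨n, rfl⟩ : ∃ n, s = n + 1 := ⟨s - 1, by omega⟩
  have h1 := P_ident v w (2 * B) (by omega) (n + 1) ((n + 1 : ℕ) : ℤ) ((n + 1 : ℕ) : ℤ) le_rfl
    le_rfl
  rw [sum_range_succ] at h1
  have e0 : ((n + 1 : ℕ) : ℤ) - 1 - (n : ℤ) = 0 := by
    push_cast
    ring
  have e1 : ((n : ℤ) + 1) = ((n + 1 : ℕ) : ℤ) := by push_cast; ring
  rw [e0, P_zero, one_mul, e1] at h1
  have h2 : ∑ i ∈ range n, P v w (2 * B) (((n + 1 : ℕ) : ℤ) - 1 - i) (((n + 1 : ℕ) : ℤ) - 1 - i) *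
      kap v w (2 * B) ((i : ℤ) + 1) ≤
      ∑ i ∈ range n, 80 / ((2 * B : ℕ) : ℝ) ^ 2 * |kap v w (2 * B) ((i : ℤ) + 1)| := by
    apply sum_le_sum
    intro i hi
    rw [mem_range] at hi
    have e2 : ((n + 1 : ℕ) : ℤ) - 1 - (i : ℤ) = ((n - i : ℕ) : ℤ) := by
      push_cast [Nat.cast_sub hi.le]
      ring
    rw [e2]
    have h3 := ih (n - i) (by omega) (by omega)
    have h4 := P_nonneg v w (2 * B) ((n - i : ℕ) : ℤ) ((n - i : ℕ) : ℤ)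
    exact (mul_le_mul_of_nonneg_left (le_abs_self _) h4).trans
      (mul_le_mul_of_nonneg_right h3 (abs_nonneg _))
  rw [← mul_sum] at h2
  have h5 : ∑ i ∈ range n, |kap v w (2 * B) ((i : ℤ) + 1)| ≤ θ := by
    refine le_trans ?_ hsum
    apply sum_le_sum_of_subset_of_nonneg
    · intro i hi
      rw [mem_range] at hi ⊢
      omega
    · intro i _ _
      exact abs_nonneg _
  have h6 : 80 / ((2 * B : ℕ) : ℝ) ^ 2 * ∑ i ∈ range n, |kap v w (2 * B) ((i : ℤ) + 1)| ≤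
      80 / ((2 * B : ℕ) : ℝ) ^ 2 * θ := mul_le_mul_of_nonneg_left h5 (by positivity)
  have h7 := le_abs_self (kap v w (2 * B) ((n + 1 : ℕ) : ℤ))
  linarith

lemma P_diag_le (v w B : ℕ) (hB : 0 < B) (hvw : v ≠ w) (W : ℕ) (θ : ℝ) (hθ : θ ≤ 1 / 2)
    (hsum : ∑ i ∈ range W, |kap v w (2 * B) ((i : ℤ) + 1)| ≤ θ) (s : ℕ) (hs : 1 ≤ s) (hsW : s ≤ W) :
    P v w (2 * B) s s ≤ 80 / ((2 * B : ℕ) : ℝ) ^ 2 := by
  induction s using Nat.strong_induction_on with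
  | _ s ih =>
    have h1 := diag_step v w B hB W θ hsum s hs hsW (fun r hr hrs => ih r hrs hr (by omega))
    have hz : (0 : ℤ) < (s : ℤ) := by omega
    have h2 := H_le v B hB hz
    have h3 := H_le w B hB hz
    have h4 := kap_near v w B hB hvw hz
    have h5 := H_nonneg w (2 * B) (s : ℤ)
    have hN : (0 : ℝ) < ((2 * B : ℕ) : ℝ) := by
      have : 0 < 2 * B := by omega
      exact_mod_cast this
    have h6 : H v (2 * B) (s : ℤ) * H w (2 * B) (s : ℤ) ≤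
        4 / ((2 * B : ℕ) : ℝ) * (4 / ((2 * B : ℕ) : ℝ)) :=
      mul_le_mul h2 h3 h5 (by positivity)
    have h7 : 4 / ((2 * B : ℕ) : ℝ) * (4 / ((2 * B : ℕ) : ℝ)) = 16 / ((2 * B : ℕ) : ℝ) ^ 2 := by
      field_simp
      norm_num
    have h8 : 80 / ((2 * B : ℕ) : ℝ) ^ 2 * θ ≤ 80 / ((2 * B : ℕ) : ℝ) ^ 2 * (1 / 2) :=
      mul_le_mul_of_nonneg_left hθ (by positivity)
    have h9 : 16 / ((2 * B : ℕ) : ℝ) ^ 2 + 24 / ((2 * B : ℕ) : ℝ) ^ 2 +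
        80 / ((2 * B : ℕ) : ℝ) ^ 2 * (1 / 2) = 80 / ((2 * B : ℕ) : ℝ) ^ 2 := by
      ring
    linarith

lemma P_final (v w B : ℕ) (hB : 0 < B) (hvw : v ≠ w) (W : ℕ) (hW : 1 ≤ W) (θ : ℝ) (hθ : θ ≤ 1 / 2)
    (hsum : ∑ i ∈ range W, |kap v w (2 * B) ((i : ℤ) + 1)| ≤ θ) :
    P v w (2 * B) W W ≤ H v (2 * B) W * H w (2 * B) W + |kap v w (2 * B) W|
      + 80 / ((2 * B : ℕ) : ℝ) ^ 2 * θ :=
  diag_step v w B hB W θ hsum W hW le_rfl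
    (fun r hr hrs => P_diag_le v w B hB hvw W θ hθ hsum r hr hrs.le)

end SC4
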