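import Pool.Agent.Helper4.SC.Defs

/-!
# SC-15: walks and iterates

`stp v g s = s - 1 - v - g s`.

`stp_iter_le`: every step decreases by at least `1`.
`hit_iter`, `meet_iter`: strong induction along the definitions (`hit_pos`, `meet_left`,
`meet_right`); one more step is `Function.iterate_succ_apply`.
`hit_of_meet`: along the definition of `meet`, `c ≥ 1`, so the site which moves is positive and
`hit_pos` applies.
-/

set_option autoImplicit false

namespace SC4

lemma stp_iter_le (v : ℕ) (g : ℤ → ℕ) (i : ℕ) (s : ℤ) : (stp v g)^[i] s ≤ s - i := by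
  induction i with
  | zero => simp
  | succ i ih =>
    rw [Function.iterate_succ_apply']
    have h : stp v g ((stp v g)^[i] s) =
        (stp v g)^[i] s - 1 - v - g ((stp v g)^[i] s) := rfl
    rw [h]
    push_cast
    omega

lemma hit_iter (v : ℕ) (g : ℤ → ℕ) (s : ℤ) (h : hit v g s) : ∃ i : ℕ, (stp v g)^[i] s = 0 := by
  induction hn : s.toNat using Nat.strong_induction_on generalizing s with
  | _ n ih =>
    rcases lt_trichotomy s 0 with h0 | h0 | h0
    · exact absurd h (hit_neg v g h0)
    · exact ⟨0, h0⟩
    · rw [hit_pos v g h0] at h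
      obtain ⟨i, hi⟩ := ih (s - 1 - v - g s).toNat (by omega) _ h rfl
      exact ⟨i + 1, by rw [Function.iterate_succ_apply]; exact hi⟩

lemma meet_iter (c : ℤ) (v : ℕ) (g : ℤ → ℕ) (s t : ℤ) (h : meet c v g s t) :
    ∃ i j : ℕ, (stp v g)^[i] s = (stp v g)^[j] t ∧ c ≤ (stp v g)^[i] s := by
  induction hn : (s - c).toNat + (t - c).toNat using Nat.strong_induction_on generalizing s t with
  | _ n ih =>
    by_cases h0 : s < c ∨ t < c
    · exact absurd h (meet_out c v g h0)
    · rw [not_or, not_lt, not_lt] at h0
      rcases lt_trichotomy t s with h1 | h1 | h1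
      · rw [meet_left c v g h1 h0.2] at h
        obtain ⟨i, j, hij, hc⟩ := ih _ (by omega) _ _ h rfl
        exact ⟨i + 1, j, by rw [Function.iterate_succ_apply]; exact hij,
          by rw [Function.iterate_succ_apply]; exact hc⟩
      · subst h1
        exact ⟨0, 0, rfl, h0.1⟩
      · rw [meet_right c v g h1 h0.1] at h
        obtain ⟨i, j, hij, hc⟩ := ih _ (by omega) _ _ h rfl
        exact ⟨i, j + 1, by rw [Function.iterate_succ_apply]; exact hij, hc⟩

lemma hit_of_meet (c : ℤ) (hc : 1 ≤ c) (v : ℕ) (g : ℤ → ℕ) (s t : ℤ) (h : meet c v g s t) :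
    hit v g s ↔ hit v g t := by
  induction hn : (s - c).toNat + (t - c).toNat using Nat.strong_induction_on generalizing s t with
  | _ n ih =>
    by_cases h0 : s < c ∨ t < c
    · exact absurd h (meet_out c v g h0)
    · rw [not_or, not_lt, not_lt] at h0
      rcases lt_trichotomy t s with h1 | h1 | h1
      · rw [meet_left c v g h1 h0.2] at h
        rw [hit_pos v g (s := s) (by omega)]
        exact ih _ (by omega) _ _ h rfl
      · subst h1
        exact Iff.rfl
      · rw [meet_right c v g h1 h0.1] at h
        rw [hit_pos v g (s := t) (by omega)]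
        exact ih _ (by omega) _ _ h rfl

end SC4
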