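import Pool.Agent.Helper4.SC.DynA

/-!
# SC-16: walks and the map `F`

`F k d τ n = n + (k n)/d + 1 + τ n` (floor division).

`F_gt`: `n < F n` for `n ≥ 0`.
`F_low`: `0 ≤ k n < d` gives `(k n)/d = 0`.
`F_win`: `n = j d - s`, `s ≥ 1`, `k s ≤ d`: `(k n)/d = j k + (-(k s))/d = j k - 1`, so
`F n = j d - s + j k + τ n = j d - stp (j k - 1) g s` with `g s = τ (j d - s)`; `j, k ≥ 1`, so that
`((j k - 1 : ℕ) : ℤ) = j k - 1`.

`low_meet`: with `g s = τ (M - s)`, `v = 0`: as long as `stp`-iterates of `M - a` are `≥ 1` they are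
`M - F^[i] a` (induction on `i`; all earlier iterates are larger, `stp_iter_le`-type monotonicity,
and for `1 ≤ n < M`, `k n < k M ≤ d`, so `F n = n + 1 + τ n` by `F_low`). Take `i, j` from
`meet_iter` with `c = 1`.

-/

set_option autoImplicit false

namespace SC4

lemma F_gt (k d : ℕ) (τ : ℤ → ℕ) (n : ℤ) (hn : 0 ≤ n) : n < F k d τ n := by
  unfold F
  have h1 : 0 ≤ ((k : ℤ) * n) / (d : ℤ) :=
    Int.ediv_nonneg (mul_nonneg (Int.natCast_nonneg k) hn) (Int.natCast_nonneg d)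
  have h2 : (0 : ℤ) ≤ τ n := Int.natCast_nonneg _
  omega

lemma F_iter_gt (k d : ℕ) (τ : ℤ → ℕ) (n : ℤ) (hn : 0 ≤ n) (i : ℕ) :
    n + i ≤ (F k d τ)^[i] n := by
  induction i with
  | zero => simp
  | succ i ih =>
    rw [Function.iterate_succ_apply']
    have h1 : 0 ≤ (F k d τ)^[i] n := by
      have h2 : (0 : ℤ) ≤ i := Int.natCast_nonneg i
      omega
    have h3 := F_gt k d τ _ h1
    push_cast
    omega

lemma F_low (k d : ℕ) (τ : ℤ → ℕ) (n : ℤ) (hn : 0 ≤ n) (h : (k : ℤ) * n < d) :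
    F k d τ n = n + 1 + τ n := by
  unfold F
  rw [Int.ediv_eq_zero_of_lt (mul_nonneg (Int.natCast_nonneg k) hn) h, add_zero]

lemma F_win (k d : ℕ) (hk : 1 ≤ k) (τ : ℤ → ℕ) (j : ℕ) (hj : 1 ≤ j) (s : ℤ) (hs : 1 ≤ s)
    (hks : (k : ℤ) * s ≤ d) :
    F k d τ ((j : ℤ) * d - s) = (j : ℤ) * d - stp (j * k - 1) (fun x => τ ((j : ℤ) * d - x)) s := by
  have h1 : 1 ≤ (k : ℤ) * s := by
    have h0 : (1 : ℤ) ≤ k := by exact_mod_cast hk
    nlinarith
  have hd : (0 : ℤ) < d := by omega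
  have h2 : ((k : ℤ) * ((j : ℤ) * d - s)) / (d : ℤ) = (j : ℤ) * k - 1 := by
    apply le_antisymm
    · apply Int.le_of_lt_add_one
      rw [Int.ediv_lt_iff_lt_mul hd]
      nlinarith
    · rw [Int.le_ediv_iff_mul_le hd]
      nlinarith
  have h3 : ((j * k - 1 : ℕ) : ℤ) = (j : ℤ) * k - 1 := by
    have h4 : 1 ≤ j * k := Nat.mul_pos hj hk
    rw [Nat.cast_sub h4]
    push_cast
    ring
  unfold F stp
  rw [h2, h3]
  ring

lemma low_meet (k d : ℕ) (hk : 1 ≤ k) (τ : ℤ → ℕ) (M : ℤ) (hM : (k : ℤ) * M ≤ d) (a b : ℤ)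
    (ha : 1 ≤ a) (hb : 1 ≤ b) (haM : a < M) (hbM : b < M)
    (h : meet 1 0 (fun s => τ (M - s)) (M - a) (M - b)) :
    ∃ i j : ℕ, (F k d τ)^[i] a = (F k d τ)^[j] b ∧ (F k d τ)^[i] a < M := by
  have key : ∀ a : ℤ, 1 ≤ a → ∀ i : ℕ, 1 ≤ (stp 0 (fun s => τ (M - s)))^[i] (M - a) →
      (F k d τ)^[i] a = M - (stp 0 (fun s => τ (M - s)))^[i] (M - a) := by
    intro a ha i
    induction i with
    | zero =>
      intro _
      simp
    | succ i ih =>
      intro hi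
      have h1 := F_iter_gt k d τ a (by omega) i
      rw [Function.iterate_succ_apply'] at hi ⊢
      rw [Function.iterate_succ_apply' (stp 0 (fun s => τ (M - s)))]
      obtain ⟨x, hx⟩ : ∃ x, x = (stp 0 (fun s => τ (M - s)))^[i] (M - a) := ⟨_, rfl⟩
      rw [← hx] at ih hi ⊢
      have h2 : stp 0 (fun s => τ (M - s)) x = x - 1 - τ (M - x) := by
        unfold stp
        push_cast
        ring
      rw [h2] at hi ⊢
      have h3 : (0 : ℤ) ≤ τ (M - x) := Int.natCast_nonneg _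
      have h4 := ih (by omega)
      rw [h4] at h1 ⊢
      have h5 : (0 : ℤ) ≤ i := Int.natCast_nonneg i
      have h6 : (1 : ℤ) ≤ k := by exact_mod_cast hk
      rw [F_low k d τ (M - x) (by omega) (by nlinarith)]
      ring
  obtain ⟨i, j, h1, h2⟩ := meet_iter 1 0 _ _ _ h
  have h3 := key a ha i h2
  have h4 := key b hb j (by rw [← h1]; exact h2)
  refine ⟨i, j, ?_, ?_⟩
  · rw [h3, h4, h1]
  · rw [h3]
    omega

end SC4
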