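import Pool.Agent.Helper4.SC.DynB

/-!
# SC-16b: windows

`win_hit`: strong induction on `s.toNat` (for all `0 ≤ s` with `k s ≤ d`): `s = 0`: `i = 0`. `s > 0`: by
`hit_pos` the walk from `s' = s - 1 - (jk-1) - g s < s` hits `0`, so `s' ≥ 0` (`hit_neg`), and
`F (j d - s) = j d - s'` by `F_win`; one more iterate (`Function.iterate_succ_apply`).

`entrance`: if `1 ≤ y` and `F n ≤ n + R` for all `1 ≤ n < y`, then the `F`-orbit of `1` has an
element in `[y, y + R)`: the orbit is strictly increasing (`F_gt`, `F_iter_gt`), take the least `i` with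
`y ≤ F^[i] 1` (`Nat.find`); if `i = 0` then `y = 1`, otherwise `1 ≤ F^[i-1] 1 < y`. (`R ≥ 1`.)
-/

set_option autoImplicit false

namespace SC4

lemma win_hit (k d : ℕ) (hk : 1 ≤ k) (τ : ℤ → ℕ) (j : ℕ) (hj : 1 ≤ j) (s : ℤ) (hs : 0 ≤ s)
    (hks : (k : ℤ) * s ≤ d) (h : hit (j * k - 1) (fun x => τ ((j : ℤ) * d - x)) s) :
    ∃ i : ℕ, (F k d τ)^[i] ((j : ℤ) * d - s) = (j : ℤ) * d := by
  obtain ⟨m, hm⟩ : ∃ m : ℕ, m = s.toNat := ⟨_, rfl⟩
  induction m using Nat.strong_induction_on generalizing s with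
  | _ m ih =>
    rcases eq_or_lt_of_le hs with h0 | h0
    · refine ⟨0, ?_⟩
      rw [← h0, Function.iterate_zero_apply, sub_zero]
    · have hF := F_win k d hk τ j hj s (by omega) hks
      rw [hit_pos _ _ h0] at h
      have hst : stp (j * k - 1) (fun x => τ ((j : ℤ) * d - x)) s =
          s - 1 - ((j * k - 1 : ℕ) : ℤ) - (τ ((j : ℤ) * d - s) : ℤ) := rfl
      change hit (j * k - 1) (fun x => τ ((j : ℤ) * d - x))
        (s - 1 - ((j * k - 1 : ℕ) : ℤ) - (τ ((j : ℤ) * d - s) : ℤ)) at h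
      rw [← hst] at h
      obtain ⟨s', hs'⟩ : ∃ s', s' = stp (j * k - 1) (fun x => τ ((j : ℤ) * d - x)) s := ⟨_, rfl⟩
      rw [← hs'] at h hF hst
      have h1 : 0 ≤ s' := by
        by_contra hn
        exact hit_neg _ _ (by omega) h
      have h2 : s' < s := by omega
      have h3 : (k : ℤ) * s' ≤ d :=
        le_trans (mul_le_mul_of_nonneg_left h2.le (Int.natCast_nonneg k)) hks
      obtain ⟨i, hi⟩ := ih s'.toNat (by omega) s' h1 h3 h rfl
      refine ⟨i + 1, ?_⟩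
      rw [Function.iterate_succ_apply, hF]
      exact hi

lemma entrance (k d : ℕ) (τ : ℤ → ℕ) (y R : ℤ) (hy : 1 ≤ y) (hR : 1 ≤ R)
    (hF : ∀ n : ℤ, 1 ≤ n → n < y → F k d τ n ≤ n + R) :
    ∃ i : ℕ, y ≤ (F k d τ)^[i] 1 ∧ (F k d τ)^[i] 1 < y + R := by
  classical
  have hex : ∃ i : ℕ, y ≤ (F k d τ)^[i] 1 := by
    refine ⟨y.toNat, ?_⟩
    have h1 := F_iter_gt k d τ 1 (by norm_num) y.toNat
    have h2 : ((y.toNat : ℕ) : ℤ) = y := Int.toNat_of_nonneg (by omega)
    omega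
  refine ⟨Nat.find hex, Nat.find_spec hex, ?_⟩
  rcases h0 : Nat.find hex with _ | i
  · rw [Function.iterate_zero_apply]
    omega
  · have h1 : ¬ y ≤ (F k d τ)^[i] 1 := Nat.find_min hex (by omega)
    have h2 := F_iter_gt k d τ 1 (by norm_num) i
    have h3 := hF ((F k d τ)^[i] 1) (by omega) (by omega)
    rw [Function.iterate_succ_apply']
    omega

end SC4
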