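import Pool.Agent.Helper4.SC.DynB

/-!
# SC-17: from `F` to `U`

`U n = F n` if `d` does not divide `n`, `U (j d) = j`.

`cycle_of_orbits`: suppose (1) for all `1 ≤ a ≤ A` the `F`-orbits of `a` and of `1` have a common
element `< d`, (2) some `j` with `1 ≤ j ≤ A` has `j d` in the `F`-orbit of `1`. Take the least such
`j ≥ 1`, `j d = F^[t0] 1`. Elements of the `F`-orbit of `1` below `j d` are not multiples of `d` (they
are positive; minimality of `j`), so `U^[i] 1 = F^[i] 1` for `i ≤ t0`. For `1 ≤ a ≤ A`: if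
`F^[i] a = F^[i'] 1 = x < d`, the elements `F^[l] a`, `l < i`, are in `[1, d)`, so `U^[i] a = x`, and
`i' ≤ t0` since `x < d ≤ j d` and `F` increases, so `U^[t0 - i'] x = j d`. So every `a ≤ A` reaches
`n = j d`; and `U n = j ≤ A` reaches `n`: `n` is periodic.
-/

set_option autoImplicit false

namespace SC4

private lemma U_iter_eq {k d : ℕ} {τ : ℤ → ℕ} {U : ℤ → ℤ}
    (hU : ∀ n : ℤ, 0 < n → ¬ (d : ℤ) ∣ n → U n = F k d τ n) {x : ℤ} (hx : 1 ≤ x) (m : ℕ)
    (h : ∀ l < m, ¬ (d : ℤ) ∣ (F k d τ)^[l] x) : U^[m] x = (F k d τ)^[m] x := by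
  induction m with
  | zero => rfl
  | succ m ih =>
    have h1 := F_iter_gt k d τ x (by omega) m
    rw [Function.iterate_succ_apply', Function.iterate_succ_apply',
      ih (fun l hl => h l (by omega)), hU _ (by omega) (h m (by omega))]

private lemma F_iter_lt (k d : ℕ) (τ : ℤ → ℕ) (x : ℤ) (hx : 0 ≤ x) {l m : ℕ} (h : l < m) :
    (F k d τ)^[l] x < (F k d τ)^[m] x := by
  have h1 := F_iter_gt k d τ x hx l
  have h2 := F_iter_gt k d τ ((F k d τ)^[l] x) (by omega) (m - l)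
  rw [← Function.iterate_add_apply, Nat.sub_add_cancel h.le] at h2
  omega

lemma cycle_of_orbits (k d : ℕ) (hd : 1 ≤ d) (τ : ℤ → ℕ) (U : ℤ → ℤ)
    (hU : ∀ n : ℤ, 0 < n → ¬ (d : ℤ) ∣ n → U n = F k d τ n)
    (hU2 : ∀ j : ℤ, U (j * d) = j) (A : ℤ)
    (h1 : ∀ a : ℤ, 1 ≤ a → a ≤ A →
      ∃ i j : ℕ, (F k d τ)^[i] a = (F k d τ)^[j] 1 ∧ (F k d τ)^[i] a < d)
    (h2 : ∃ j : ℤ, 1 ≤ j ∧ j ≤ A ∧ ∃ i : ℕ, (F k d τ)^[i] 1 = j * d) :
    ∃ n : ℤ, 0 < n ∧ (∃ p : ℕ, 0 < p ∧ U^[p] n = n) ∧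
      ∀ a : ℤ, 1 ≤ a → a ≤ A → ∃ i : ℕ, U^[i] a = n := by
  classical
  have hex : ∃ i : ℕ, ∃ j : ℤ, 1 ≤ j ∧ j ≤ A ∧ (F k d τ)^[i] 1 = j * d := by
    obtain ⟨j, hj, hjA, i, hi⟩ := h2
    exact ⟨i, j, hj, hjA, hi⟩
  obtain ⟨j, hj, hjA, ht⟩ := Nat.find_spec hex
  have hmin : ∀ l < Nat.find hex, ¬ (d : ℤ) ∣ (F k d τ)^[l] 1 := by
    rintro l hl ⟨m, hm⟩
    refine Nat.find_min hex hl ⟨m, ?_, ?_, by rw [hm, mul_comm]⟩
    · have h3 := F_iter_gt k d τ 1 (by norm_num) l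
      by_contra h4
      have h5 : (d : ℤ) * m ≤ 0 := mul_nonpos_of_nonneg_of_nonpos (by positivity) (by omega)
      omega
    · have h3 := F_iter_lt k d τ 1 (by norm_num) hl
      rw [hm, ht, mul_comm] at h3
      have h4 : m < j := lt_of_mul_lt_mul_right h3 (by positivity)
      omega
  generalize Nat.find hex = t at ht hmin
  have hd' : (1 : ℤ) ≤ d := by exact_mod_cast hd
  have hjd : (d : ℤ) ≤ j * d := by nlinarith
  have reach : ∀ a : ℤ, 1 ≤ a → a ≤ A → ∃ i : ℕ, U^[i] a = j * d := by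
    intro a ha haA
    obtain ⟨i, i', h3, h4⟩ := h1 a ha haA
    have h5 : U^[i] a = (F k d τ)^[i] a := by
      refine U_iter_eq hU ha i fun l hl hdvd => ?_
      have h6 := F_iter_gt k d τ a (by omega) l
      have h7 := F_iter_lt k d τ a (by omega) hl
      have h8 := Int.le_of_dvd (by omega) hdvd
      omega
    have h6 : i' ≤ t := by
      by_contra h7
      have h8 := F_iter_lt k d τ 1 (by norm_num) (lt_of_not_ge h7)
      omega
    have h7 : U^[t - i'] ((F k d τ)^[i'] 1) = (F k d τ)^[t - i'] ((F k d τ)^[i'] 1) := by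
      have h8 := F_iter_gt k d τ 1 (by norm_num) i'
      refine U_iter_eq hU (by omega) _ fun l hl => ?_
      rw [← Function.iterate_add_apply]
      exact hmin _ (by omega)
    refine ⟨(t - i') + i, ?_⟩
    rw [Function.iterate_add_apply, h5, h3, h7, ← Function.iterate_add_apply,
      Nat.sub_add_cancel h6, ht]
  refine ⟨j * d, by omega, ?_, reach⟩
  obtain ⟨i, hi⟩ := reach j hj hjA
  exact ⟨i + 1, by omega, by rw [Function.iterate_succ_apply, hU2, hi]⟩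

end SC4
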