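import Pool.Agent.Helper4.SC.DynB2
import Pool.Agent.Helper4.SC.DynC

/-!
# SC-18: the deterministic part

`dyn`: (1) from `low_meet` with `M ≤ d`, and `hmeet`. (2) Let `j`, `1 ≤ j ≤ J`, with
`hit (j k - 1) (fun x => τ (-x)) W`. Since `τ` has period `d`, `τ (j d - x) = τ (-x)`. For
`1 ≤ n < j d - W` (even `n < j d`) `F n ≤ n + (j k - 1) + 1 + (N - 1) ≤ n + R` (`(k n)/d < j k`).
`y = j d - W ≥ 1`: `entrance` gives an element `x` of the orbit with `y ≤ x < y + R`, `s = j d - x` in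
`(W - R, W]`; `hwin` and `hit_of_meet` show `hit (j k - 1) _ s`; `win_hit` gives `j d` in the orbit.
-/

set_option autoImplicit false

namespace SC4

lemma dyn (k d N J A : ℕ) (M W R : ℤ) (hk : 1 ≤ k) (hd : 1 ≤ d) (τ : ℤ → ℕ)
    (hτ : ∀ n : ℤ, τ n < N) (hper : ∀ n j : ℤ, τ (j * d + n) = τ n) (U : ℤ → ℤ)
    (hU : ∀ n : ℤ, 0 < n → ¬ (d : ℤ) ∣ n → U n = F k d τ n)
    (hU2 : ∀ j : ℤ, U (j * d) = j)
    (hM : (k : ℤ) * M ≤ d) (hMd : M ≤ d) (hA : (A : ℤ) < M) (hM1 : 1 < M) (hJA : J ≤ A)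
    (hR : (J : ℤ) * k + N ≤ R) (hR1 : 1 ≤ R) (hW : R ≤ W) (hWk : (k : ℤ) * W ≤ d) (hWd : W < d)
    (hmeet : ∀ a : ℤ, 1 ≤ a → a ≤ A → meet 1 0 (fun s => τ (M - s)) (M - a) (M - 1))
    (hwin : ∀ j : ℕ, 1 ≤ j → j ≤ J → ∀ s : ℤ, W - R < s → s ≤ W →
      meet 1 (j * k - 1) (fun x => τ (-x)) s W)
    (hhit : ∃ j : ℕ, 1 ≤ j ∧ j ≤ J ∧ hit (j * k - 1) (fun x => τ (-x)) W) :
    ∃ n : ℤ, 0 < n ∧ (∃ p : ℕ, 0 < p ∧ U^[p] n = n) ∧
      ∀ a : ℤ, 1 ≤ a → a ≤ A → ∃ i : ℕ, U^[i] a = n := by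
  have hd0 : (0 : ℤ) < d := by exact_mod_cast hd
  have hk0 : (1 : ℤ) ≤ k := by exact_mod_cast hk
  refine cycle_of_orbits k d hd τ U hU hU2 A ?_ ?_
  · intro a ha haA
    obtain ⟨i, j, hij, hi⟩ := low_meet k d hk τ M hM a 1 ha le_rfl (by omega) hM1 (hmeet a ha haA)
    exact ⟨i, j, hij, by omega⟩
  · obtain ⟨j, hj, hjJ, hh⟩ := hhit
    have hj0 : (1 : ℤ) ≤ j := by exact_mod_cast hj
    have hjd : (d : ℤ) ≤ (j : ℤ) * d := by nlinarith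
    have hjk : (j : ℤ) * k ≤ (J : ℤ) * k :=
      mul_le_mul_of_nonneg_right (by exact_mod_cast hjJ) (by omega)
    obtain ⟨i, hi1, hi2⟩ := entrance k d τ ((j : ℤ) * d - W) R (by omega) hR1 (by
      intro n hn hny
      have h1 : ((k : ℤ) * n) / (d : ℤ) < (j : ℤ) * k := by
        rw [Int.ediv_lt_iff_lt_mul hd0]
        have h2 : n < (j : ℤ) * d := by omega
        calc (k : ℤ) * n < (k : ℤ) * ((j : ℤ) * d) := mul_lt_mul_of_pos_left h2 (by omega)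
          _ = (j : ℤ) * k * d := by ring
      have h3 : (τ n : ℤ) < N := by exact_mod_cast hτ n
      unfold F
      omega)
    obtain ⟨s, hs⟩ : ∃ s, s = (j : ℤ) * d - (F k d τ)^[i] 1 := ⟨_, rfl⟩
    have hx : (F k d τ)^[i] 1 = (j : ℤ) * d - s := by omega
    rw [hx] at hi1 hi2
    have hsW : s ≤ W := by omega
    have hsR : W - R < s := by omega
    have hm := (hit_of_meet 1 le_rfl _ _ s W (hwin j hj hjJ s hsR hsW)).mpr hh
    have hfun : (fun x : ℤ => τ ((j : ℤ) * d - x)) = (fun x : ℤ => τ (-x)) := by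
      funext x
      rw [sub_eq_add_neg, hper]
    rw [← hfun] at hm
    obtain ⟨i', hi'⟩ := win_hit k d hk τ j hj s (by omega)
      (le_trans (mul_le_mul_of_nonneg_left hsW (by omega)) hWk) hm
    refine ⟨j, hj0, by omega, i' + i, ?_⟩
    rw [Function.iterate_add_apply, hx, hi']

end SC4
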