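import Pool.Agent.Helper4.SC.Defs

/-!
# SC-13: expectations on `ι → Fin N`

`Ex_step`: split off the coordinate `i` (for instance `Equiv.funSplitAt i (Fin N)` or
`Fintype.sum_equiv`): the sum over `ω` of `Y (ω i) ω` is the sum over `c : Fin N` and over the rest of
`Y c (..)`, and by `hY` the value `Y c` does not depend on the coordinate `i`, so
`∑_ω Y c ω = N * (sum over the rest)`.

-/

set_option autoImplicit false

namespace SC4

open Finset

variable {ι : Type} [Fintype ι] [DecidableEq ι]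

lemma Ex_const (N : ℕ) (hN : 0 < N) (c : ℝ) : Ex (ι := ι) N (fun _ => c) = c := by
  unfold Ex
  have h : (N : ℝ) ≠ 0 := by positivity
  rw [sum_const, card_univ, Fintype.card_fun, Fintype.card_fin, nsmul_eq_mul]
  push_cast
  field_simp

lemma Ex_mono (N : ℕ) {X Y : (ι → Fin N) → ℝ} (h : ∀ ω, X ω ≤ Y ω) : Ex N X ≤ Ex N Y := by
  unfold Ex
  gcongr with ω
  exact h ω

lemma Ex_add (N : ℕ) (X Y : (ι → Fin N) → ℝ) : Ex N (fun ω => X ω + Y ω) = Ex N X + Ex N Y := by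
  unfold Ex
  rw [sum_add_distrib, add_div]

lemma Ex_sum (N : ℕ) {β : Type} (S : Finset β) (X : β → (ι → Fin N) → ℝ) :
    Ex N (fun ω => ∑ b ∈ S, X b ω) = ∑ b ∈ S, Ex N (X b) := by
  unfold Ex
  rw [sum_comm, sum_div]

lemma Ex_step (N : ℕ) (hN : 0 < N) (i : ι) (Y : ℕ → (ι → Fin N) → ℝ)
    (hY : ∀ (b : ℕ) (ω : ι → Fin N) (c : Fin N), Y b (Function.update ω i c) = Y b ω) :
    Ex N (fun ω => Y (ω i : ℕ) ω) = (∑ b ∈ range N, Ex N (Y b)) / N := by
  have h0 : (N : ℝ) ≠ 0 := by positivity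
  have h1 : ∀ F : (ι → Fin N) → ℝ, ∑ ω : ι → Fin N, F ω =
      ∑ r : {j : ι // j ≠ i} → Fin N, ∑ c : Fin N, F ((Equiv.funSplitAt i (Fin N)).symm (c, r)) := by
    intro F
    rw [← (Equiv.funSplitAt i (Fin N)).symm.sum_comp F, Fintype.sum_prod_type, sum_comm]
  have h2 : ∀ (b : ℕ) (c c' : Fin N) (r : {j : ι // j ≠ i} → Fin N),
      Y b ((Equiv.funSplitAt i (Fin N)).symm (c, r)) =
        Y b ((Equiv.funSplitAt i (Fin N)).symm (c', r)) := by
    intro b c c' r
    rw [← hY b ((Equiv.funSplitAt i (Fin N)).symm (c', r)) c]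
    congr 1
    ext j
    by_cases hj : j = i
    · subst hj
      simp [Equiv.funSplitAt, Equiv.piSplitAt]
    · simp [Equiv.funSplitAt, Equiv.piSplitAt, hj]
  have h3 : ∀ (c : Fin N) (r : {j : ι // j ≠ i} → Fin N),
      ((Equiv.funSplitAt i (Fin N)).symm (c, r)) i = c := by
    intro c r
    simp [Equiv.funSplitAt, Equiv.piSplitAt]
  have key : (N : ℝ) * ∑ ω : ι → Fin N, Y (ω i : ℕ) ω =
      ∑ b ∈ range N, ∑ ω : ι → Fin N, Y b ω := by
    rw [h1, mul_sum]
    have h4 : ∀ b : ℕ, ∑ ω : ι → Fin N, Y b ω =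
        ∑ r : {j : ι // j ≠ i} → Fin N, (N : ℝ) *
          Y b ((Equiv.funSplitAt i (Fin N)).symm (⟨0, hN⟩, r)) := by
      intro b
      rw [h1]
      refine sum_congr rfl fun r _ => ?_
      rw [sum_congr rfl fun c _ => h2 b c ⟨0, hN⟩ r, sum_const, card_univ, Fintype.card_fin,
        nsmul_eq_mul]
    rw [sum_congr rfl fun b _ => h4 b, sum_comm]
    refine sum_congr rfl fun r _ => ?_
    rw [← mul_sum]
    congr 1
    rw [← Fin.sum_univ_eq_sum_range
      (fun b => Y b ((Equiv.funSplitAt i (Fin N)).symm (⟨0, hN⟩, r)))]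
    refine sum_congr rfl fun c _ => ?_
    rw [h3]
    exact h2 _ _ _ _
  unfold Ex
  rw [← sum_div, ← key]
  field_simp

end SC4
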