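import Pool.Agent.Helper4.SC.ExB

/-!
# SC-14a: the probability of hitting

`e : ℤ → ι` is injective on `[1, W]`; the environment of `ω : ι → Fin N` is `g x = ω (e x)`.

`hit_congr`: strong induction, the walk from `s` only uses sites in `[1, s]`.

`Ex_hit`: strong induction on `s.toNat`. `s < 0`: `0`. `s = 0`: `1` (`Ex_const`). `s > 0`: by `hit_pos`
the indicator is `Y (ω (e s)) ω` with `Y b ω = [hit v g (s-1-v-b)]`, which does not depend on the
coordinate `e s` (`hit_congr`: sites `x ≤ s-1-v-b < s`, `e x ≠ e s`); `Ex_step`, the induction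
hypothesis and `H_rec`.
-/

set_option autoImplicit false

namespace SC4

open Finset Classical

lemma hit_congr (v : ℕ) (g g' : ℤ → ℕ) (s : ℤ) (h : ∀ x : ℤ, 1 ≤ x → x ≤ s → g x = g' x) :
    hit v g s ↔ hit v g' s := by
  obtain ⟨n, hn⟩ : ∃ n, n = s.toNat := ⟨_, rfl⟩
  induction n using Nat.strong_induction_on generalizing s with
  | _ n ih =>
    rcases lt_trichotomy s 0 with h0 | h0 | h0
    · exact iff_of_false (hit_neg v g h0) (hit_neg v g' h0)
    · rw [h0]
      exact iff_of_true (hit_zero v g) (hit_zero v g')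
    · rw [hit_pos v g h0, hit_pos v g' h0, ← h s (by omega) le_rfl]
      exact ih (s - 1 - v - g s).toNat (by omega) _ (fun x h1 h2 => h x h1 (by omega)) rfl

variable {ι : Type} [Fintype ι] [DecidableEq ι]

lemma Ex_hit (N : ℕ) (hN : 0 < N) (e : ℤ → ι) (W : ℤ)
    (he : ∀ x y : ℤ, 1 ≤ x → x ≤ W → 1 ≤ y → y ≤ W → e x = e y → x = y) (v : ℕ) (s : ℤ)
    (hs : s ≤ W) :
    Ex N (fun ω : ι → Fin N => if hit v (fun x => (ω (e x) : ℕ)) s then (1 : ℝ) else 0) = H v N s := by
  obtain ⟨n, hn⟩ : ∃ n, n = s.toNat := ⟨_, rfl⟩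
  induction n using Nat.strong_induction_on generalizing s with
  | _ n ih =>
    rcases lt_trichotomy s 0 with h0 | h0 | h0
    · have h1 : (fun ω : ι → Fin N => if hit v (fun x => (ω (e x) : ℕ)) s then (1 : ℝ) else 0) =
          fun _ => 0 := by
        funext ω
        exact if_neg (hit_neg v _ h0)
      rw [h1, Ex_const N hN, H_neg v N h0]
    · have h1 : (fun ω : ι → Fin N => if hit v (fun x => (ω (e x) : ℕ)) s then (1 : ℝ) else 0) =
          fun _ => 1 := by
        funext ω
        rw [h0]
        exact if_pos (hit_zero v _)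
      rw [h1, Ex_const N hN, h0, H_zero]
    · obtain ⟨Y, hYd⟩ : ∃ Y : ℕ → (ι → Fin N) → ℝ, Y = fun (b : ℕ) (ω : ι → Fin N) =>
          if hit v (fun x => (ω (e x) : ℕ)) (s - 1 - v - b) then (1 : ℝ) else 0 := ⟨_, rfl⟩
      have h1 : (fun ω : ι → Fin N => if hit v (fun x => (ω (e x) : ℕ)) s then (1 : ℝ) else 0) =
          fun ω => Y (ω (e s) : ℕ) ω := by
        funext ω
        rw [hYd]
        exact if_congr (hit_pos v (fun x => (ω (e x) : ℕ)) h0) rfl rfl
      have hY : ∀ (b : ℕ) (ω : ι → Fin N) (c : Fin N),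
          Y b (Function.update ω (e s) c) = Y b ω := by
        intro b ω c
        rw [hYd]
        refine if_congr (hit_congr v _ _ _ fun x hx1 hx2 => ?_) rfl rfl
        have hne : e x ≠ e s := by
          intro h2
          have h3 := he x s hx1 (by omega) (by omega) hs h2
          omega
        show ((Function.update ω (e s) c (e x) : Fin N) : ℕ) = (ω (e x) : ℕ)
        rw [Function.update_of_ne hne]
      rw [h1, Ex_step N hN (e s) Y hY, H_rec v N h0]
      congr 1
      refine sum_congr rfl fun b _ => ?_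
      rw [hYd]
      exact ih (s - 1 - v - b).toNat (by omega) _ (by omega) rfl

end SC4
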