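import Pool.Agent.Helper4.SC.ExH

/-!
# SC-14b: the probability that two walks in the same environment hit

`Ex_hit2`: strong induction on `s.toNat + t.toNat` along the definition of `P` (`P_neg`, `P_zero`,
`P_left`, `P_right`, `P_diag`). For `0 ≤ t < s` the coordinate `e s` is used (`hit_pos` for `s`;
`hit w g t` and `hit v g (s-1-v-b)` do not depend on it by `hit_congr`), `Ex_step` with
`Y b ω = [hit v g (s-1-v-b)] * [hit w g t]`; for `0 ≤ s < t` the coordinate `e t`; for `s = t > 0` the
coordinate `e s` with `Y b ω = [hit v g (s-1-v-b)] * [hit w g (s-1-w-b)]`.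
-/

set_option autoImplicit false

namespace SC4

open Finset Classical

variable {ι : Type} [Fintype ι] [DecidableEq ι]

omit [Fintype ι] in
private lemma Ex_hit2_upd (N : ℕ) (e : ℤ → ι) (W : ℤ)
    (he : ∀ x y : ℤ, 1 ≤ x → x ≤ W → 1 ≤ y → y ≤ W → e x = e y → x = y) (v : ℕ) (y z : ℤ)
    (hy1 : 1 ≤ y) (hy : y ≤ W) (hz : z < y) (ω : ι → Fin N) (c : Fin N) :
    (if hit v (fun x => (Function.update ω (e y) c (e x) : ℕ)) z then (1 : ℝ) else 0) =
      (if hit v (fun x => (ω (e x) : ℕ)) z then (1 : ℝ) else 0) := by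
  have h1 : hit v (fun x => (Function.update ω (e y) c (e x) : ℕ)) z ↔
      hit v (fun x => (ω (e x) : ℕ)) z := by
    apply hit_congr
    intro x hx1 hx
    have hne : e x ≠ e y := by
      intro h
      have := he x y hx1 (by omega) hy1 hy h
      omega
    simp only [Function.update_of_ne hne]
  by_cases h : hit v (fun x => (ω (e x) : ℕ)) z
  · rw [if_pos h, if_pos (h1.mpr h)]
  · rw [if_neg h, if_neg (fun h' => h (h1.mp h'))]

omit [Fintype ι] [DecidableEq ι] in
private lemma Ex_hit2_pos (N : ℕ) (e : ℤ → ι) (v : ℕ) (y : ℤ) (hy : 0 < y) (ω : ι → Fin N) :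
    (if hit v (fun x => (ω (e x) : ℕ)) y then (1 : ℝ) else 0) =
      (if hit v (fun x => (ω (e x) : ℕ)) (y - 1 - v - ((ω (e y) : ℕ) : ℤ)) then (1 : ℝ) else 0) := by
  have h1 : hit v (fun x => (ω (e x) : ℕ)) y ↔
      hit v (fun x => (ω (e x) : ℕ)) (y - 1 - v - ((ω (e y) : ℕ) : ℤ)) :=
    hit_pos v (fun x => (ω (e x) : ℕ)) hy
  by_cases h : hit v (fun x => (ω (e x) : ℕ)) y
  · rw [if_pos h, if_pos (h1.mp h)]
  · rw [if_neg h, if_neg (fun h' => h (h1.mpr h'))]

lemma Ex_hit2 (N : ℕ) (hN : 0 < N) (e : ℤ → ι) (W : ℤ)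
    (he : ∀ x y : ℤ, 1 ≤ x → x ≤ W → 1 ≤ y → y ≤ W → e x = e y → x = y) (v w : ℕ) (s t : ℤ)
    (hs : s ≤ W) (ht : t ≤ W) :
    Ex N (fun ω : ι → Fin N => (if hit v (fun x => (ω (e x) : ℕ)) s then (1 : ℝ) else 0) *
      (if hit w (fun x => (ω (e x) : ℕ)) t then (1 : ℝ) else 0)) = P v w N s t := by
  have main : ∀ n : ℕ, ∀ s t : ℤ, s ≤ W → t ≤ W → s.toNat + t.toNat = n →
      Ex N (fun ω : ι → Fin N => (if hit v (fun x => (ω (e x) : ℕ)) s then (1 : ℝ) else 0) *
        (if hit w (fun x => (ω (e x) : ℕ)) t then (1 : ℝ) else 0)) = P v w N s t := by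
    intro n
    induction n using Nat.strong_induction_on with
    | _ n ih =>
      intro s t hs ht hn
      by_cases h0 : s < 0 ∨ t < 0
      · rw [P_neg v w N h0]
        have hz : (fun ω : ι → Fin N =>
            (if hit v (fun x => (ω (e x) : ℕ)) s then (1 : ℝ) else 0) *
            (if hit w (fun x => (ω (e x) : ℕ)) t then (1 : ℝ) else 0)) = fun _ => (0 : ℝ) := by
          funext ω
          rcases h0 with h0 | h0
          · rw [if_neg (hit_neg _ _ h0), zero_mul]
          · rw [if_neg (hit_neg w _ h0), mul_zero]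
        rw [hz, Ex_const N hN]
      rw [not_or, not_lt, not_lt] at h0
      obtain ⟨hs0, ht0⟩ := h0
      rcases lt_trichotomy s t with h | h | h
      · -- `s < t`
        have key := Ex_step N hN (e t) (fun (b : ℕ) (ω : ι → Fin N) =>
          (if hit v (fun x => (ω (e x) : ℕ)) s then (1 : ℝ) else 0) *
          (if hit w (fun x => (ω (e x) : ℕ)) (t - 1 - w - (b : ℤ)) then (1 : ℝ) else 0)) (by
            intro b ω c
            show _ * _ = _ * _
            rw [Ex_hit2_upd N e W he v t s (by omega) ht h ω c,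
              Ex_hit2_upd N e W he w t (t - 1 - w - (b : ℤ)) (by omega) ht (by omega) ω c])
        rw [P_right v w N h hs0]
        have h1 : (fun ω : ι → Fin N =>
            (if hit v (fun x => (ω (e x) : ℕ)) s then (1 : ℝ) else 0) *
            (if hit w (fun x => (ω (e x) : ℕ)) t then (1 : ℝ) else 0)) =
            (fun ω : ι → Fin N =>
            (if hit v (fun x => (ω (e x) : ℕ)) s then (1 : ℝ) else 0) *
            (if hit w (fun x => (ω (e x) : ℕ)) (t - 1 - w - ((ω (e t) : ℕ) : ℤ))
              then (1 : ℝ) else 0)) := by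
          funext ω
          rw [Ex_hit2_pos N e w t (by omega) ω]
        rw [h1, key]
        congr 1
        apply sum_congr rfl
        intro b _
        exact ih (s.toNat + (t - 1 - w - (b : ℤ)).toNat) (by omega) s (t - 1 - w - (b : ℤ)) hs
          (by omega) rfl
      · -- `s = t`
        subst h
        rcases hs0.eq_or_lt with h0 | h0
        · subst h0
          rw [P_zero]
          have h1 : (fun ω : ι → Fin N =>
              (if hit v (fun x => (ω (e x) : ℕ)) 0 then (1 : ℝ) else 0) *
              (if hit w (fun x => (ω (e x) : ℕ)) 0 then (1 : ℝ) else 0)) = fun _ => (1 : ℝ) := by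
            funext ω
            rw [if_pos (hit_zero v _), if_pos (hit_zero w _), mul_one]
          rw [h1, Ex_const N hN]
        · have key := Ex_step N hN (e s) (fun (b : ℕ) (ω : ι → Fin N) =>
            (if hit v (fun x => (ω (e x) : ℕ)) (s - 1 - v - (b : ℤ)) then (1 : ℝ) else 0) *
            (if hit w (fun x => (ω (e x) : ℕ)) (s - 1 - w - (b : ℤ)) then (1 : ℝ) else 0)) (by
              intro b ω c
              show _ * _ = _ * _
              rw [Ex_hit2_upd N e W he v s (s - 1 - v - (b : ℤ)) (by omega) hs (by omega) ω c,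
                Ex_hit2_upd N e W he w s (s - 1 - w - (b : ℤ)) (by omega) hs (by omega) ω c])
          rw [P_diag v w N h0]
          have h1 : (fun ω : ι → Fin N =>
              (if hit v (fun x => (ω (e x) : ℕ)) s then (1 : ℝ) else 0) *
              (if hit w (fun x => (ω (e x) : ℕ)) s then (1 : ℝ) else 0)) =
              (fun ω : ι → Fin N =>
              (if hit v (fun x => (ω (e x) : ℕ)) (s - 1 - v - ((ω (e s) : ℕ) : ℤ))
                then (1 : ℝ) else 0) *
              (if hit w (fun x => (ω (e x) : ℕ)) (s - 1 - w - ((ω (e s) : ℕ) : ℤ))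
                then (1 : ℝ) else 0)) := by
            funext ω
            rw [Ex_hit2_pos N e w s h0 ω, Ex_hit2_pos N e v s h0 ω]
          rw [h1, key]
          congr 1
          apply sum_congr rfl
          intro b _
          exact ih ((s - 1 - v - (b : ℤ)).toNat + (s - 1 - w - (b : ℤ)).toNat) (by omega)
            (s - 1 - v - (b : ℤ)) (s - 1 - w - (b : ℤ)) (by omega) (by omega) rfl
      · -- `t < s`
        have key := Ex_step N hN (e s) (fun (b : ℕ) (ω : ι → Fin N) =>
          (if hit v (fun x => (ω (e x) : ℕ)) (s - 1 - v - (b : ℤ)) then (1 : ℝ) else 0) *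
          (if hit w (fun x => (ω (e x) : ℕ)) t then (1 : ℝ) else 0)) (by
            intro b ω c
            show _ * _ = _ * _
            rw [Ex_hit2_upd N e W he w s t (by omega) hs h ω c,
              Ex_hit2_upd N e W he v s (s - 1 - v - (b : ℤ)) (by omega) hs (by omega) ω c])
        rw [P_left v w N h ht0]
        have h1 : (fun ω : ι → Fin N =>
            (if hit v (fun x => (ω (e x) : ℕ)) s then (1 : ℝ) else 0) *
            (if hit w (fun x => (ω (e x) : ℕ)) t then (1 : ℝ) else 0)) =
            (fun ω : ι → Fin N =>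
            (if hit v (fun x => (ω (e x) : ℕ)) (s - 1 - v - ((ω (e s) : ℕ) : ℤ))
              then (1 : ℝ) else 0) *
            (if hit w (fun x => (ω (e x) : ℕ)) t then (1 : ℝ) else 0)) := by
          funext ω
          rw [Ex_hit2_pos N e v s (by omega) ω]
        rw [h1, key]
        congr 1
        apply sum_congr rfl
        intro b _
        exact ih ((s - 1 - v - (b : ℤ)).toNat + t.toNat) (by omega) (s - 1 - v - (b : ℤ)) t
          (by omega) ht rfl
  exact main _ s t hs ht rfl

end SC4
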