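import Pool.Agent.Helper4.SC.ExB

/-!
# SC-14c: the probability of meeting

`e : ℤ → ι` is injective on `[1, W]`; the environment of `ω : ι → Fin N` is `g x = ω (e x)`.

`meet_congr`: strong induction along the definition of `meet` (`meet_out`, `meet_diag`, `meet_left`,
`meet_right`); with `c ≥ 1` only sites in `[c, max s t]` are used.

`Ex_meet`: strong induction on `(s-c).toNat + (t-c).toNat` along the definition of `Q` (`Q_out`,
`Q_diag`, `Q_left`, `Q_right`). `s < c` or `t < c`: the value is constantly `1` (`Ex_const`);
`s = t ≥ c`: constantly `0`; `c ≤ t < s`: by `meet_left` the function is `Y (ω (e s)) ω` with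
`Y b ω = [not meet c v g (s-1-v-b) t]`, independent of the coordinate `e s` (`meet_congr`: sites
`< s`), `Ex_step`; `c ≤ s < t`: the coordinate `e t`.
-/

set_option autoImplicit false

namespace SC4

open Finset Classical

lemma meet_congr (c : ℤ) (hc : 1 ≤ c) (v : ℕ) (g g' : ℤ → ℕ) (s t : ℤ)
    (h : ∀ x : ℤ, 1 ≤ x → x ≤ max s t → g x = g' x) :
    meet c v g s t ↔ meet c v g' s t := by
  obtain ⟨n, hn⟩ : ∃ n, n = (s - c).toNat + (t - c).toNat := ⟨_, rfl⟩
  induction n using Nat.strong_induction_on generalizing s t with
  | _ n ih =>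
    rcases lt_or_ge s c with h1 | h1
    · exact iff_of_false (meet_out c v g (Or.inl h1)) (meet_out c v g' (Or.inl h1))
    rcases lt_or_ge t c with h2 | h2
    · exact iff_of_false (meet_out c v g (Or.inr h2)) (meet_out c v g' (Or.inr h2))
    rcases lt_trichotomy t s with h3 | h3 | h3
    · rw [meet_left c v g h3 h2, meet_left c v g' h3 h2, h s (by omega) (le_max_left _ _)]
      exact ih _ (by omega) _ _ (fun x hx1 hx2 => h x hx1 (by omega)) rfl
    · subst h3
      exact iff_of_true (meet_diag c v g h1) (meet_diag c v g' h1)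
    · rw [meet_right c v g h3 h1, meet_right c v g' h3 h1, h t (by omega) (le_max_right _ _)]
      exact ih _ (by omega) _ _ (fun x hx1 hx2 => h x hx1 (by omega)) rfl

variable {ι : Type} [Fintype ι] [DecidableEq ι]

lemma Ex_meet (N : ℕ) (hN : 0 < N) (e : ℤ → ι) (W : ℤ)
    (he : ∀ x y : ℤ, 1 ≤ x → x ≤ W → 1 ≤ y → y ≤ W → e x = e y → x = y) (c : ℤ) (hc : 1 ≤ c)
    (v : ℕ) (s t : ℤ) (hs : s ≤ W) (ht : t ≤ W) :
    Ex N (fun ω : ι → Fin N => if meet c v (fun x => (ω (e x) : ℕ)) s t then (0 : ℝ) else 1) =
      Q c v N s t := by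
  obtain ⟨n, hn⟩ : ∃ n, n = (s - c).toNat + (t - c).toNat := ⟨_, rfl⟩
  induction n using Nat.strong_induction_on generalizing s t with
  | _ n ih =>
    by_cases h0 : s < c ∨ t < c
    · have h1 : (fun ω : ι → Fin N =>
          if meet c v (fun x => (ω (e x) : ℕ)) s t then (0 : ℝ) else 1) = fun _ => 1 := by
        funext ω
        exact if_neg (meet_out _ _ _ h0)
      rw [h1, Ex_const N hN, Q_out c v N h0]
    have h1 : c ≤ s := by omega
    have h2 : c ≤ t := by omega
    rcases lt_trichotomy t s with h3 | h3 | h3
    · have hY := Ex_step N hN (e s)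
        (fun b (ω : ι → Fin N) =>
          if meet c v (fun x => (ω (e x) : ℕ)) (s - 1 - v - b) t then (0 : ℝ) else 1)
        (by
          intro b ω c'
          refine if_congr (meet_congr c hc v _ _ _ _ ?_) rfl rfl
          intro x hx1 hx2
          have hne : e x ≠ e s := fun he' => by
            have := he x s hx1 (by omega) (by omega) hs he'
            omega
          simp only [Function.update_of_ne hne])
      have h4 : (fun ω : ι → Fin N =>
          if meet c v (fun x => (ω (e x) : ℕ)) s t then (0 : ℝ) else 1) =
          fun ω => if meet c v (fun x => (ω (e x) : ℕ)) (s - 1 - v - (ω (e s) : ℕ)) t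
            then (0 : ℝ) else 1 := by
        funext ω
        exact if_congr (meet_left c v _ h3 h2) rfl rfl
      rw [h4, hY, Q_left c v N h3 h2]
      congr 1
      refine Finset.sum_congr rfl fun b _ => ?_
      exact ih _ (by omega) _ _ (by omega) ht rfl
    · subst h3
      have h4 : (fun ω : ι → Fin N =>
          if meet c v (fun x => (ω (e x) : ℕ)) t t then (0 : ℝ) else 1) = fun _ => 0 := by
        funext ω
        exact if_pos (meet_diag _ _ _ h1)
      rw [h4, Ex_const N hN, Q_diag c v N h1]
    · have hY := Ex_step N hN (e t)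
        (fun b (ω : ι → Fin N) =>
          if meet c v (fun x => (ω (e x) : ℕ)) s (t - 1 - v - b) then (0 : ℝ) else 1)
        (by
          intro b ω c'
          refine if_congr (meet_congr c hc v _ _ _ _ ?_) rfl rfl
          intro x hx1 hx2
          have hne : e x ≠ e t := fun he' => by
            have := he x t hx1 (by omega) (by omega) ht he'
            omega
          simp only [Function.update_of_ne hne])
      have h4 : (fun ω : ι → Fin N =>
          if meet c v (fun x => (ω (e x) : ℕ)) s t then (0 : ℝ) else 1) =
          fun ω => if meet c v (fun x => (ω (e x) : ℕ)) s (t - 1 - v - (ω (e t) : ℕ))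
            then (0 : ℝ) else 1 := by
        funext ω
        exact if_congr (meet_right c v _ h3 h1) rfl rfl
      rw [h4, hY, Q_right c v N h3 h1]
      congr 1
      refine Finset.sum_congr rfl fun b _ => ?_
      exact ih _ (by omega) _ _ hs (by omega) rfl

end SC4
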