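import Pool.Agent.Helper4.SC.ExB

/-!
# SC-13b: the second moment method

`second_moment`: `a j = Ex (X j)`, `X j` with values `0, 1`, `M = ∑_{j∈S} a j`. Expand
`Ex ((∑ X j - M)^2) = ∑_{j,j'} Ex(X j X j') - M^2 ≤ ∑_j a j + ∑_{j≠j'} (a j a j' + δ) - M^2
≤ M + |S|^2 δ` (`X j * X j = X j`; `∑_{j≠j'} a j a j' ≤ M^2`). Pointwise `M^2 * A ω ≤ (∑ X j ω - M)^2`:
if some `X j ω = 1` then `A ω ≤ 0`, otherwise the sum is `0` and `A ω ≤ 1`. Use `Ex_mono`, `Ex_sum`.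
-/

set_option autoImplicit false

namespace SC4

open Finset

variable {ι : Type} [Fintype ι] [DecidableEq ι]

private lemma exs_smul (N : ℕ) (c : ℝ) (X : (ι → Fin N) → ℝ) :
    Ex N (fun ω => c * X ω) = c * Ex N X := by
  unfold Ex
  rw [← Finset.mul_sum]
  ring

lemma second_moment (N : ℕ) (hN : 0 < N) {β : Type} [DecidableEq β] (S : Finset β)
    (X : β → (ι → Fin N) → ℝ) (hX : ∀ j ∈ S, ∀ ω, X j ω = 0 ∨ X j ω = 1) (δ : ℝ) (hδ : 0 ≤ δ)
    (hpair : ∀ j ∈ S, ∀ j' ∈ S, j ≠ j' → Ex N (fun ω => X j ω * X j' ω) ≤ Ex N (X j) * Ex N (X j') + δ)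
    (hM : 0 < ∑ j ∈ S, Ex N (X j)) (A : (ι → Fin N) → ℝ)
    (hA : ∀ ω, A ω ≤ 1) (hA2 : ∀ ω, (∃ j ∈ S, X j ω = 1) → A ω ≤ 0) :
    Ex N A ≤ (∑ j ∈ S, Ex N (X j) + (S.card : ℝ) ^ 2 * δ) / (∑ j ∈ S, Ex N (X j)) ^ 2 := by
  obtain ⟨M, hMd⟩ : ∃ M : ℝ, M = ∑ j ∈ S, Ex N (X j) := ⟨_, rfl⟩
  rw [← hMd] at hM ⊢
  rw [le_div_iff₀ (by positivity)]
  -- pointwise
  have hpt : ∀ ω, M ^ 2 * A ω ≤
      (∑ j ∈ S, ∑ j' ∈ S, X j ω * X j' ω) + ((-2 * M) * (∑ j ∈ S, X j ω) + M ^ 2) := by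
    intro ω
    have hsq : (∑ j ∈ S, ∑ j' ∈ S, X j ω * X j' ω) + ((-2 * M) * (∑ j ∈ S, X j ω) + M ^ 2) =
        (∑ j ∈ S, X j ω - M) ^ 2 := by
      rw [← Finset.sum_mul_sum]; ring
    rw [hsq]
    by_cases h : ∃ j ∈ S, X j ω = 1
    · have h1 := hA2 ω h
      have h2 : M ^ 2 * A ω ≤ 0 := mul_nonpos_of_nonneg_of_nonpos (by positivity) h1
      exact h2.trans (sq_nonneg _)
    · push Not at h
      have h0 : ∑ j ∈ S, X j ω = 0 := by
        apply Finset.sum_eq_zero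
        intro j hj
        rcases hX j hj ω with h1 | h1
        · exact h1
        · exact absurd h1 (h j hj)
      rw [h0]
      have h1 := hA ω
      nlinarith [sq_nonneg M]
  have hEx := Ex_mono N hpt
  rw [exs_smul, Ex_add N (fun ω => ∑ j ∈ S, ∑ j' ∈ S, X j ω * X j' ω)
    (fun ω => (-2 * M) * (∑ j ∈ S, X j ω) + M ^ 2),
    Ex_add N (fun ω => (-2 * M) * (∑ j ∈ S, X j ω)) (fun _ => M ^ 2), exs_smul,
    Ex_const N hN, Ex_sum N S X, ← hMd,
    Ex_sum N S (fun j ω => ∑ j' ∈ S, X j ω * X j' ω)] at hEx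
  have hin : ∀ j ∈ S, Ex N (fun ω => ∑ j' ∈ S, X j ω * X j' ω) ≤
      Ex N (X j) + (Ex N (X j) * M + (S.card : ℝ) * δ) := by
    intro j hj
    rw [Ex_sum N S (fun j' ω => X j ω * X j' ω)]
    have hterm : ∀ j' ∈ S, Ex N (fun ω => X j ω * X j' ω) ≤
        (if j' = j then Ex N (X j) else 0) + (Ex N (X j) * Ex N (X j') + δ) := by
      intro j' hj'
      have hnn : ∀ i ∈ S, 0 ≤ Ex N (X i) := by
        intro i hi
        have h0 := Ex_mono N (X := fun _ => (0 : ℝ)) (Y := X i) (fun ω => by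
          rcases hX i hi ω with h | h <;> rw [h] <;> norm_num)
        rwa [Ex_const N hN] at h0
      by_cases hjj : j' = j
      · subst hjj
        rw [if_pos rfl]
        have hid : (fun ω => X j' ω * X j' ω) = X j' := by
          funext ω
          rcases hX j' hj' ω with h | h <;> rw [h] <;> norm_num
        rw [hid]
        have := mul_nonneg (hnn j' hj') (hnn j' hj')
        linarith
      · rw [if_neg hjj, zero_add]
        exact hpair j hj j' hj' (Ne.symm hjj)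
    calc ∑ j' ∈ S, Ex N (fun ω => X j ω * X j' ω) ≤
        ∑ j' ∈ S, ((if j' = j then Ex N (X j) else 0) + (Ex N (X j) * Ex N (X j') + δ)) :=
          Finset.sum_le_sum hterm
      _ = Ex N (X j) + (Ex N (X j) * M + (S.card : ℝ) * δ) := by
          rw [Finset.sum_add_distrib, Finset.sum_add_distrib, Finset.sum_ite_eq' S j,
            if_pos hj, ← Finset.mul_sum, ← hMd, Finset.sum_const, nsmul_eq_mul]
  have htot : ∑ j ∈ S, Ex N (fun ω => ∑ j' ∈ S, X j ω * X j' ω) ≤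
      M + (M * M + (S.card : ℝ) * ((S.card : ℝ) * δ)) := by
    calc _ ≤ ∑ j ∈ S, (Ex N (X j) + (Ex N (X j) * M + (S.card : ℝ) * δ)) :=
          Finset.sum_le_sum hin
      _ = _ := by
          rw [Finset.sum_add_distrib, Finset.sum_add_distrib, ← Finset.sum_mul, ← hMd,
            Finset.sum_const, nsmul_eq_mul]
  nlinarith

end SC4
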