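import Pool.Agent.Helper4.SC.Hle

/-!
# SC-3: the binomial expansion of `H`

`N = 2 * B`; `Au v B g x = (1/B) ∑_{b<B} g (x - 1 - v - b)`. Write `G n = (Au v B)^[n] (H v N)`.
For `x > 0`: `H x = (1/N) ∑_{b<2B} H(x-1-v-b) = (Au H x + Au H (x - B)) / 2`.

`iter_le`: `G n x` is an average of values `H (x - m)` with `m ≤ n (v + B) ≤ n R < x`; induction on
`n`: `G (n+1) x = Au (G n) x`, the points `x-1-v-b ≥ x - v - B ≥ x - R`.
-/

set_option autoImplicit false

namespace SC4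

open Finset

lemma iter_nonneg (v B n : ℕ) (x : ℤ) : 0 ≤ ((Au v B)^[n] (H v (2 * B))) x := by
  induction n generalizing x with
  | zero => exact H_nonneg v (2 * B) x
  | succ n ih =>
    rw [Function.iterate_succ_apply']
    unfold Au
    exact div_nonneg (sum_nonneg fun b _ => ih _) (Nat.cast_nonneg _)

lemma iter_le (v B : ℕ) (hB : 0 < B) (R : ℤ) (hR : (v : ℤ) + 2 * B ≤ R) (n : ℕ) (x : ℤ)
    (hx : (n : ℤ) * R < x) :
    ((Au v B)^[n] (H v (2 * B))) x ≤ 4 / ((2 * B : ℕ) : ℝ) := by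
  induction n generalizing x with
  | zero =>
    refine H_le v B hB ?_
    simpa using hx
  | succ n ih =>
    rw [Function.iterate_succ_apply']
    have hB' : (0 : ℝ) < (B : ℝ) := by exact_mod_cast hB
    have key : ∀ b ∈ range B, ((Au v B)^[n] (H v (2 * B))) (x - 1 - v - b)
        ≤ 4 / ((2 * B : ℕ) : ℝ) := by
      intro b hb
      have hb' : (b : ℤ) < (B : ℤ) := by exact_mod_cast mem_range.mp hb
      apply ih
      push_cast at hx
      have e : ((n : ℤ) + 1) * R = (n : ℤ) * R + R := by ring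
      rw [e] at hx
      linarith [hx, hR, hb', (Nat.cast_nonneg B : (0 : ℤ) ≤ (B : ℤ)), Int.add_one_le_iff.mpr hb']
    show (∑ b ∈ range B, ((Au v B)^[n] (H v (2 * B))) (x - 1 - v - b)) / (B : ℝ) ≤ _
    rw [div_le_iff₀ hB']
    calc ∑ b ∈ range B, ((Au v B)^[n] (H v (2 * B))) (x - 1 - v - b)
        ≤ ∑ _b ∈ range B, 4 / ((2 * B : ℕ) : ℝ) := sum_le_sum key
      _ = 4 / ((2 * B : ℕ) : ℝ) * (B : ℝ) := by
          rw [sum_const, card_range, nsmul_eq_mul, mul_comm]

end SC4
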