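import Pool.Agent.Helper4.SC.Expd

/-!
# SC-3b: the binomial expansion of `H`

`N = 2 * B`; `Au v B g x = (1/B) ∑_{b<B} g (x - 1 - v - b)`. Write `G n = (Au v B)^[n] (H v N)`.
For `x > 0`: `H x = (1/N) ∑_{b<2B} H(x-1-v-b) = (Au H x + Au H (x - B)) / 2`.

`expand`: induction on `n`. `n = 0` is trivial. Step, `x > (n+1) R`: by `H_rec`,
`H x = (1/2B) ∑_{b<2B} H (x-1-v-b)`, every point `x-1-v-b ≥ x - v - 2B ≥ x - R > n R`, expand each
by the induction hypothesis and exchange the sums: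
`H x = ∑_j c_j (1/2) (Au (G n) (x - j B) + Au (G n) (x - (j+1) B))`, `Au (G n) = G (n+1)`
(`Function.iterate_succ_apply'`), and Pascal's rule `C(n+1,j) = C(n,j) + C(n,j-1)`.

-/

set_option autoImplicit false

namespace SC4

open Finset

private lemma expand_pascal (n : ℕ) (f : ℕ → ℝ) :
    ∑ j ∈ range (n + 2), ((n + 1).choose j : ℝ) * f j =
      ∑ j ∈ range (n + 1), (n.choose j : ℝ) * (f j + f (j + 1)) := by
  have h1 : ∑ j ∈ range (n + 2), (n.choose j : ℝ) * f j =
      ∑ j ∈ range (n + 1), (n.choose j : ℝ) * f j := by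
    rw [sum_range_succ, Nat.choose_succ_self, Nat.cast_zero, zero_mul, add_zero]
  have h2 : ∑ j ∈ range (n + 2), (n.choose j : ℝ) * f j =
      ∑ j ∈ range (n + 1), (n.choose (j + 1) : ℝ) * f (j + 1) + f 0 := by
    rw [sum_range_succ', Nat.choose_zero_right, Nat.cast_one, one_mul]
  rw [sum_range_succ', Nat.choose_zero_right, Nat.cast_one, one_mul]
  have h3 : ∀ j ∈ range (n + 1), ((n + 1).choose (j + 1) : ℝ) * f (j + 1) =
      (n.choose j : ℝ) * f (j + 1) + (n.choose (j + 1) : ℝ) * f (j + 1) := by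
    intro j _
    rw [Nat.choose_succ_succ, Nat.cast_add, add_mul]
  rw [sum_congr rfl h3, sum_add_distrib, add_assoc, ← h2, h1, ← sum_add_distrib]
  refine sum_congr rfl fun j _ => ?_
  ring

private lemma expand_Au (v B : ℕ) (hB : 0 < B) (g : ℤ → ℝ) (x : ℤ) :
    (∑ b ∈ range (2 * B), g (x - 1 - v - b)) / ((2 * B : ℕ) : ℝ) =
      (Au v B g x + Au v B g (x - B)) / 2 := by
  have hB' : (B : ℝ) ≠ 0 := by exact_mod_cast hB.ne'
  have h1 : ∑ b ∈ range (2 * B), g (x - 1 - v - b) =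
      ∑ b ∈ range B, g (x - 1 - v - b) + ∑ b ∈ range B, g (x - B - 1 - v - b) := by
    rw [two_mul, sum_range_add]
    congr 1
    refine sum_congr rfl fun b _ => ?_
    congr 1
    push_cast
    ring
  unfold Au
  rw [h1]
  push_cast
  field_simp

lemma expand (v B : ℕ) (hB : 0 < B) (R : ℤ) (hR : (v : ℤ) + 2 * B ≤ R) (n : ℕ) (x : ℤ)
    (hx : (n : ℤ) * R < x) :
    H v (2 * B) x = ∑ j ∈ range (n + 1),
      ((n.choose j : ℝ) / 2 ^ n) * ((Au v B)^[n] (H v (2 * B))) (x - (j : ℤ) * B) := by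
  induction n generalizing x with
  | zero =>
    rw [sum_range_one]
    simp
  | succ n ih =>
    have hR0 : (0 : ℤ) ≤ R := by
      have h1 : (0 : ℤ) ≤ (v : ℤ) := Nat.cast_nonneg v
      have h2 : (0 : ℤ) ≤ (B : ℤ) := Nat.cast_nonneg B
      linarith
    have e : (((n + 1 : ℕ) : ℤ)) * R = (n : ℤ) * R + R := by
      push_cast
      ring
    rw [e] at hx
    have hn0 : (0 : ℤ) ≤ (n : ℤ) * R := mul_nonneg (Nat.cast_nonneg n) hR0
    have hx0 : 0 < x := by linarith
    have key : ∀ b ∈ range (2 * B), H v (2 * B) (x - 1 - v - b) =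
        ∑ j ∈ range (n + 1), ((n.choose j : ℝ) / 2 ^ n) *
          ((Au v B)^[n] (H v (2 * B))) (x - 1 - v - b - (j : ℤ) * B) := by
      intro b hb
      have hb' : (b : ℤ) < 2 * (B : ℤ) := by exact_mod_cast mem_range.mp hb
      apply ih
      linarith [Int.add_one_le_iff.mpr hb']
    rw [H_rec v (2 * B) hx0, sum_congr rfl key, sum_comm, sum_div]
    have h2 : ∀ j ∈ range (n + 1), (∑ b ∈ range (2 * B), ((n.choose j : ℝ) / 2 ^ n) *
          ((Au v B)^[n] (H v (2 * B))) (x - 1 - v - b - (j : ℤ) * B)) / ((2 * B : ℕ) : ℝ) =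
        (1 / 2 ^ (n + 1)) * ((n.choose j : ℝ) *
          (((Au v B)^[n + 1] (H v (2 * B))) (x - (j : ℤ) * B) +
            ((Au v B)^[n + 1] (H v (2 * B))) (x - ((j + 1 : ℕ) : ℤ) * B))) := by
      intro j _
      have h3 : ∀ b ∈ range (2 * B), ((n.choose j : ℝ) / 2 ^ n) *
          ((Au v B)^[n] (H v (2 * B))) (x - 1 - v - b - (j : ℤ) * B) =
          ((n.choose j : ℝ) / 2 ^ n) *
          ((Au v B)^[n] (H v (2 * B))) (x - (j : ℤ) * B - 1 - v - b) := by
        intro b _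
        congr 2
        ring_nf
      rw [sum_congr rfl h3, ← mul_sum, mul_div_assoc, expand_Au v B hB,
        ← Function.iterate_succ_apply' (Au v B) n]
      have e2 : x - (j : ℤ) * B - B = x - ((j + 1 : ℕ) : ℤ) * B := by
        push_cast
        ring
      rw [e2, pow_succ]
      ring
    rw [sum_congr rfl h2, ← mul_sum,
      ← expand_pascal n (fun j => ((Au v B)^[n + 1] (H v (2 * B))) (x - (j : ℤ) * B)), mul_sum]
    refine sum_congr rfl fun j _ => ?_
    ring

end SC4
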