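import Pool.Agent.Helper4.SC.Expe
import Pool.Agent.Helper4.SC.Bin

/-!
# SC-5: the gradient bound

`N = 2 * B`, `v + N ≤ R`.

`diff_B`: `n = 2 q`, `x - B > n R` and `x - (n+1) B > n R` (this is the hypothesis). By `expand` for
`x` and `x - B`: `H x - H (x-B) = 2^{-n} ∑_j C(n,j) (g j - g (j+1))`, `g j = G n (x - j B)`, where
`0 ≤ g j ≤ 4/N` for `j ≤ n + 1` by `iter_nonneg`, `iter_le`. Apply `binom_diff` (`2q/2 = q`,
`2^(2q) = 4^q`) and `central`.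

`grad`: let `u = (z / R)` (integer division, `u ≥ 16`) and `q = (u - 3) / 3` (natural numbers), so
that `(3q+2) R ≤ (u-1) R < z`. By `H_rec` at `z` and at `z - 1`,
`H z - H (z-1) = (1/N) (H y - H (y - N))`, `y = z - 1 - v`, and
`H y - H (y - 2B) = (H y - H (y-B)) + (H (y-B) - H (y-2B))`; both are bounded by `diff_B`: with
`x = y` or `x = y - B` one has `x - (n+1) B ≥ z - 1 - v - (n+2) B > n R` because `v + 1 ≤ R`,
`2 B ≤ R` and `z > (3q+2) R`, `n = 2q`. So `|H z - H (z-1)| ≤ (1/N) * 2 * (4/N) / √(2q+1)`, and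
`2q+1 ≥ (2u-7)/3 ≥ (u+1)/4 ≥ z/(4R)`, so `1/√(2q+1) ≤ 2 √(R/z)`.
-/

set_option autoImplicit false

namespace SC4

open Finset

lemma diff_B (v B : ℕ) (hB : 0 < B) (R : ℤ) (hR : (v : ℤ) + 2 * B ≤ R) (q : ℕ) (x : ℤ)
    (hx : (2 * (q : ℤ)) * R < x - (2 * q + 1) * B) :
    |H v (2 * B) x - H v (2 * B) (x - B)| ≤ 4 / ((2 * B : ℕ) : ℝ) / Real.sqrt (2 * q + 1) := by
  have hB0 : (0 : ℤ) ≤ (B : ℤ) := Nat.cast_nonneg B
  have hq0 : (0 : ℤ) ≤ (q : ℤ) := Nat.cast_nonneg q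
  have hqB : (0 : ℤ) ≤ (q : ℤ) * B := mul_nonneg hq0 hB0
  have e0 : (((2 * q : ℕ) : ℤ)) = 2 * (q : ℤ) := by push_cast; ring
  have h1 : (((2 * q : ℕ) : ℤ)) * R < x := by
    rw [e0]; nlinarith
  have h2 : (((2 * q : ℕ) : ℤ)) * R < x - B := by
    rw [e0]; nlinarith
  obtain ⟨g, hg⟩ : ∃ g : ℕ → ℝ, g = fun j : ℕ =>
      ((Au v B)^[2 * q] (H v (2 * B))) (x - (j : ℤ) * B) := ⟨_, rfl⟩
  have hgb : ∀ j, j ≤ 2 * q + 1 → 0 ≤ g j ∧ g j ≤ 4 / ((2 * B : ℕ) : ℝ) := by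
    intro j hj
    rw [hg]
    refine ⟨iter_nonneg v B (2 * q) _, iter_le v B hB R hR (2 * q) _ ?_⟩
    rw [e0]
    have hj' : (j : ℤ) ≤ 2 * q + 1 := by exact_mod_cast hj
    have : (j : ℤ) * B ≤ (2 * q + 1) * B := mul_le_mul_of_nonneg_right hj' hB0
    linarith
  have a1 := expand v B hB R hR (2 * q) x h1
  have a2 := expand v B hB R hR (2 * q) (x - B) h2
  have a3 : H v (2 * B) x - H v (2 * B) (x - B) =
      (1 / 2 ^ (2 * q)) * ∑ j ∈ range (2 * q + 1), ((2 * q).choose j : ℝ) * (g j - g (j + 1)) := by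
    rw [a1, a2, ← sum_sub_distrib, mul_sum]
    refine sum_congr rfl fun j _ => ?_
    rw [hg]
    have e1 : x - B - (j : ℤ) * B = x - ((j + 1 : ℕ) : ℤ) * B := by push_cast; ring
    rw [e1]
    ring
  have b1 := binom_diff (2 * q) g (4 / ((2 * B : ℕ) : ℝ)) hgb
  have b2 := central q
  have e2 : 2 * q / 2 = q := by omega
  rw [e2] at b1
  have hM : (0 : ℝ) ≤ 4 / ((2 * B : ℕ) : ℝ) := by positivity
  rw [a3, abs_mul, abs_of_nonneg (by positivity : (0 : ℝ) ≤ 1 / 2 ^ (2 * q))]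
  have e3 : (2 : ℝ) ^ (2 * q) = 4 ^ q := by rw [pow_mul]; norm_num
  rw [e3]
  calc 1 / (4 : ℝ) ^ q * |∑ j ∈ range (2 * q + 1), ((2 * q).choose j : ℝ) * (g j - g (j + 1))|
      ≤ 1 / (4 : ℝ) ^ q * (((2 * q).choose q : ℝ) * (4 / ((2 * B : ℕ) : ℝ))) :=
        mul_le_mul_of_nonneg_left b1 (by positivity)
    _ = (((2 * q).choose q : ℕ) : ℝ) / 4 ^ q * (4 / ((2 * B : ℕ) : ℝ)) := by ring
    _ ≤ 1 / Real.sqrt (2 * q + 1) * (4 / ((2 * B : ℕ) : ℝ)) := mul_le_mul_of_nonneg_right b2 hM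
    _ = 4 / ((2 * B : ℕ) : ℝ) / Real.sqrt (2 * q + 1) := by ring

private lemma grad_tel (v N : ℕ) (z : ℤ) (n : ℕ) :
    ∑ b ∈ range n, H v N (z - 1 - v - b) - ∑ b ∈ range n, H v N (z - 1 - 1 - v - b) =
      H v N (z - 1 - v) - H v N (z - 1 - v - n) := by
  induction n with
  | zero => simp
  | succ n ih =>
    rw [sum_range_succ, sum_range_succ]
    have e : z - 1 - 1 - v - (n : ℤ) = z - 1 - v - ((n + 1 : ℕ) : ℤ) := by push_cast; ring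
    rw [← e]
    linarith

lemma grad (v B : ℕ) (hB : 0 < B) (R : ℕ) (hR : v + 2 * B ≤ R) (z : ℤ) (hz : 16 * (R : ℤ) ≤ z) :
    |H v (2 * B) z - H v (2 * B) (z - 1)| ≤
      16 / ((2 * B : ℕ) : ℝ) ^ 2 * Real.sqrt ((R : ℝ) / (z : ℝ)) := by
  have hR' : (v : ℤ) + 2 * B ≤ (R : ℤ) := by exact_mod_cast hR
  have hv0 : (0 : ℤ) ≤ (v : ℤ) := Nat.cast_nonneg v
  have hB1 : (1 : ℤ) ≤ (B : ℤ) := by exact_mod_cast hB
  have hRp : (2 : ℤ) ≤ (R : ℤ) := by linarith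
  have hz0 : (0 : ℤ) < z := by linarith
  obtain ⟨u, hu⟩ : ∃ u : ℤ, u = z / (R : ℤ) := ⟨_, rfl⟩
  have hu1 : u * (R : ℤ) ≤ z := by rw [hu]; exact Int.ediv_mul_le z (by omega)
  have hu2 : z < (u + 1) * (R : ℤ) := by
    rw [hu]; exact Int.lt_ediv_add_one_mul_self z (by omega)
  have hu16 : 16 ≤ u := by
    rw [hu]; exact (Int.le_ediv_iff_mul_le (by omega)).2 hz
  obtain ⟨q, hq1, hq2⟩ : ∃ q : ℕ, 3 * (q : ℤ) + 3 ≤ u ∧ u ≤ 3 * (q : ℤ) + 5 :=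
    ⟨((u - 3) / 3).toNat, by omega, by omega⟩
  have hq0 : (4 : ℤ) ≤ (q : ℤ) := by omega
  obtain ⟨y, hy⟩ : ∃ y : ℤ, y = z - 1 - v := ⟨_, rfl⟩
  have hzR : (3 * (q : ℤ) + 3) * R ≤ z := by
    refine le_trans ?_ hu1
    exact mul_le_mul_of_nonneg_right hq1 (by omega)
  have c2 : (2 * (q : ℤ)) * R < (y - B) - (2 * q + 1) * B := by
    have h3 : ((q : ℤ) + 1) * (2 * B) ≤ ((q : ℤ) + 1) * (R - v) :=
      mul_le_mul_of_nonneg_left (by linarith) (by omega)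
    have h4 : (0 : ℤ) ≤ (q : ℤ) * v := mul_nonneg (by omega) hv0
    rw [hy]
    nlinarith
  have c1 : (2 * (q : ℤ)) * R < y - (2 * q + 1) * B := by linarith
  have d1 := diff_B v B hB R hR' q y c1
  have d2 := diff_B v B hB R hR' q (y - B) c2
  have e1 : y - B - (B : ℤ) = z - 1 - v - ((2 * B : ℕ) : ℤ) := by rw [hy]; push_cast; ring
  rw [e1] at d2
  have hz1 : 0 < z - 1 := by linarith
  have f1 : H v (2 * B) z - H v (2 * B) (z - 1) =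
      (H v (2 * B) y - H v (2 * B) (z - 1 - v - ((2 * B : ℕ) : ℤ))) / ((2 * B : ℕ) : ℝ) := by
    rw [H_rec v (2 * B) hz0, H_rec v (2 * B) hz1, ← sub_div, grad_tel, hy]
  have hN : (0 : ℝ) < ((2 * B : ℕ) : ℝ) := by exact_mod_cast (by omega : 0 < 2 * B)
  have g1 : |H v (2 * B) y - H v (2 * B) (z - 1 - v - ((2 * B : ℕ) : ℤ))| ≤
      2 * (4 / ((2 * B : ℕ) : ℝ) / Real.sqrt (2 * q + 1)) := by
    have := abs_sub_le (H v (2 * B) y) (H v (2 * B) (y - B))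
      (H v (2 * B) (z - 1 - v - ((2 * B : ℕ) : ℤ)))
    linarith
  have hs : 1 / Real.sqrt (2 * q + 1) ≤ 2 * Real.sqrt ((R : ℝ) / (z : ℝ)) := by
    have hzr : (0 : ℝ) < (z : ℝ) := by exact_mod_cast hz0
    have h5 : (z : ℝ) ≤ 4 * (2 * q + 1) * R := by
      have : z ≤ 4 * (2 * (q : ℤ) + 1) * R := by
        refine le_trans hu2.le ?_
        exact mul_le_mul_of_nonneg_right (by omega) (by omega)
      exact_mod_cast this
    have h6 : (0 : ℝ) < 2 * (q : ℝ) + 1 := by positivity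
    have h7 : 2 * Real.sqrt ((R : ℝ) / (z : ℝ)) = Real.sqrt (4 * ((R : ℝ) / (z : ℝ))) := by
      rw [Real.sqrt_mul (by norm_num), show (4 : ℝ) = 2 ^ 2 by norm_num,
        Real.sqrt_sq (by norm_num)]
    have h8 : 1 / Real.sqrt (2 * q + 1) = Real.sqrt (1 / (2 * q + 1)) := by
      rw [Real.sqrt_div (by norm_num), Real.sqrt_one]
    rw [h7, h8]
    apply Real.sqrt_le_sqrt
    rw [← mul_div_assoc, div_le_div_iff₀ h6 hzr]
    linarith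
  rw [f1, abs_div, abs_of_pos hN, div_le_iff₀ hN]
  refine g1.trans ?_
  have h9 : 2 * (4 / ((2 * B : ℕ) : ℝ) / Real.sqrt (2 * q + 1)) =
      8 / ((2 * B : ℕ) : ℝ) * (1 / Real.sqrt (2 * q + 1)) := by ring
  rw [h9]
  have h10 : 16 / ((2 * B : ℕ) : ℝ) ^ 2 * Real.sqrt ((R : ℝ) / (z : ℝ)) * ((2 * B : ℕ) : ℝ) =
      8 / ((2 * B : ℕ) : ℝ) * (2 * Real.sqrt ((R : ℝ) / (z : ℝ))) := by
    field_simp
    ring
  rw [h10]
  exact mul_le_mul_of_nonneg_left hs (by positivity)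

end SC4
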