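import Pool.Agent.Helper4.SC.Ren

/-!
# SC-2: the upper bound `H ≤ 4 / N`

`N = 2 * B`. Put `x = z - 1 - v`. By `H_rec`, `H z = (1/N) * ∑_{b<N} H(x - b)`. Claim: for every
integer `x`, `∑_{b<B} H(x - b) ≤ 2`. If `x < 0` it is `0`. Otherwise use `renewal` at `x + v ≥ 0`:
the terms `i = v + b`, `b < B`, have weight `(N - b)/N ≥ 1/2`, all terms are nonnegative, so
`(1/2) ∑_{b<B} H(x - b) ≤ 1`. Hence `∑_{b<2B} H(x-b) ≤ 4` (second half: the claim for `x - B`).
`H_le_one`: strong induction, an average of numbers in `[0,1]`.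
-/

set_option autoImplicit false

namespace SC4

open Finset

private lemma hN_le_one (v N s : ℕ) : hN v N s ≤ 1 := by
  induction s using Nat.strong_induction_on with
  | _ s ih =>
    cases s with
    | zero => rw [hN]
    | succ s =>
      rw [hN]
      rcases Nat.eq_zero_or_pos N with h0 | h0
      · subst h0
        simp
      rw [div_le_one (by exact_mod_cast h0)]
      calc ∑ b ∈ range N, (if v + b ≤ s then hN v N (s - (v + b)) else 0) ≤
            ∑ _b ∈ range N, (1 : ℝ) := by
            refine sum_le_sum fun b _ => ?_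
            split_ifs with hb
            · exact ih _ (by omega)
            · exact zero_le_one
        _ = N := by simp

lemma H_le_one (v N : ℕ) (z : ℤ) : H v N z ≤ 1 := by
  unfold H
  split_ifs
  · exact zero_le_one
  · exact hN_le_one _ _ _

lemma half_block (v B : ℕ) (hB : 0 < B) (x : ℤ) : ∑ b ∈ range B, H v (2 * B) (x - b) ≤ 2 := by
  rcases lt_or_ge x 0 with hx | hx
  · rw [sum_eq_zero fun b _ => H_neg v (2 * B) (by omega)]
    norm_num
  have hB' : (0 : ℝ) < B := by exact_mod_cast hB
  have hr := renewal v (2 * B) (by omega) (z := x + v) (by omega)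
  have h1 : ∑ b ∈ range B, (1 / 2 : ℝ) * H v (2 * B) (x - b) ≤
      ∑ i ∈ range (v + 2 * B), wt v (2 * B) i * H v (2 * B) (x + v - i) := by
    have h2 : ∑ b ∈ range B, (1 / 2 : ℝ) * H v (2 * B) (x - b) ≤
        ∑ b ∈ range B, wt v (2 * B) (v + b) * H v (2 * B) (x + v - ((v + b : ℕ) : ℤ)) := by
      refine sum_le_sum fun b hb => ?_
      have hb' := mem_range.1 hb
      have e : x + v - ((v + b : ℕ) : ℤ) = x - b := by push_cast; ring
      rw [e]
      refine mul_le_mul_of_nonneg_right ?_ (H_nonneg _ _ _)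
      unfold wt
      rw [Nat.add_sub_cancel_left, le_div_iff₀ (by positivity), Nat.cast_sub (by omega)]
      push_cast
      have : (b : ℝ) ≤ B := by exact_mod_cast hb'.le
      linarith
    refine h2.trans ?_
    rw [← sum_image (f := fun i : ℕ => wt v (2 * B) i * H v (2 * B) (x + v - (i : ℤ)))
      (g := fun b : ℕ => v + b) (fun a _ b _ h => by simpa using h)]
    refine sum_le_sum_of_subset_of_nonneg ?_ ?_
    · intro i hi
      rw [mem_image] at hi
      obtain ⟨b, hb, rfl⟩ := hi
      have := mem_range.1 hb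
      exact mem_range.2 (by omega)
    · intro i _ _
      exact mul_nonneg (wt_nonneg _ _ _) (H_nonneg _ _ _)
  rw [hr, ← mul_sum] at h1
  linarith

lemma H_le (v B : ℕ) (hB : 0 < B) {z : ℤ} (hz : 0 < z) :
    H v (2 * B) z ≤ 4 / ((2 * B : ℕ) : ℝ) := by
  have hB' : (0 : ℝ) < B := by exact_mod_cast hB
  rw [H_rec v (2 * B) hz]
  have h1 : ∑ b ∈ range (2 * B), H v (2 * B) (z - 1 - v - b) ≤ 4 := by
    rw [two_mul, sum_range_add]
    have h2 := half_block v B hB (z - 1 - v)
    have h3 := half_block v B hB (z - 1 - v - B)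
    have e : ∀ b : ℕ, z - 1 - v - ((B + b : ℕ) : ℤ) = z - 1 - v - B - b := by
      intro b; push_cast; ring
    simp only [e]
    rw [← two_mul]
    linarith
  gcongr

end SC4
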