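import Pool.Agent.Helper4.SC.Near

/-!
# SC-10: bounds for the covariance `kap`

`N = 2 B`.

`kap_near` (`v ≠ w`, `z > 0`): `X_b = H_v(z-1-v-b)`, `Y_b = H_w(z-1-w-b)`. `X_b ≤ 4/N` except when
`z-1-v-b = 0`, then `X_b = 1`; similarly `Y_b`; since `v ≠ w` not both are `1` for the same `b`. So
`∑_b X_b Y_b ≤ N * (4/N)^2 + 2 * (4/N) = 24/N`, and `0 ≤ H_v(z) H_w(z) ≤ 16/N^2`.

`kap_far` (`v + N, w + N ≤ R`, `z ≥ 64 R`): let `y = z-1-v ≥ z - R ≥ max(32 R, z/2)`, `x0 = H_v y`;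
by `diff_le`, `|X_b - x0| ≤ b * 32/N^2 * √(R/y) ≤ (64/N) √(R/z)` (`√(R/y) ≤ √2 √(R/z)`). Similarly
`y0`. By `H_rec`, `H_v z = avg X_b`, `H_w z = avg Y_b`, so
`kap = avg((X_b-x0)(Y_b-y0)) - (avg X_b - x0)(avg Y_b - y0)`, at most `2 * (64/N)^2 * R/z`.

`kap_sum`: the terms with `i + 1 < 64 R` (at most `64 R` of them) by `kap_near`, the others by
`kap_far`; `∑_{i<W} 1/(i+1) ≤ 1 + log W` (`harmonic_le_one_add_log`); `1536 + 8192 ≤ 10000`.
-/

set_option autoImplicit false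

namespace SC4

open Finset

private lemma kap10_le (v B : ℕ) (hB : 0 < B) (a : ℤ) :
    H v (2 * B) a ≤ 4 / ((2 * B : ℕ) : ℝ) + if a = 0 then 1 else 0 := by
  have hN : (0 : ℝ) < ((2 * B : ℕ) : ℝ) := by exact_mod_cast (by omega : 0 < 2 * B)
  have h4 : 0 < 4 / ((2 * B : ℕ) : ℝ) := by positivity
  rcases lt_trichotomy a 0 with h | h | h
  · rw [H_neg _ _ h, if_neg h.ne]
    linarith
  · rw [h, H_zero, if_pos rfl]
    linarith
  · rw [if_neg h.ne', add_zero]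
    exact H_le v B hB h

private lemma kap10_one (N : ℕ) (c : ℤ) :
    ∑ b ∈ range N, (if c - (b : ℤ) = 0 then (1 : ℝ) else 0) ≤ 1 := by
  rw [Finset.sum_boole]
  have : ((range N).filter fun b : ℕ => c - (b : ℤ) = 0).card ≤ 1 := by
    rw [Finset.card_le_one]
    intro a ha b hb
    have h1 := (Finset.mem_filter.1 ha).2
    have h2 := (Finset.mem_filter.1 hb).2
    omega
  exact_mod_cast this

lemma kap_near (v w B : ℕ) (hB : 0 < B) (hvw : v ≠ w) {z : ℤ} (hz : 0 < z) :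
    |kap v w (2 * B) z| ≤ 24 / ((2 * B : ℕ) : ℝ) ^ 2 := by
  obtain ⟨N, hN⟩ : ∃ N : ℝ, N = ((2 * B : ℕ) : ℝ) := ⟨_, rfl⟩
  have hN0 : 0 < N := by rw [hN]; exact_mod_cast (by omega : 0 < 2 * B)
  have h4 : 0 < 4 / N := by positivity
  have hv := H_le v B hB hz
  have hw := H_le w B hB hz
  have hv0 := H_nonneg v (2 * B) z
  have hw0 := H_nonneg w (2 * B) z
  rw [← hN] at hv hw ⊢
  have key : ∀ b : ℕ, H v (2 * B) (z - 1 - v - b) * H w (2 * B) (z - 1 - w - b) ≤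
      4 / N * (4 / N) + 4 / N * (if (z - 1 - v) - (b : ℤ) = 0 then (1 : ℝ) else 0) +
        4 / N * (if (z - 1 - w) - (b : ℤ) = 0 then (1 : ℝ) else 0) := by
    intro b
    have h1 := kap10_le v B hB (z - 1 - v - b)
    have h2 := kap10_le w B hB (z - 1 - w - b)
    have h3 := H_nonneg v (2 * B) (z - 1 - v - b)
    have h5 := H_nonneg w (2 * B) (z - 1 - w - b)
    rw [← hN] at h1 h2
    have h6 := mul_le_mul h1 h2 h5 (h3.trans h1)
    refine h6.trans ?_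
    by_cases e1 : z - 1 - (v : ℤ) - (b : ℤ) = 0
    · have e2 : ¬ (z - 1 - (w : ℤ) - (b : ℤ) = 0) := by
        intro e2
        apply hvw
        omega
      rw [if_pos e1, if_neg e2]
      apply le_of_eq
      ring
    · rw [if_neg e1]
      apply le_of_eq
      ring
  have hsum : ∑ b ∈ range (2 * B), H v (2 * B) (z - 1 - v - b) * H w (2 * B) (z - 1 - w - b) ≤
      24 / N := by
    refine (Finset.sum_le_sum fun b _ => key b).trans ?_
    rw [Finset.sum_add_distrib, Finset.sum_add_distrib, Finset.sum_const, card_range,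
      nsmul_eq_mul, ← hN, ← Finset.mul_sum, ← Finset.mul_sum]
    have h1 := mul_le_mul_of_nonneg_left (kap10_one (2 * B) (z - 1 - v)) h4.le
    have h2 := mul_le_mul_of_nonneg_left (kap10_one (2 * B) (z - 1 - w)) h4.le
    have h3 : N * (4 / N * (4 / N)) = 16 / N := by
      field_simp
      norm_num
    have h5 : 24 / N = 16 / N + 4 / N * 1 + 4 / N * 1 := by
      field_simp
      norm_num
    rw [h3, h5]
    linarith
  have hsum0 : 0 ≤ ∑ b ∈ range (2 * B), H v (2 * B) (z - 1 - v - b) *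
      H w (2 * B) (z - 1 - w - b) :=
    Finset.sum_nonneg fun b _ => mul_nonneg (H_nonneg _ _ _) (H_nonneg _ _ _)
  unfold kap
  rw [← hN]
  have h1 : (∑ b ∈ range (2 * B), H v (2 * B) (z - 1 - v - b) *
      H w (2 * B) (z - 1 - w - b)) / N ≤ 24 / N ^ 2 := by
    rw [div_le_iff₀ hN0]
    refine hsum.trans (le_of_eq ?_)
    field_simp
  have h2 : 0 ≤ (∑ b ∈ range (2 * B), H v (2 * B) (z - 1 - v - b) *
      H w (2 * B) (z - 1 - w - b)) / N := div_nonneg hsum0 hN0.le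
  have h3 : H v (2 * B) z * H w (2 * B) z ≤ 16 / N ^ 2 := by
    refine (mul_le_mul hv hw hw0 h4.le).trans (le_of_eq ?_)
    field_simp
    norm_num
  have h5 : 0 ≤ H v (2 * B) z * H w (2 * B) z := mul_nonneg hv0 hw0
  have h6 : 16 / N ^ 2 ≤ 24 / N ^ 2 := by
    apply div_le_div_of_nonneg_right (by norm_num) (by positivity)
  rw [abs_le]
  constructor <;> linarith

private lemma kap10_dev (v B : ℕ) (hB : 0 < B) (R : ℕ) (hv : v + 2 * B ≤ R) {z : ℤ}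
    (hz : 64 * (R : ℤ) ≤ z) {b : ℕ} (hb : b < 2 * B) :
    |H v (2 * B) (z - 1 - v - b) - H v (2 * B) (z - 1 - v)| ≤
      64 / ((2 * B : ℕ) : ℝ) * Real.sqrt ((R : ℝ) / (z : ℝ)) := by
  have hN0 : (0 : ℝ) < ((2 * B : ℕ) : ℝ) := by exact_mod_cast (by omega : 0 < 2 * B)
  have hR0 : 0 < R := by omega
  have hz0 : 0 < z := by omega
  have hzr : (0 : ℝ) < (z : ℝ) := by exact_mod_cast hz0
  have h1 := diff_le v B hB R hv (z - 1 - v) (by omega) b (by omega)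
  refine h1.trans ?_
  have h2 : Real.sqrt ((R : ℝ) / ((z - 1 - v : ℤ) : ℝ)) ≤
      2 * Real.sqrt ((R : ℝ) / (z : ℝ)) := by
    have h3 : (2 : ℝ) * Real.sqrt ((R : ℝ) / (z : ℝ)) =
        Real.sqrt (4 * ((R : ℝ) / (z : ℝ))) := by
      rw [Real.sqrt_mul (by norm_num)]
      congr 1
      rw [show (4 : ℝ) = 2 ^ 2 by norm_num, Real.sqrt_sq (by norm_num)]
    rw [h3]
    apply Real.sqrt_le_sqrt
    have h4 : (z : ℝ) / 4 ≤ ((z - 1 - v : ℤ) : ℝ) := by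
      have h5 : z ≤ 4 * (z - 1 - v) := by omega
      have h6 : (z : ℝ) ≤ 4 * ((z - 1 - v : ℤ) : ℝ) := by exact_mod_cast h5
      linarith
    have h7 : (0 : ℝ) ≤ (R : ℝ) := Nat.cast_nonneg _
    calc (R : ℝ) / ((z - 1 - v : ℤ) : ℝ) ≤ (R : ℝ) / ((z : ℝ) / 4) :=
          div_le_div_of_nonneg_left h7 (by positivity) h4
      _ = 4 * ((R : ℝ) / (z : ℝ)) := by field_simp
  have hbN : (b : ℝ) ≤ ((2 * B : ℕ) : ℝ) := by exact_mod_cast hb.le
  obtain ⟨N, hN⟩ : ∃ N : ℝ, N = ((2 * B : ℕ) : ℝ) := ⟨_, rfl⟩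
  rw [← hN] at hN0 hbN ⊢
  calc (b : ℝ) * (32 / N ^ 2 * Real.sqrt ((R : ℝ) / ((z - 1 - v : ℤ) : ℝ))) ≤
        N * (32 / N ^ 2 * (2 * Real.sqrt ((R : ℝ) / (z : ℝ)))) := by
        refine mul_le_mul hbN (mul_le_mul_of_nonneg_left h2 (by positivity)) (by positivity)
          hN0.le
    _ = 64 / N * Real.sqrt ((R : ℝ) / (z : ℝ)) := by
        field_simp
        ring

lemma kap_far (v w B : ℕ) (hB : 0 < B) (R : ℕ) (hv : v + 2 * B ≤ R) (hw : w + 2 * B ≤ R) {z : ℤ}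
    (hz : 64 * (R : ℤ) ≤ z) :
    |kap v w (2 * B) z| ≤ 8192 * R / (((2 * B : ℕ) : ℝ) ^ 2 * (z : ℝ)) := by
  obtain ⟨N, hN⟩ : ∃ N : ℝ, N = ((2 * B : ℕ) : ℝ) := ⟨_, rfl⟩
  have hN0 : 0 < N := by rw [hN]; exact_mod_cast (by omega : 0 < 2 * B)
  have hR0 : 0 < R := by omega
  have hz0 : 0 < z := by omega
  have hzr : (0 : ℝ) < (z : ℝ) := by exact_mod_cast hz0
  obtain ⟨δ, hδ⟩ : ∃ δ : ℝ, δ = 64 / N * Real.sqrt ((R : ℝ) / (z : ℝ)) := ⟨_, rfl⟩
  have hδ0 : 0 ≤ δ := by rw [hδ]; positivity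
  obtain ⟨x0, hx0⟩ : ∃ x0 : ℝ, x0 = H v (2 * B) (z - 1 - v) := ⟨_, rfl⟩
  obtain ⟨y0, hy0⟩ : ∃ y0 : ℝ, y0 = H w (2 * B) (z - 1 - w) := ⟨_, rfl⟩
  obtain ⟨X, hX⟩ : ∃ X : ℕ → ℝ, X = fun b : ℕ => H v (2 * B) (z - 1 - v - b) := ⟨_, rfl⟩
  obtain ⟨Y, hY⟩ : ∃ Y : ℕ → ℝ, Y = fun b : ℕ => H w (2 * B) (z - 1 - w - b) := ⟨_, rfl⟩
  have h1 : ∀ b ∈ range (2 * B), |X b - x0| ≤ δ := by
    intro b hb
    rw [hX, hx0, hδ, hN]
    exact kap10_dev v B hB R hv hz (mem_range.1 hb)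
  have h2 : ∀ b ∈ range (2 * B), |Y b - y0| ≤ δ := by
    intro b hb
    rw [hY, hy0, hδ, hN]
    exact kap10_dev w B hB R hw hz (mem_range.1 hb)
  have hcard : ((range (2 * B)).card : ℝ) = N := by rw [card_range, hN]
  have e1 : H v (2 * B) z = (∑ b ∈ range (2 * B), X b) / N := by
    rw [H_rec v (2 * B) hz0, hX, hN]
  have e2 : H w (2 * B) z = (∑ b ∈ range (2 * B), Y b) / N := by
    rw [H_rec w (2 * B) hz0, hY, hN]
  have e3 : ∑ b ∈ range (2 * B), H v (2 * B) (z - 1 - v - b) * H w (2 * B) (z - 1 - w - b) =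
      ∑ b ∈ range (2 * B), X b * Y b := by rw [hX, hY]
  have e4 : ∑ b ∈ range (2 * B), (X b - x0) = ∑ b ∈ range (2 * B), X b - N * x0 := by
    rw [Finset.sum_sub_distrib, Finset.sum_const, nsmul_eq_mul, hcard]
  have e5 : ∑ b ∈ range (2 * B), (Y b - y0) = ∑ b ∈ range (2 * B), Y b - N * y0 := by
    rw [Finset.sum_sub_distrib, Finset.sum_const, nsmul_eq_mul, hcard]
  have e6 : ∑ b ∈ range (2 * B), (X b - x0) * (Y b - y0) = ∑ b ∈ range (2 * B), X b * Y b -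
      y0 * ∑ b ∈ range (2 * B), X b - x0 * ∑ b ∈ range (2 * B), Y b + N * (x0 * y0) := by
    have : ∀ b, (X b - x0) * (Y b - y0) = X b * Y b - y0 * X b - x0 * Y b + x0 * y0 := by
      intro b; ring
    rw [Finset.sum_congr rfl fun b _ => this b, Finset.sum_add_distrib, Finset.sum_sub_distrib,
      Finset.sum_sub_distrib, ← Finset.mul_sum, ← Finset.mul_sum, Finset.sum_const,
      nsmul_eq_mul, hcard]
  have hk : kap v w (2 * B) z = (∑ b ∈ range (2 * B), (X b - x0) * (Y b - y0)) / N -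
      ((∑ b ∈ range (2 * B), (X b - x0)) / N) * ((∑ b ∈ range (2 * B), (Y b - y0)) / N) := by
    unfold kap
    rw [e3, e1, e2, ← hN, e4, e5, e6]
    field_simp
    ring
  have h3 : |∑ b ∈ range (2 * B), (X b - x0) * (Y b - y0)| ≤ N * (δ * δ) := by
    refine (Finset.abs_sum_le_sum_abs _ _).trans ?_
    refine (Finset.sum_le_sum fun b hb => ?_ : _ ≤ ∑ b ∈ range (2 * B), δ * δ).trans ?_
    · rw [abs_mul]
      exact mul_le_mul (h1 b hb) (h2 b hb) (abs_nonneg _) hδ0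
    · rw [Finset.sum_const, nsmul_eq_mul, hcard]
  have h4 : |∑ b ∈ range (2 * B), (X b - x0)| ≤ N * δ := by
    refine (Finset.abs_sum_le_sum_abs _ _).trans ?_
    refine (Finset.sum_le_sum h1).trans ?_
    rw [Finset.sum_const, nsmul_eq_mul, hcard]
  have h5 : |∑ b ∈ range (2 * B), (Y b - y0)| ≤ N * δ := by
    refine (Finset.abs_sum_le_sum_abs _ _).trans ?_
    refine (Finset.sum_le_sum h2).trans ?_
    rw [Finset.sum_const, nsmul_eq_mul, hcard]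
  have h6 : |(∑ b ∈ range (2 * B), (X b - x0) * (Y b - y0)) / N| ≤ δ * δ := by
    rw [abs_div, abs_of_pos hN0, div_le_iff₀ hN0]
    linarith
  have h7 : |(∑ b ∈ range (2 * B), (X b - x0)) / N| ≤ δ := by
    rw [abs_div, abs_of_pos hN0, div_le_iff₀ hN0]
    linarith
  have h8 : |(∑ b ∈ range (2 * B), (Y b - y0)) / N| ≤ δ := by
    rw [abs_div, abs_of_pos hN0, div_le_iff₀ hN0]
    linarith
  have h9 : |kap v w (2 * B) z| ≤ δ * δ + δ * δ := by
    rw [hk]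
    refine (abs_sub _ _).trans ?_
    refine add_le_add h6 ?_
    rw [abs_mul]
    exact mul_le_mul h7 h8 (abs_nonneg _) hδ0
  refine h9.trans (le_of_eq ?_)
  have h10 : δ * δ = 4096 / N ^ 2 * ((R : ℝ) / (z : ℝ)) := by
    have h11 : Real.sqrt ((R : ℝ) / (z : ℝ)) * Real.sqrt ((R : ℝ) / (z : ℝ)) =
        (R : ℝ) / (z : ℝ) := Real.mul_self_sqrt (by positivity)
    calc δ * δ = (64 / N) * (64 / N) * (Real.sqrt ((R : ℝ) / (z : ℝ)) *
          Real.sqrt ((R : ℝ) / (z : ℝ))) := by rw [hδ]; ring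
      _ = 4096 / N ^ 2 * ((R : ℝ) / (z : ℝ)) := by
          rw [h11]
          field_simp
          norm_num
  rw [h10, ← hN]
  field_simp
  norm_num

lemma kap_sum (v w B : ℕ) (hB : 0 < B) (hvw : v ≠ w) (R : ℕ) (hv : v + 2 * B ≤ R)
    (hw : w + 2 * B ≤ R) (W : ℕ) (hW : 1 ≤ W) :
    ∑ i ∈ range W, |kap v w (2 * B) ((i : ℤ) + 1)| ≤
      (R : ℝ) / ((2 * B : ℕ) : ℝ) ^ 2 * (10000 * (1 + Real.log W)) := by
  obtain ⟨N, hN⟩ : ∃ N : ℝ, N = ((2 * B : ℕ) : ℝ) := ⟨_, rfl⟩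
  have hN0 : 0 < N := by rw [hN]; exact_mod_cast (by omega : 0 < 2 * B)
  have hR0 : (0 : ℝ) ≤ (R : ℝ) := Nat.cast_nonneg _
  have hterm : ∀ i ∈ range W, |kap v w (2 * B) ((i : ℤ) + 1)| ≤
      24 / N ^ 2 * (if i + 1 < 64 * R then (1 : ℝ) else 0) +
        8192 * R / N ^ 2 * (((i + 1 : ℕ) : ℝ)⁻¹) := by
    intro i _
    have hpos : (0 : ℝ) < ((i + 1 : ℕ) : ℝ) := by exact_mod_cast Nat.succ_pos i
    by_cases h : i + 1 < 64 * R
    · rw [if_pos h]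
      have h1 := kap_near v w B hB hvw (z := (i : ℤ) + 1) (by omega)
      rw [← hN] at h1
      have h2 : 0 ≤ 8192 * R / N ^ 2 * (((i + 1 : ℕ) : ℝ)⁻¹) := by positivity
      linarith
    · rw [if_neg h]
      have h1 := kap_far v w B hB R hv hw (z := (i : ℤ) + 1) (by omega)
      rw [← hN] at h1
      refine h1.trans (le_of_eq ?_)
      have h2 : (((i : ℤ) + 1 : ℤ) : ℝ) = ((i + 1 : ℕ) : ℝ) := by push_cast; ring
      rw [h2]
      field_simp
      ring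
  refine (Finset.sum_le_sum hterm).trans ?_
  rw [Finset.sum_add_distrib, ← Finset.mul_sum, ← Finset.mul_sum]
  have h1 : ∑ i ∈ range W, (if i + 1 < 64 * R then (1 : ℝ) else 0) ≤ 64 * R := by
    rw [Finset.sum_boole]
    have h2 : ((range W).filter fun i => i + 1 < 64 * R) ⊆ range (64 * R) := by
      intro i hi
      have := (Finset.mem_filter.1 hi).2
      exact mem_range.2 (by omega)
    have h3 := Finset.card_le_card h2
    rw [card_range] at h3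
    exact_mod_cast h3
  have h2 : ∑ i ∈ range W, (((i + 1 : ℕ) : ℝ)⁻¹) ≤ 1 + Real.log W := by
    have h3 := harmonic_le_one_add_log W
    have h4 : ((harmonic W : ℚ) : ℝ) = ∑ i ∈ range W, (((i + 1 : ℕ) : ℝ)⁻¹) := by
      unfold harmonic
      push_cast
      rfl
    rw [← h4]
    exact h3
  have hlog : 0 ≤ Real.log W := Real.log_nonneg (by exact_mod_cast hW)
  rw [← hN]
  have h5 : 24 / N ^ 2 * ∑ i ∈ range W, (if i + 1 < 64 * R then (1 : ℝ) else 0) ≤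
      24 / N ^ 2 * (64 * R) := mul_le_mul_of_nonneg_left h1 (by positivity)
  have h6 : 8192 * R / N ^ 2 * ∑ i ∈ range W, (((i + 1 : ℕ) : ℝ)⁻¹) ≤
      8192 * R / N ^ 2 * (1 + Real.log W) := mul_le_mul_of_nonneg_left h2 (by positivity)
  have h7 : 0 ≤ (R : ℝ) / N ^ 2 * Real.log W := by positivity
  have h8 : 0 ≤ (R : ℝ) / N ^ 2 := by positivity
  have e1 : 24 / N ^ 2 * (64 * R) = (R : ℝ) / N ^ 2 * 1536 := by ring
  have e2 : 8192 * R / N ^ 2 * (1 + Real.log W) =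
      (R : ℝ) / N ^ 2 * 8192 + 8192 * ((R : ℝ) / N ^ 2 * Real.log W) := by ring
  have e3 : (R : ℝ) / N ^ 2 * (10000 * (1 + Real.log W)) =
      (R : ℝ) / N ^ 2 * 10000 + 10000 * ((R : ℝ) / N ^ 2 * Real.log W) := by ring
  rw [e1] at h5
  rw [e2] at h6
  rw [e3]
  linarith

end SC4
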