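import Mathlib

/-!
# SC-12: a lower bound for a sum

`1/(jk+N) ≥ (1/k) log(((j+1)k+N)/(jk+N))` because `log(1+x) ≤ x` with `x = k/(jk+N)`. Telescoping
over `1 ≤ j ≤ J`: `∑ 1/(jk+N) ≥ (1/k) log(((J+1)k+N)/(k+N)) ≥ (1/k) log(ρ N/(2N))`.
-/

set_option autoImplicit false

namespace SC4

open Finset

private lemma sum_lower_tele (k N : ℕ) (hk : 1 ≤ k) (J : ℕ) :
    (Real.log (((J : ℝ) + 1) * k + N) - Real.log ((k : ℝ) + N)) / (2 * k)
      ≤ ∑ j ∈ Icc 1 J, 1 / (2 * ((j : ℝ) * k + N)) := by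
  have hk0 : (0 : ℝ) < k := by exact_mod_cast hk
  have hN0 : (0 : ℝ) ≤ N := Nat.cast_nonneg N
  induction J with
  | zero => simp
  | succ J ih =>
    rw [Finset.sum_Icc_succ_top (by omega)]
    have hJ0 : (0 : ℝ) ≤ J := Nat.cast_nonneg J
    set a : ℝ := ((J : ℝ) + 1) * k + N with ha
    have ha0 : 0 < a := by positivity
    have e1 : (((J + 1 : ℕ) : ℝ) + 1) * k + N = a + k := by push_cast; rw [ha]; ring
    have e2 : (((J + 1 : ℕ) : ℝ)) * k + N = a := by push_cast; rw [ha]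
    rw [e1, e2]
    have hlog : Real.log (a + k) - Real.log a ≤ k / a := by
      rw [← Real.log_div (by positivity) (by positivity)]
      have h1 : (a + k) / a = k / a + 1 := by field_simp; ring
      rw [h1]
      have h2 := Real.log_le_sub_one_of_pos (show (0 : ℝ) < k / a + 1 by positivity)
      linarith
    have h3 : (Real.log (a + k) - Real.log a) / (2 * k) ≤ 1 / (2 * a) := by
      calc (Real.log (a + k) - Real.log a) / (2 * k) ≤ (k / a) / (2 * k) :=
            div_le_div_of_nonneg_right hlog (by positivity)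
        _ = 1 / (2 * a) := by field_simp
    have h4 : (Real.log (a + k) - Real.log ((k : ℝ) + N)) / (2 * k)
        = (Real.log a - Real.log ((k : ℝ) + N)) / (2 * k)
          + (Real.log (a + k) - Real.log a) / (2 * k) := by ring
    rw [h4]
    exact add_le_add ih h3

lemma sum_lower (k N J ρ : ℕ) (hk : 1 ≤ k) (hkN : k ≤ N) (hρ : 1 ≤ ρ)
    (hJ : ρ * N ≤ (J + 1) * k + N) :
    Real.log ((ρ : ℝ) / 2) / (2 * k) ≤ ∑ j ∈ Icc 1 J, 1 / (2 * ((j : ℝ) * k + N)) := by
  refine le_trans ?_ (sum_lower_tele k N hk J)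
  have hk0 : (0 : ℝ) < k := by exact_mod_cast hk
  have hN0 : (0 : ℝ) < N := by exact_mod_cast (show 0 < N by omega)
  have hρ0 : (0 : ℝ) < ρ := by exact_mod_cast hρ
  have hkN' : (k : ℝ) ≤ N := by exact_mod_cast hkN
  have hJ' : (ρ : ℝ) * N ≤ ((J : ℝ) + 1) * k + N := by exact_mod_cast hJ
  have hJ0 : (0 : ℝ) ≤ J := Nat.cast_nonneg J
  apply div_le_div_of_nonneg_right _ (by positivity)
  rw [← Real.log_div (by positivity) (by positivity)]
  apply Real.log_le_log (by positivity)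
  rw [div_le_div_iff₀ (by norm_num) (by positivity)]
  calc (ρ : ℝ) * (k + N) ≤ ρ * (N + N) := by
        apply mul_le_mul_of_nonneg_left _ hρ0.le; linarith
    _ = (ρ * N) * 2 := by ring
    _ ≤ (((J : ℝ) + 1) * k + N) * 2 := by linarith

end SC4
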