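import Pool.Agent.Helper4.SC.QLow

/-!
# SC-8: iteration of the meeting estimate

`Q_mul`: `c ≤ c'`, `v + N ≤ R`, and `Q c v N x y ≤ S` for all `x, y ≥ c' - R`. Then for all
`s, t ≥ c' - R`: `Q c v N s t ≤ Q c' v N s t * S`. Strong induction on
`(s-c').toNat + (t-c').toNat`: if `s < c'` or `t < c'` then `Q c' = 1` and the hypothesis applies. If
both are `≥ c'`: `s = t` gives `0 ≤ 0`; `t < s`: both `Q c` and `Q c'` are averages over `b < N` of
the values at `(s-1-v-b, t)`, and `s-1-v-b ≥ c' - v - N ≥ c' - R`; symmetric for `s < t`.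

`Q_iter`: `L = 4096 ρ^5 N` (`N = 2B`), `R = ρ N ≤ L`. By induction on `l`: for all
`x, y ≥ c + l * (3 L)`, `Q c v N x y ≤ (1 - 512 ρ^3/N)^l`. Step: let `c' = c + l * 3L + R`; for
`x, y ≥ c + (l+1) 3L ≥ c' + 2L` one has `Q c' v N x y ≤ 1 - 512 ρ^3/N` (`Q_le`), and `Q_mul` with
`S = (1 - 512ρ^3/N)^l` (`x, y ≥ c' - R`). Note `0 ≤ 1 - 512ρ^3/N` since `65536 ρ^5 ≤ N`.
-/

set_option autoImplicit false

namespace SC4

open Finset

lemma Q_mul (c c' : ℤ) (hc : c ≤ c') (v N : ℕ) (hN : 0 < N) (R : ℤ) (hR : (v : ℤ) + N ≤ R) (S : ℝ)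
    (hS : ∀ x y : ℤ, c' - R ≤ x → c' - R ≤ y → Q c v N x y ≤ S) (s t : ℤ) (hs : c' - R ≤ s)
    (ht : c' - R ≤ t) : Q c v N s t ≤ Q c' v N s t * S := by
  have main : ∀ n : ℕ, ∀ s t : ℤ, (s - c').toNat + (t - c').toNat = n → c' - R ≤ s →
      c' - R ≤ t → Q c v N s t ≤ Q c' v N s t * S := by
    intro n
    induction n using Nat.strong_induction_on with
    | _ n ih =>
      intro s t hn hs ht
      by_cases h0 : s < c' ∨ t < c'
      · rw [Q_out c' v N h0, one_mul]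
        exact hS s t hs ht
      · have hs' : c' ≤ s := by omega
        have ht' : c' ≤ t := by omega
        have hNR : (0 : ℝ) ≤ (N : ℝ) := Nat.cast_nonneg N
        rcases lt_trichotomy s t with h | h | h
        · rw [Q_right c v N h (by omega), Q_right c' v N h hs', div_mul_eq_mul_div, sum_mul]
          apply div_le_div_of_nonneg_right _ hNR
          apply sum_le_sum
          intro b hb
          have hb' : (b : ℤ) < N := by exact_mod_cast mem_range.1 hb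
          exact ih _ (by omega) s (t - 1 - v - b) rfl hs (by omega)
        · subst h
          rw [Q_diag c v N (by omega), Q_diag c' v N hs', zero_mul]
        · rw [Q_left c v N h (by omega), Q_left c' v N h ht', div_mul_eq_mul_div, sum_mul]
          apply div_le_div_of_nonneg_right _ hNR
          apply sum_le_sum
          intro b hb
          have hb' : (b : ℤ) < N := by exact_mod_cast mem_range.1 hb
          exact ih _ (by omega) (s - 1 - v - b) t rfl (by omega) ht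
  exact main _ s t rfl hs ht

lemma Q_iter (c : ℤ) (v B ρ : ℕ) (hB : 0 < B) (hρ : 1 ≤ ρ) (hR : v + 2 * B ≤ ρ * (2 * B))
    (hN : 65536 * ρ ^ 5 ≤ 2 * B) (l : ℕ) (x y : ℤ)
    (hx : c + (l : ℤ) * (3 * (4096 * (ρ : ℤ) ^ 5 * (2 * B))) ≤ x)
    (hy : c + (l : ℤ) * (3 * (4096 * (ρ : ℤ) ^ 5 * (2 * B))) ≤ y) :
    Q c v (2 * B) x y ≤ (1 - 512 * (ρ : ℝ) ^ 3 / ((2 * B : ℕ) : ℝ)) ^ l := by
  have hN0 : (0 : ℝ) < ((2 * B : ℕ) : ℝ) := by
    exact_mod_cast (by omega : 0 < 2 * B)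
  have hq : (0 : ℝ) ≤ 1 - 512 * (ρ : ℝ) ^ 3 / ((2 * B : ℕ) : ℝ) := by
    rw [sub_nonneg, div_le_one hN0]
    have h1 : ρ ^ 3 ≤ ρ ^ 5 := Nat.pow_le_pow_right hρ (by norm_num)
    have h2 : 512 * ρ ^ 3 ≤ 2 * B := by omega
    exact_mod_cast h2
  have hρ5 : (1 : ℤ) * ((ρ : ℤ) * (2 * B)) ≤ 4096 * (ρ : ℤ) ^ 5 * (2 * B) := by
    have h1 : ρ ≤ ρ ^ 5 := by
      calc ρ = ρ ^ 1 := (pow_one ρ).symm
        _ ≤ ρ ^ 5 := Nat.pow_le_pow_right hρ (by norm_num)
    have h2 : ρ * (2 * B) ≤ 4096 * ρ ^ 5 * (2 * B) := Nat.mul_le_mul_right _ (by omega)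
    rw [one_mul]
    exact_mod_cast h2
  have hR' : (v : ℤ) + ((2 * B : ℕ) : ℤ) ≤ (ρ : ℤ) * (2 * B) := by
    exact_mod_cast hR
  generalize hL : (4096 * (ρ : ℤ) ^ 5 * (2 * B) : ℤ) = L at *
  induction l generalizing x y with
  | zero =>
    rw [pow_zero]
    exact Q_le_one _ _ _ _ _
  | succ l ih =>
    have hl : (((l + 1 : ℕ) : ℤ)) * (3 * L) = (l : ℤ) * (3 * L) + 3 * L := by
      push_cast
      ring
    rw [hl] at hx hy
    generalize hM : (l : ℤ) * (3 * L) = M at *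
    have hpos : (0 : ℤ) ≤ (ρ : ℤ) * (2 * B) := by positivity
    have hM0 : 0 ≤ M := by
      rw [← hM]
      have : 0 ≤ L := by omega
      positivity
    have h1 := Q_mul c (c + M + (ρ : ℤ) * (2 * B)) (by omega) v (2 * B) (by omega)
      ((ρ : ℤ) * (2 * B)) hR' ((1 - 512 * (ρ : ℝ) ^ 3 / ((2 * B : ℕ) : ℝ)) ^ l)
      (by
        intro x y hx hy
        exact ih x y (by omega) (by omega)) x y (by omega) (by omega)
    have h2 := Q_le (c + M + (ρ : ℤ) * (2 * B)) v B ρ hB hρ hR hN x y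
      (by rw [hL]; omega) (by rw [hL]; omega)
    refine h1.trans ?_
    rw [pow_succ, mul_comm]
    exact mul_le_mul_of_nonneg_left h2 (pow_nonneg hq l)

end SC4
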