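import Pool.Agent.Helper4.SC.Diag
import Pool.Agent.Helper4.SC.QIt
import Pool.Agent.Helper4.SC.Mean
import Pool.Agent.Helper4.SC.ExS
import Pool.Agent.Helper4.SC.ExH2
import Pool.Agent.Helper4.SC.ExM
import Pool.Agent.Helper4.SC.DynD
import Pool.Agent.Helper4.SC.CntA

/-!
# SC-23: the assembly
-/

set_option autoImplicit false

namespace SC4

open Finset Classical

/-- the second moment estimate: with probability at least `1 - ε/2` one of the walks hits -/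
lemma nohit_le {ι : Type} [Fintype ι] [DecidableEq ι] (ε : ℝ) (hε : 0 < ε) (hε1 : ε ≤ 1)
    (k B ρ J W : ℕ) (hk : 1 ≤ k) (hρ : 2 ≤ ρ) (h1 : 65536 * ρ ^ 5 ≤ 2 * B) (h2 : k ≤ 2 * B)
    (h3 : J * k + 2 * B ≤ ρ * (2 * B)) (h4 : ρ * (2 * B) ≤ (J + 1) * k + 2 * B) (hW : 1 ≤ W)
    (h5 : 4096 * ρ ^ 4 * (ρ * (2 * B)) ≤ W)
    (h6 : 1600000 * (ρ : ℝ) ^ 3 * (1 + Real.log W) ≤ 2 * B)
    (h7 : 4 / ε ≤ Real.log ((ρ : ℝ) / 2) / (2 * k))
    (e : ℤ → ι) (he : ∀ x y : ℤ, 1 ≤ x → x ≤ W → 1 ≤ y → y ≤ W → e x = e y → x = y) :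
    Ex (2 * B) (fun ω : ι → Fin (2 * B) =>
      if ∃ j : ℕ, 1 ≤ j ∧ j ≤ J ∧ hit (j * k - 1) (fun x => (ω (e x) : ℕ)) W then (0 : ℝ) else 1)
      ≤ ε / 2 := by
  have hB : 0 < B := by
    rcases Nat.eq_zero_or_pos B with h | h
    · subst h
      have : 1 ≤ ρ ^ 5 := Nat.one_le_pow _ _ (by omega)
      omega
    · exact h
  set N : ℕ := 2 * B with hNdef
  have hN : 0 < N := by omega
  have hNr : (0 : ℝ) < (N : ℝ) := by exact_mod_cast hN
  have hρr : (2 : ℝ) ≤ (ρ : ℝ) := by exact_mod_cast hρ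
  have hkr : (1 : ℝ) ≤ (k : ℝ) := by exact_mod_cast hk
  have hjk : ∀ j : ℕ, 1 ≤ j → 1 ≤ j * k := fun j hj => Nat.mul_le_mul hj hk
  -- the parameters of the walks
  have hv : ∀ j : ℕ, 1 ≤ j → j ≤ J → (j * k - 1) + N ≤ ρ * N := by
    intro j _ hj
    have : j * k ≤ J * k := Nat.mul_le_mul_right k hj
    omega
  set X : ℕ → (ι → Fin N) → ℝ := fun j ω =>
    if hit (j * k - 1) (fun x => (ω (e x) : ℕ)) W then (1 : ℝ) else 0 with hX
  have hEx : ∀ j, Ex N (X j) = H (j * k - 1) N W := fun j =>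
    Ex_hit N hN e W he (j * k - 1) W (le_refl _)
  set θ : ℝ := ((ρ * N : ℕ) : ℝ) / (N : ℝ) ^ 2 * (10000 * (1 + Real.log W)) with hθ
  have hlogW : 0 ≤ Real.log W := Real.log_nonneg (by exact_mod_cast hW)
  have hθ0 : 0 ≤ θ := by positivity
  -- `80 ρ² θ ≤ 1/2`
  have hθ1 : 80 * (ρ : ℝ) ^ 2 * θ ≤ 1 / 2 := by
    have e1 : 80 * (ρ : ℝ) ^ 2 * θ = (800000 * (ρ : ℝ) ^ 3 * (1 + Real.log W)) / N := by
      rw [hθ]
      push_cast
      field_simp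
      ring
    rw [e1, div_le_iff₀ hNr]
    have : ((N : ℕ) : ℝ) = 2 * (B : ℝ) := by rw [hNdef]; push_cast; ring
    rw [this]
    linarith
  have hθ2 : θ ≤ 1 / 2 := by
    have : (4 : ℝ) ≤ (ρ : ℝ) ^ 2 := by nlinarith
    nlinarith
  -- the bound for the covariance of two walks
  set δ : ℝ := (8192 * ((ρ * N : ℕ) : ℝ) / W + 80 * θ) / (N : ℝ) ^ 2 with hδ
  have hWr : (0 : ℝ) < (W : ℝ) := by exact_mod_cast (by omega : 0 < W)
  have hδ0 : 0 ≤ δ := by positivity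
  have h64 : 64 * ((ρ * N : ℕ) : ℤ) ≤ (W : ℤ) := by
    have h8 : 64 * (ρ * N) ≤ 4096 * ρ ^ 4 * (ρ * N) := by
      apply Nat.mul_le_mul_right
      have : 1 ≤ ρ ^ 4 := Nat.one_le_pow _ _ (by omega)
      omega
    exact_mod_cast h8.trans h5
  have hpair : ∀ j ∈ Icc 1 J, ∀ j' ∈ Icc 1 J, j ≠ j' →
      Ex N (fun ω => X j ω * X j' ω) ≤ Ex N (X j) * Ex N (X j') + δ := by
    intro j hj j' hj' hne
    rw [mem_Icc] at hj hj'
    have e1 : Ex N (fun ω => X j ω * X j' ω) = P (j * k - 1) (j' * k - 1) N W W :=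
      Ex_hit2 N hN e W he (j * k - 1) (j' * k - 1) W W (le_refl _) (le_refl _)
    rw [e1, hEx, hEx]
    have hvw : j * k - 1 ≠ j' * k - 1 := by
      intro h
      have g1 : 1 ≤ j * k := hjk j hj.1
      have g2 : 1 ≤ j' * k := hjk j' hj'.1
      have g3 : j * k = j' * k := by omega
      exact hne (Nat.eq_of_mul_eq_mul_right (by omega) g3)
    have hsum := kap_sum (j * k - 1) (j' * k - 1) B hB hvw (ρ * N) (hv j hj.1 hj.2)
      (hv j' hj'.1 hj'.2) W hW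
    have hf := P_final (j * k - 1) (j' * k - 1) B hB hvw W hW θ hθ2 hsum
    have hk1 := kap_far (j * k - 1) (j' * k - 1) B hB (ρ * N) (hv j hj.1 hj.2)
      (hv j' hj'.1 hj'.2) (z := (W : ℤ)) h64
    refine hf.trans ?_
    have e2 : δ = 8192 * ((ρ * N : ℕ) : ℝ) / ((N : ℝ) ^ 2 * W) + 80 / (N : ℝ) ^ 2 * θ := by
      rw [hδ]
      field_simp
    rw [e2]
    have hk2 : |kap (j * k - 1) (j' * k - 1) (2 * B) W| ≤
        8192 * ((ρ * N : ℕ) : ℝ) / ((N : ℝ) ^ 2 * W) := by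
      have h9 := hk1
      rw [← hNdef] at h9
      rw [← hNdef]
      rw [Int.cast_natCast] at h9
      exact h9
    linarith
  set M : ℝ := ∑ j ∈ Icc 1 J, Ex N (X j) with hM
  have hMlow : 4 / ε ≤ M := by
    refine h7.trans ((sum_lower k N J ρ hk h2 (by omega) h4).trans ?_)
    rw [hM]
    apply sum_le_sum
    intro j hj
    rw [mem_Icc] at hj
    rw [hEx]
    have hl := H_lower (j * k - 1) B ρ hB (by omega) (hv j hj.1 hj.2) (W : ℤ) (by
      have : 4096 * ρ ^ 4 * (ρ * (2 * B)) ≤ W := h5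
      exact_mod_cast this)
    refine le_trans ?_ hl
    have hmu : mu (j * k - 1) (2 * B) ≤ (j : ℝ) * k + N := by
      unfold mu
      have g1 : 1 ≤ j * k := hjk j hj.1
      have g2 : ((j * k - 1 : ℕ) : ℝ) = (j : ℝ) * k - 1 := by
        rw [Nat.cast_sub g1]
        push_cast
        ring
      rw [g2, ← hNdef]
      have : (1 : ℝ) ≤ N := by exact_mod_cast hN
      linarith
    exact one_div_le_one_div_of_le (by have := mu_pos (j * k - 1) (2 * B); linarith) (by linarith)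
  have h4e : (4 : ℝ) ≤ 4 / ε := by
    rw [le_div_iff₀ hε]
    linarith
  have hM4 : (4 : ℝ) ≤ M := h4e.trans hMlow
  have hsm := second_moment (ι := ι) N hN (Icc 1 J) X (by
    intro j _ ω
    simp only [hX]
    split_ifs <;> simp) δ hδ0 hpair (by linarith)
    (fun ω => if ∃ j : ℕ, 1 ≤ j ∧ j ≤ J ∧ hit (j * k - 1) (fun x => (ω (e x) : ℕ)) W
      then (0 : ℝ) else 1) (by
      intro ω
      split_ifs <;> norm_num) (by
      rintro ω ⟨j, hj, hj1⟩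
      rw [mem_Icc] at hj
      rw [if_pos]
      refine ⟨j, hj.1, hj.2, ?_⟩
      by_contra hcon
      simp only [hX] at hj1
      rw [if_neg hcon] at hj1
      norm_num at hj1)
  refine hsm.trans ?_
  rw [Nat.card_Icc]
  have hJδ : (((J + 1 - 1 : ℕ) : ℝ)) ^ 2 * δ ≤ 1 := by
    have g0 : J ≤ ρ * N := by
      have : J * 1 ≤ J * k := Nat.mul_le_mul_left J hk
      omega
    have g1 : ((J + 1 - 1 : ℕ) : ℝ) ≤ (ρ : ℝ) * N := by
      rw [Nat.add_sub_cancel]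
      exact_mod_cast g0
    have g2 : (((J + 1 - 1 : ℕ) : ℝ)) ^ 2 ≤ ((ρ : ℝ) * N) ^ 2 :=
      pow_le_pow_left₀ (Nat.cast_nonneg _) g1 2
    have g3 : ((ρ : ℝ) * N) ^ 2 * δ = (ρ : ℝ) ^ 2 * (8192 * ((ρ * N : ℕ) : ℝ) / W) +
        80 * (ρ : ℝ) ^ 2 * θ := by
      rw [hδ]
      field_simp
    have g4 : (ρ : ℝ) ^ 2 * (8192 * ((ρ * N : ℕ) : ℝ) / W) ≤ 1 / 2 := by
      have g5 : 16384 * ρ ^ 2 * (ρ * N) ≤ W := by
        refine le_trans ?_ h5
        apply Nat.mul_le_mul_right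
        have : 4 ≤ ρ ^ 2 := by nlinarith
        calc 16384 * ρ ^ 2 = 4096 * (4 * ρ ^ 2) := by ring
          _ ≤ 4096 * (ρ ^ 2 * ρ ^ 2) := by
              apply Nat.mul_le_mul_left
              exact Nat.mul_le_mul_right _ this
          _ = 4096 * ρ ^ 4 := by ring
      have g6 : 16384 * (ρ : ℝ) ^ 2 * ((ρ * N : ℕ) : ℝ) ≤ (W : ℝ) := by exact_mod_cast g5
      rw [← mul_div_assoc, div_le_iff₀ hWr]
      linarith
    calc (((J + 1 - 1 : ℕ) : ℝ)) ^ 2 * δ ≤ ((ρ : ℝ) * N) ^ 2 * δ :=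
          mul_le_mul_of_nonneg_right g2 hδ0
      _ ≤ 1 := by rw [g3]; linarith
  rw [div_le_iff₀ (by positivity)]
  have hfin : ε / 2 * M ^ 2 ≥ 2 * M := by
    have : 4 ≤ ε * M := by
      rw [div_le_iff₀ hε] at hMlow
      linarith
    nlinarith
  linarith

/-- the probability that a system is bad -/
lemma bad_le (ε : ℝ) (hε : 0 < ε) (hε1 : ε ≤ 1) (k B d ρ J W l l' : ℕ) (hk : 1 ≤ k) (hρ : 2 ≤ ρ)
    (hd : 2 ≤ d) (hc : Nat.Coprime d k) [NeZero d]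
    (h1 : 65536 * ρ ^ 5 ≤ 2 * B) (h2 : k ≤ 2 * B) (h3 : J * k + 2 * B ≤ ρ * (2 * B))
    (h4 : ρ * (2 * B) ≤ (J + 1) * k + 2 * B) (hJ : J ≤ d / (2 * k))
    (hA : d / (2 * k) < d / k) (hM : 1 < d / k) (hW : 1 ≤ W) (hkW : k * W ≤ d) (hWd : W < d)
    (h5 : 4096 * ρ ^ 4 * (ρ * (2 * B)) ≤ W)
    (h6 : 1600000 * (ρ : ℝ) ^ 3 * (1 + Real.log W) ≤ 2 * B)
    (h8 : l * (12288 * ρ ^ 5 * (2 * B)) + ρ * (2 * B) ≤ W)
    (h9 : l' * (12288 * ρ ^ 5 * (2 * B)) + 1 + d / (2 * k) ≤ d / k)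
    (h10 : ((ρ : ℝ) * (2 * B)) ^ 2 * (1 - 512 * (ρ : ℝ) ^ 3 / ((2 * B : ℕ) : ℝ)) ^ l ≤ ε / 4)
    (h11 : ((d / (2 * k) : ℕ) : ℝ) * (1 - 512 * (ρ : ℝ) ^ 3 / ((2 * B : ℕ) : ℝ)) ^ l' ≤ ε / 4)
    (h7 : 4 / ε ≤ Real.log ((ρ : ℝ) / 2) / (2 * k)) :
    Ex (2 * B) (fun ω : ZMod d → Fin (2 * B) =>
      if ¬ Absorbed (d + k) d (d / (2 * k)) (rOf d (2 * B) ω) then (1 : ℝ) else 0) ≤ ε := by
  have hB : 0 < B := by
    rcases Nat.eq_zero_or_pos B with h | h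
    · subst h
      have : 1 ≤ ρ ^ 5 := Nat.one_le_pow _ _ (by omega)
      omega
    · exact h
  have hN : 0 < 2 * B := by omega
  have hjk : ∀ j : ℕ, 1 ≤ j → 1 ≤ j * k := fun j hj => Nat.mul_le_mul hj hk
  have hv : ∀ j : ℕ, 1 ≤ j → j ≤ J → (j * k - 1) + 2 * B ≤ ρ * (2 * B) := by
    intro j _ hj
    have : j * k ≤ J * k := Nat.mul_le_mul_right k hj
    omega
  have hv0 : 0 + 2 * B ≤ ρ * (2 * B) := by nlinarith
  set M : ℕ := d / k with hMdef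
  set A : ℕ := d / (2 * k) with hAdef
  have hkM : k * M ≤ d := Nat.mul_div_le d k
  have hMd : M ≤ d := Nat.div_le_self d k
  set q : ℝ := 1 - 512 * (ρ : ℝ) ^ 3 / ((2 * B : ℕ) : ℝ) with hq
  -- the coordinates of the sites
  set e : ℤ → ZMod d := fun x => (((k : ℤ) * (0 - x) : ℤ) : ZMod d) with he
  set e' : ℤ → ZMod d := fun x => (((k : ℤ) * ((M : ℤ) - x) : ℤ) : ZMod d) with he'
  have hWd' : (W : ℤ) < d := by exact_mod_cast hWd
  have hMd' : (M : ℤ) ≤ d := by exact_mod_cast hMd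
  have heinj : ∀ x y : ℤ, 1 ≤ x → x ≤ W → 1 ≤ y → y ≤ W → e x = e y → x = y := by
    intro x y hx1 hx2 hy1 hy2 hxy
    exact tau_inj k d hd hc 0 x y (by rw [abs_lt]; constructor <;> omega) hxy
  have heinj' : ∀ x y : ℤ, 1 ≤ x → x ≤ (M : ℤ) - 1 → 1 ≤ y → y ≤ (M : ℤ) - 1 → e' x = e' y →
      x = y := by
    intro x y hx1 hx2 hy1 hy2 hxy
    exact tau_inj k d hd hc M x y (by rw [abs_lt]; constructor <;> omega) hxy
  -- the three kinds of failure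
  have hdet : ∀ ω : ZMod d → Fin (2 * B),
      (∀ a ∈ Icc 1 A, meet 1 0 (fun x => (ω (e' x) : ℕ)) ((M : ℤ) - (a : ℤ)) ((M : ℤ) - 1)) →
      (∀ j ∈ Icc 1 J, ∀ i ∈ range (ρ * (2 * B)),
        meet 1 (j * k - 1) (fun x => (ω (e x) : ℕ)) ((W : ℤ) - (i : ℤ)) W) →
      (∃ j : ℕ, 1 ≤ j ∧ j ≤ J ∧ hit (j * k - 1) (fun x => (ω (e x) : ℕ)) W) →
      Absorbed (d + k) d A (rOf d (2 * B) ω) := by
    intro ω g1 g2 g3
    have hτ0 : ∀ x : ℤ, tau k d (2 * B) ω (-x) = (ω (e x) : ℕ) := by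
      intro x
      simp only [tau, he, zero_sub]
    have hτM : ∀ x : ℤ, tau k d (2 * B) ω ((M : ℤ) - x) = (ω (e' x) : ℕ) := by
      intro x
      simp only [tau, he']
    have := dyn k d (2 * B) J A (M : ℤ) (W : ℤ) ((ρ * (2 * B) : ℕ) : ℤ) hk (by omega)
      (tau k d (2 * B) ω) (fun n => tau_lt k d (2 * B) ω n)
      (fun n j => tau_per k d (2 * B) ω n j) (Umap (d + k) d (rOf d (2 * B) ω))
      (fun n hn hnd => Umap_rOf k d (2 * B) hd hc ω n hn hnd)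
      (fun j => Umap_mul (d + k) d hd _ j) (by exact_mod_cast hkM) hMd' (by exact_mod_cast hA)
      (by exact_mod_cast hM) hJ (by exact_mod_cast h3) (by
        have : 1 ≤ ρ * (2 * B) := Nat.mul_le_mul (show 1 ≤ ρ by omega) (show 1 ≤ 2 * B by omega)
        exact_mod_cast this) (by
        have : ρ * (2 * B) ≤ W := by omega
        exact_mod_cast this) (by exact_mod_cast hkW) hWd' (by
        intro a ha1 ha2
        obtain ⟨a', rfl⟩ : ∃ a' : ℕ, a = (a' : ℤ) := ⟨a.toNat, by omega⟩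
        have := g1 a' (by rw [mem_Icc]; omega)
        simp only [hτM]
        exact this) (by
        intro j hj1 hj2 s hs1 hs2
        obtain ⟨i, hi⟩ : ∃ i : ℕ, s = (W : ℤ) - (i : ℤ) := ⟨((W : ℤ) - s).toNat, by omega⟩
        subst hi
        have := g2 j (by rw [mem_Icc]; omega) i (by rw [mem_range]; omega)
        simp only [hτ0]
        exact this) (by
        obtain ⟨j, hj1, hj2, hj3⟩ := g3
        refine ⟨j, hj1, hj2, ?_⟩
        simp only [hτ0]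
        exact hj3)
    exact this
  set X1 : (ZMod d → Fin (2 * B)) → ℝ := fun ω => ∑ a ∈ Icc 1 A,
    (if meet 1 0 (fun x => (ω (e' x) : ℕ)) ((M : ℤ) - (a : ℤ)) ((M : ℤ) - 1) then (0 : ℝ) else 1)
    with hX1
  set X2 : (ZMod d → Fin (2 * B)) → ℝ := fun ω => ∑ p ∈ (Icc 1 J) ×ˢ (range (ρ * (2 * B))),
    (if meet 1 (p.1 * k - 1) (fun x => (ω (e x) : ℕ)) ((W : ℤ) - (p.2 : ℤ)) W then (0 : ℝ) else 1)
    with hX2
  set X3 : (ZMod d → Fin (2 * B)) → ℝ := fun ω =>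
    if ∃ j : ℕ, 1 ≤ j ∧ j ≤ J ∧ hit (j * k - 1) (fun x => (ω (e x) : ℕ)) W then (0 : ℝ) else 1
    with hX3
  have hle : ∀ ω, (if ¬ Absorbed (d + k) d A (rOf d (2 * B) ω) then (1 : ℝ) else 0) ≤
      X1 ω + (X2 ω + X3 ω) := by
    intro ω
    have p1 : 0 ≤ X1 ω := sum_nonneg (fun a _ => by split_ifs <;> norm_num)
    have p2 : 0 ≤ X2 ω := sum_nonneg (fun a _ => by split_ifs <;> norm_num)
    have p3 : 0 ≤ X3 ω := by simp only [hX3]; split_ifs <;> norm_num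
    by_cases g1 : ∀ a ∈ Icc 1 A,
        meet 1 0 (fun x => (ω (e' x) : ℕ)) ((M : ℤ) - (a : ℤ)) ((M : ℤ) - 1)
    · by_cases g2 : ∀ j ∈ Icc 1 J, ∀ i ∈ range (ρ * (2 * B)),
          meet 1 (j * k - 1) (fun x => (ω (e x) : ℕ)) ((W : ℤ) - (i : ℤ)) W
      · by_cases g3 : ∃ j : ℕ, 1 ≤ j ∧ j ≤ J ∧ hit (j * k - 1) (fun x => (ω (e x) : ℕ)) W
        · rw [if_neg (not_not.mpr (hdet ω g1 g2 g3))]
          linarith
        · have : X3 ω = 1 := by simp only [hX3]; rw [if_neg g3]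
          split_ifs <;> linarith
      · push Not at g2
        obtain ⟨j, hj, i, hi, hji⟩ := g2
        have : (1 : ℝ) ≤ X2 ω := by
          have hsingle := single_le_sum (f := fun p : ℕ × ℕ =>
            (if meet 1 (p.1 * k - 1) (fun x => (ω (e x) : ℕ)) ((W : ℤ) - (p.2 : ℤ)) W
              then (0 : ℝ) else 1)) (fun p _ => by split_ifs <;> norm_num)
              (mem_product.mpr ⟨hj, hi⟩ : (j, i) ∈ (Icc 1 J) ×ˢ (range (ρ * (2 * B))))
          simp only [if_neg hji] at hsingle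
          exact hsingle
        split_ifs <;> linarith
    · push Not at g1
      obtain ⟨a, ha, hna⟩ := g1
      have : (1 : ℝ) ≤ X1 ω := by
        have hsingle := single_le_sum (f := fun a : ℕ =>
          (if meet 1 0 (fun x => (ω (e' x) : ℕ)) ((M : ℤ) - (a : ℤ)) ((M : ℤ) - 1)
            then (0 : ℝ) else 1)) (fun p _ => by split_ifs <;> norm_num) ha
        simp only [if_neg hna] at hsingle
        exact hsingle
      split_ifs <;> linarith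
  refine (Ex_mono (2 * B) hle).trans ?_
  rw [Ex_add (2 * B) X1 (fun ω => X2 ω + X3 ω), Ex_add (2 * B) X2 X3]
  -- first kind
  have q0 : 0 ≤ q := by
    rw [hq, sub_nonneg, div_le_one (by exact_mod_cast hN)]
    have h12 : 512 * ρ ^ 3 ≤ 65536 * ρ ^ 5 := by
      have : ρ ^ 3 ≤ ρ ^ 5 := Nat.pow_le_pow_right (by omega) (by norm_num)
      omega
    exact_mod_cast h12.trans h1
  have b1 : Ex (2 * B) X1 ≤ ε / 4 := by
    rw [hX1, Ex_sum (2 * B) (Icc 1 A) (fun a ω =>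
      (if meet 1 0 (fun x => (ω (e' x) : ℕ)) ((M : ℤ) - (a : ℤ)) ((M : ℤ) - 1)
        then (0 : ℝ) else 1))]
    have hb : ∀ a ∈ Icc 1 A, Ex (2 * B) (fun ω : ZMod d → Fin (2 * B) =>
        (if meet 1 0 (fun x => (ω (e' x) : ℕ)) ((M : ℤ) - (a : ℤ)) ((M : ℤ) - 1)
        then (0 : ℝ) else 1)) ≤ q ^ l' := by
      intro a ha
      rw [mem_Icc] at ha
      rw [Ex_meet (2 * B) hN e' ((M : ℤ) - 1) heinj' 1 (le_refl _) 0 _ _ (by omega) (le_refl _)]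
      have h9' : (l' : ℤ) * (12288 * (ρ : ℤ) ^ 5 * (2 * B)) + 1 + A ≤ M := by exact_mod_cast h9
      have hA1 : (a : ℤ) ≤ A := by exact_mod_cast ha.2
      have ha1 : (1 : ℤ) ≤ a := by exact_mod_cast ha.1
      have hr : (l' : ℤ) * (3 * (4096 * (ρ : ℤ) ^ 5 * (2 * B))) =
        (l' : ℤ) * (12288 * (ρ : ℤ) ^ 5 * (2 * B)) := by ring
      apply Q_iter 1 0 B ρ hB (by omega) hv0 h1 l'
      · rw [hr]; omega
      · rw [hr]; omega
    refine (sum_le_sum hb).trans ?_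
    rw [sum_const, Nat.card_Icc, Nat.add_sub_cancel, nsmul_eq_mul]
    exact h11
  have b2 : Ex (2 * B) X2 ≤ ε / 4 := by
    rw [hX2, Ex_sum (2 * B) ((Icc 1 J) ×ˢ (range (ρ * (2 * B)))) (fun p ω =>
      (if meet 1 (p.1 * k - 1) (fun x => (ω (e x) : ℕ)) ((W : ℤ) - (p.2 : ℤ)) W
        then (0 : ℝ) else 1))]
    have hb : ∀ p ∈ (Icc 1 J) ×ˢ (range (ρ * (2 * B))),
        Ex (2 * B) (fun ω : ZMod d → Fin (2 * B) =>
        (if meet 1 (p.1 * k - 1) (fun x => (ω (e x) : ℕ)) ((W : ℤ) - (p.2 : ℤ)) W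
        then (0 : ℝ) else 1)) ≤ q ^ l := by
      intro p hp
      rw [mem_product, mem_Icc, mem_range] at hp
      rw [Ex_meet (2 * B) hN e W heinj 1 (le_refl _) (p.1 * k - 1) _ _ (by omega) (le_refl _)]
      have h8' : (l : ℤ) * (12288 * (ρ : ℤ) ^ 5 * (2 * B)) + (ρ : ℤ) * (2 * B) ≤ W := by
        exact_mod_cast h8
      have hp2 : (p.2 : ℤ) + 1 ≤ (ρ : ℤ) * (2 * B) := by exact_mod_cast hp.2
      have hr : (l : ℤ) * (3 * (4096 * (ρ : ℤ) ^ 5 * (2 * B))) =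
        (l : ℤ) * (12288 * (ρ : ℤ) ^ 5 * (2 * B)) := by ring
      apply Q_iter 1 (p.1 * k - 1) B ρ hB (by omega) (hv p.1 hp.1.1 hp.1.2) h1 l
      · rw [hr]; omega
      · rw [hr]; omega
    refine (sum_le_sum hb).trans ?_
    rw [sum_const, card_product, Nat.card_Icc, Nat.add_sub_cancel, card_range, nsmul_eq_mul]
    refine le_trans ?_ h10
    apply mul_le_mul_of_nonneg_right _ (pow_nonneg q0 _)
    have g0 : J ≤ ρ * (2 * B) := by
      have : J * 1 ≤ J * k := Nat.mul_le_mul_left J hk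
      omega
    have g1 : J * (ρ * (2 * B)) ≤ (ρ * (2 * B)) ^ 2 := by
      rw [pow_two]
      exact Nat.mul_le_mul_right _ g0
    have g2 : ((J * (ρ * (2 * B)) : ℕ) : ℝ) ≤ (((ρ * (2 * B)) ^ 2 : ℕ) : ℝ) := by exact_mod_cast g1
    refine g2.trans (le_of_eq ?_)
    push_cast
    ring
  have b3 : Ex (2 * B) X3 ≤ ε / 2 :=
    nohit_le ε hε hε1 k B ρ J W hk hρ h1 h2 h3 h4 hW h5 h6 h7 e heinj
  linarith

end SC4
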