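import Pool.Agent.Helper4.SC.Grad

/-!
# SC-6: `H` is nearly constant

`N = 2 * B`, `v + N ≤ R`.

`diff_le` (`z ≥ 32 R`, `i ≤ R`): telescoping, every point `y` in `(z - i, z]` has `y ≥ z - R ≥ z / 2`
and `y ≥ 16 R`, so by `grad` every difference is at most `(16/N^2) √(R/y) ≤ (32/N^2) √(R/z)`.

`near_mu`: by `renewal` and `sum_wt`, `∑_{i<v+N} wt i (H (z-i) - H z) = 1 - μ H z`, so
`|1 - μ H z| ≤ ∑ wt i * i * (32/N^2) √(R/z) ≤ μ R (32/N^2) √(R/z)`; divide by `μ > 0`.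

`H_lower`: `R = ρ N`, `z ≥ 4096 ρ^4 R`: `√(R/z) ≤ 1/(64 ρ^2)`, so `|H z - 1/μ| ≤ 32 R /(N^2 64 ρ^2)
= 1/(2 R) ≤ 1/(2 μ)`, because `μ = v + (N+1)/2 ≤ v + N ≤ R`.
`H_lower'`: `1/(2R) ≤ 1/(2μ)`.
-/

set_option autoImplicit false

namespace SC4

open Finset

lemma mu_pos (v N : ℕ) : 0 < mu v N := by
  unfold mu
  positivity

lemma mu_le (v N R : ℕ) (hN : 0 < N) (hR : v + N ≤ R) : mu v N ≤ R := by
  unfold mu
  have h1 : (1 : ℝ) ≤ (N : ℝ) := by exact_mod_cast hN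
  have h2 : (v : ℝ) + N ≤ R := by exact_mod_cast hR
  linarith

lemma diff_le (v B : ℕ) (hB : 0 < B) (R : ℕ) (hR : v + 2 * B ≤ R) (z : ℤ) (hz : 32 * (R : ℤ) ≤ z)
    (i : ℕ) (hi : i ≤ R) :
    |H v (2 * B) (z - i) - H v (2 * B) z| ≤
      i * (32 / ((2 * B : ℕ) : ℝ) ^ 2 * Real.sqrt ((R : ℝ) / (z : ℝ))) := by
  have hRp : (0 : ℤ) < (R : ℤ) := by exact_mod_cast (by omega : 0 < R)
  induction i with
  | zero => simp
  | succ i ih =>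
    have ih' := ih (by omega)
    have hi' : (i : ℤ) + 1 ≤ (R : ℤ) := by exact_mod_cast hi
    have g := grad v B hB R hR (z - i) (by linarith)
    have e1 : z - ((i + 1 : ℕ) : ℤ) = z - i - 1 := by push_cast; ring
    rw [e1]
    have hs : Real.sqrt ((R : ℝ) / ((z - i : ℤ) : ℝ)) ≤ 2 * Real.sqrt ((R : ℝ) / (z : ℝ)) := by
      have h7 : 2 * Real.sqrt ((R : ℝ) / (z : ℝ)) = Real.sqrt (4 * ((R : ℝ) / (z : ℝ))) := by
        rw [Real.sqrt_mul (by norm_num), show (4 : ℝ) = 2 ^ 2 by norm_num,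
          Real.sqrt_sq (by norm_num)]
      rw [h7]
      apply Real.sqrt_le_sqrt
      have hz0 : (0 : ℝ) < (z : ℝ) := by exact_mod_cast (by linarith : (0 : ℤ) < z)
      have hzi : (0 : ℝ) < ((z - i : ℤ) : ℝ) := by exact_mod_cast (by linarith : (0 : ℤ) < z - i)
      have hR0 : (0 : ℝ) ≤ (R : ℝ) := Nat.cast_nonneg R
      have hq : (z : ℝ) ≤ 4 * ((z - i : ℤ) : ℝ) := by
        exact_mod_cast (by linarith : z ≤ 4 * (z - i))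
      rw [← mul_div_assoc, div_le_div_iff₀ hzi hz0]
      nlinarith
    have hc : (0 : ℝ) ≤ 16 / ((2 * B : ℕ) : ℝ) ^ 2 := by positivity
    have g2 := g.trans (mul_le_mul_of_nonneg_left hs hc)
    have t := abs_sub_le (H v (2 * B) (z - i - 1)) (H v (2 * B) (z - i)) (H v (2 * B) z)
    rw [abs_sub_comm (H v (2 * B) (z - i - 1)) (H v (2 * B) (z - i))] at t
    push_cast
    have e2 : ((i : ℝ) + 1) * (32 / (2 * (B : ℝ)) ^ 2 * Real.sqrt ((R : ℝ) / (z : ℝ))) =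
        (i : ℝ) * (32 / (2 * (B : ℝ)) ^ 2 * Real.sqrt ((R : ℝ) / (z : ℝ))) +
        16 / (2 * (B : ℝ)) ^ 2 * (2 * Real.sqrt ((R : ℝ) / (z : ℝ))) := by ring
    rw [e2]
    push_cast at g2 ih'
    linarith

lemma near_mu (v B : ℕ) (hB : 0 < B) (R : ℕ) (hR : v + 2 * B ≤ R) (z : ℤ)
    (hz : 32 * (R : ℤ) ≤ z) :
    |H v (2 * B) z - 1 / mu v (2 * B)| ≤
      R * (32 / ((2 * B : ℕ) : ℝ) ^ 2 * Real.sqrt ((R : ℝ) / (z : ℝ))) := by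
  have hRp : (0 : ℤ) < (R : ℤ) := by exact_mod_cast (by omega : 0 < R)
  have hN : 0 < 2 * B := by omega
  have hm := mu_pos v (2 * B)
  obtain ⟨K, hK⟩ : ∃ K : ℝ, K = 32 / ((2 * B : ℕ) : ℝ) ^ 2 * Real.sqrt ((R : ℝ) / (z : ℝ)) :=
    ⟨_, rfl⟩
  have hK0 : 0 ≤ K := by rw [hK]; positivity
  rw [← hK]
  have r1 := renewal v (2 * B) hN (z := z) (by linarith)
  have r2 := sum_wt v (2 * B) hN
  have e1 : 1 - mu v (2 * B) * H v (2 * B) z =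
      ∑ i ∈ range (v + 2 * B), wt v (2 * B) i * (H v (2 * B) (z - i) - H v (2 * B) z) := by
    simp only [mul_sub]
    rw [sum_sub_distrib, r1, ← sum_mul, r2]
  have b1 : |1 - mu v (2 * B) * H v (2 * B) z| ≤ mu v (2 * B) * (R * K) := by
    rw [e1, ← r2, sum_mul]
    refine (abs_sum_le_sum_abs _ _).trans (sum_le_sum fun i hi => ?_)
    have hi' := mem_range.mp hi
    rw [abs_mul, abs_of_nonneg (wt_nonneg v (2 * B) i)]
    apply mul_le_mul_of_nonneg_left _ (wt_nonneg v (2 * B) i)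
    have d := diff_le v B hB R hR z hz i (by omega)
    rw [← hK] at d
    refine d.trans (mul_le_mul_of_nonneg_right ?_ hK0)
    exact_mod_cast (by omega : i ≤ R)
  have e2 : H v (2 * B) z - 1 / mu v (2 * B) =
      -((1 - mu v (2 * B) * H v (2 * B) z) / mu v (2 * B)) := by
    field_simp
    ring
  rw [e2, abs_neg, abs_div, abs_of_pos hm, div_le_iff₀ hm]
  linarith

lemma H_lower (v B ρ : ℕ) (hB : 0 < B) (hρ : 1 ≤ ρ) (hR : v + 2 * B ≤ ρ * (2 * B)) (z : ℤ)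
    (hz : 4096 * (ρ : ℤ) ^ 4 * (ρ * (2 * B) : ℤ) ≤ z) :
    1 / (2 * mu v (2 * B)) ≤ H v (2 * B) z := by
  have hN : 0 < 2 * B := by omega
  have hm := mu_pos v (2 * B)
  have hml := mu_le v (2 * B) (ρ * (2 * B)) hN hR
  have hρ1 : (1 : ℤ) ≤ (ρ : ℤ) := by exact_mod_cast hρ
  have hρ4 : (1 : ℤ) ≤ (ρ : ℤ) ^ 4 := one_le_pow₀ hρ1
  have hRz : (0 : ℤ) ≤ ((ρ * (2 * B) : ℕ) : ℤ) := Nat.cast_nonneg _
  have eR : ((ρ * (2 * B) : ℕ) : ℤ) = (ρ : ℤ) * (2 * B) := by push_cast; ring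
  have hz1 : 4096 * (ρ : ℤ) ^ 4 * ((ρ * (2 * B) : ℕ) : ℤ) ≤ z := by rw [eR]; exact hz
  have hz32 : 32 * ((ρ * (2 * B) : ℕ) : ℤ) ≤ z := by
    have h : 32 * ((ρ * (2 * B) : ℕ) : ℤ) ≤ 4096 * (ρ : ℤ) ^ 4 * ((ρ * (2 * B) : ℕ) : ℤ) :=
      mul_le_mul_of_nonneg_right (by linarith) hRz
    linarith
  have nm := near_mu v B hB (ρ * (2 * B)) hR z hz32
  have hRp : 0 < ρ * (2 * B) := Nat.mul_pos (by omega) hN
  have hRr : (0 : ℝ) < ((ρ * (2 * B) : ℕ) : ℝ) := by exact_mod_cast hRp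
  have hρr : (0 : ℝ) < (ρ : ℝ) := by exact_mod_cast (by omega : 0 < ρ)
  have hBr : (0 : ℝ) < (B : ℝ) := by exact_mod_cast hB
  have hzp : (0 : ℝ) < (z : ℝ) := by
    have : (0 : ℤ) < z := by
      have : (0 : ℤ) < ((ρ * (2 * B) : ℕ) : ℤ) := by exact_mod_cast hRp
      linarith
    exact_mod_cast this
  have hs : Real.sqrt ((((ρ * (2 * B) : ℕ)) : ℝ) / (z : ℝ)) ≤ 1 / (64 * (ρ : ℝ) ^ 2) := by
    have h1 : (((ρ * (2 * B) : ℕ)) : ℝ) / (z : ℝ) ≤ (1 / (64 * (ρ : ℝ) ^ 2)) ^ 2 := by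
      rw [div_pow, div_le_div_iff₀ hzp (by positivity)]
      have h2 : 4096 * (ρ : ℝ) ^ 4 * ((ρ * (2 * B) : ℕ) : ℝ) ≤ (z : ℝ) := by exact_mod_cast hz1
      have e : (((ρ * (2 * B) : ℕ)) : ℝ) * (64 * (ρ : ℝ) ^ 2) ^ 2 =
          4096 * (ρ : ℝ) ^ 4 * ((ρ * (2 * B) : ℕ) : ℝ) := by ring
      rw [e]
      linarith
    calc Real.sqrt ((((ρ * (2 * B) : ℕ)) : ℝ) / (z : ℝ))
        ≤ Real.sqrt ((1 / (64 * (ρ : ℝ) ^ 2)) ^ 2) := Real.sqrt_le_sqrt h1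
      _ = 1 / (64 * (ρ : ℝ) ^ 2) := Real.sqrt_sq (by positivity)
  have hb : ((ρ * (2 * B) : ℕ) : ℝ) * (32 / ((2 * B : ℕ) : ℝ) ^ 2 *
      Real.sqrt ((((ρ * (2 * B) : ℕ)) : ℝ) / (z : ℝ))) ≤ 1 / (2 * ((ρ * (2 * B) : ℕ) : ℝ)) := by
    have h3 : 32 / ((2 * B : ℕ) : ℝ) ^ 2 * Real.sqrt ((((ρ * (2 * B) : ℕ)) : ℝ) / (z : ℝ)) ≤
        32 / ((2 * B : ℕ) : ℝ) ^ 2 * (1 / (64 * (ρ : ℝ) ^ 2)) :=
      mul_le_mul_of_nonneg_left hs (by positivity)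
    refine (mul_le_mul_of_nonneg_left h3 hRr.le).trans (le_of_eq ?_)
    push_cast
    field_simp
    ring
  have hc : 1 / (2 * ((ρ * (2 * B) : ℕ) : ℝ)) ≤ 1 / (2 * mu v (2 * B)) :=
    one_div_le_one_div_of_le (by linarith) (by linarith)
  have hd : 1 / mu v (2 * B) = 1 / (2 * mu v (2 * B)) + 1 / (2 * mu v (2 * B)) := by
    field_simp
    ring
  have := (abs_le.mp (nm.trans hb)).1
  linarith

lemma H_lower' (v B ρ : ℕ) (hB : 0 < B) (hρ : 1 ≤ ρ) (hR : v + 2 * B ≤ ρ * (2 * B)) (z : ℤ)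
    (hz : 4096 * (ρ : ℤ) ^ 4 * (ρ * (2 * B) : ℤ) ≤ z) :
    1 / (2 * ((ρ * (2 * B) : ℕ) : ℝ)) ≤ H v (2 * B) z := by
  have hN : 0 < 2 * B := by omega
  have hm := mu_pos v (2 * B)
  have hml := mu_le v (2 * B) (ρ * (2 * B)) hN hR
  refine le_trans ?_ (H_lower v B ρ hB hρ hR z hz)
  exact one_div_le_one_div_of_le (by linarith) (by linarith)

end SC4
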