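import Mathlib

/-!
# SC-19: the choice of the parameters

Let `N = 2B`, `T = N^(1/10)`, `S = d^(1/30)` (real powers), so `N = T^10`, `d = S^30`, `S ≥ T` and
`T ≥ exp(8 k/ε) ≥ exp 8 ≥ 2980`; `k ≤ T`, `1/ε ≤ T` (`k/ε ≤ exp(k/ε)`). Take
`ρ = ⌈2 exp(8k/ε)⌉` (`2 ≤ ρ ≤ 3 T`), `J = (ρ - 1) N / k`, `W = N^3/(2k)`, `l = (W - ρN)/(12288 ρ^5 N)`,
`l' = (d/k - d/(2k) - 1)/(12288 ρ^5 N)` (natural number divisions). Then
 * `65536 ρ^5 ≤ 65536 * 243 T^5 ≤ T^10`;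
 * `log W ≤ 3 log N ≤ 30 T`, so `1600000 ρ^3 (1 + log W) ≤ 1600000 * 27 * 31 T^4 ≤ T^10`;
 * `W ≥ N^3/(2k) - 1 ≥ T^29/2 - 1` is larger than `4096 ρ^5 N ≤ 10^6 T^15`;
 * `log(ρ/2) ≥ 8k/ε`;
 * `(1 - 512ρ^3/N)^l ≤ exp(-512 ρ^3 l/N)` and `512 ρ^3 l/N ≥ (512ρ^3/N)((W - ρN)/(12288 ρ^5 N) - 1)
   ≥ N/(50 k ρ^2) - 3 ≥ T^7/450 - 3`, while `log(4 ρ^2 N^2/ε) ≤ log(36 T^23) ≤ 4 + 23 T`;
 * similarly `512 ρ^3 l'/N ≥ d/(50 k ρ^2 N^2) - 3 ≥ S^7/450 - 3` (`N^2 ≤ S^20`, `k ρ^2 ≤ 9 S^3`), while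
   `log(4 d/ε) ≤ 2 + 31 S`.
The constants have a lot of room; any other choice of the numbers that proves the statement is fine.
-/

set_option autoImplicit false

namespace SC4

private lemma num_pow_le {δ A : ℝ} {n : ℕ} (hδ1 : δ ≤ 1) (hA : 0 < A)
    (h : Real.log A ≤ δ * n) : (1 - δ) ^ n ≤ 1 / A := by
  have h1 : (1 - δ) ^ n ≤ (Real.exp (-δ)) ^ n :=
    pow_le_pow_left₀ (by linarith) (Real.one_sub_le_exp_neg δ) n
  have h2 : (Real.exp (-δ)) ^ n = Real.exp (-(δ * n)) := by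
    rw [← Real.exp_nat_mul]; congr 1; ring
  have h3 : Real.exp (-(δ * n)) ≤ Real.exp (-(Real.log A)) := Real.exp_le_exp.2 (by linarith)
  have h4 : Real.exp (-(Real.log A)) = 1 / A := by
    rw [Real.exp_neg, Real.exp_log hA, one_div]
  linarith

private lemma num_exp8 : (2980 : ℝ) ≤ Real.exp 8 := by
  have h1 : (2.7182818283 : ℝ) < Real.exp 1 := Real.exp_one_gt_d9
  have h2 : Real.exp 8 = (Real.exp 1) ^ 8 := by
    rw [← Real.exp_nat_mul]; norm_num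
  rw [h2]
  calc (2980 : ℝ) ≤ (2.7182818283 : ℝ) ^ 8 := by norm_num
    _ ≤ (Real.exp 1) ^ 8 := pow_le_pow_left₀ (by norm_num) h1.le 8

/-- `log A ≤ δ n` when `n` is the floor of a large quotient -/
private lemma num_floor {ρ N k M n : ℝ} {A T : ℝ} (hT : 2980 ≤ T) (hρ : 2 ≤ ρ) (hρN : 512 * ρ ^ 3 ≤ N)
    (hN : 1 ≤ N)
    (hn : M / (12288 * ρ ^ 5 * N) - 1 ≤ n) (hk : 1 ≤ k) (D : ℝ)
    (hM : D / (2 * k) - 2 - ρ * N ≤ M) (hD : T ^ 7 * (9 * 48) ≤ 432 * (432 * (D / (k * ρ ^ 2 * N ^ 2))))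
    (hA : Real.log A ≤ 4 + 31 * T) :
    Real.log A ≤ 512 * ρ ^ 3 / N * n := by
  have hN0 : 0 < N := by linarith
  have hρ0 : 0 < ρ := by linarith
  have hk0 : 0 < k := by linarith
  have hδ : 0 < 512 * ρ ^ 3 / N := by positivity
  have hδ1 : 512 * ρ ^ 3 / N ≤ 1 := by rw [div_le_one hN0]; exact hρN
  have h1 : 512 * ρ ^ 3 / N * (M / (12288 * ρ ^ 5 * N) - 1) ≤ 512 * ρ ^ 3 / N * n :=
    mul_le_mul_of_nonneg_left hn hδ.le
  have h2 : 512 * ρ ^ 3 / N * (M / (12288 * ρ ^ 5 * N) - 1) =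
      M / (24 * ρ ^ 2 * N ^ 2) - 512 * ρ ^ 3 / N := by
    field_simp
    ring
  have h3 : (D / (2 * k) - 2 - ρ * N) / (24 * ρ ^ 2 * N ^ 2) ≤ M / (24 * ρ ^ 2 * N ^ 2) :=
    div_le_div_of_nonneg_right hM (by positivity)
  have h4 : (D / (2 * k) - 2 - ρ * N) / (24 * ρ ^ 2 * N ^ 2) =
      D / (k * ρ ^ 2 * N ^ 2) / 48 - (2 + ρ * N) / (24 * ρ ^ 2 * N ^ 2) := by
    field_simp
    ring
  have h5 : (2 + ρ * N) / (24 * ρ ^ 2 * N ^ 2) ≤ 1 := by
    rw [div_le_one (by positivity)]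
    have h6 : 1 ≤ ρ * N := by nlinarith
    have h7 : ρ * N ≤ (ρ * N) ^ 2 := by nlinarith
    nlinarith
  have h6 : T * 2980 ^ 6 ≤ T ^ 7 := by
    have : (2980 : ℝ) ^ 6 ≤ T ^ 6 := pow_le_pow_left₀ (by norm_num) hT 6
    calc T * 2980 ^ 6 ≤ T * T ^ 6 := mul_le_mul_of_nonneg_left this (by linarith)
      _ = T ^ 7 := by ring
  have h7 : T ^ 7 / 432 ≤ D / (k * ρ ^ 2 * N ^ 2) := by linarith
  have h8 : T * 2980 ^ 6 / 432 ≤ D / (k * ρ ^ 2 * N ^ 2) := by linarith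
  have h9 : (4 : ℝ) + 31 * T + 3 ≤ T * 2980 ^ 6 / 432 / 48 := by
    have : (100 : ℝ) ≤ 2980 ^ 6 / 432 / 48 := by norm_num
    nlinarith
  linarith

lemma params (ε : ℝ) (hε : 0 < ε) (hε1 : ε ≤ 1) (k B d : ℕ) (hk : 1 ≤ k)
    (hB : Real.exp (80 * k / ε) ≤ 2 * B) (hd : (2 * B) ^ 3 ≤ d) :
    ∃ ρ J W l l' : ℕ, 2 ≤ ρ ∧ 65536 * ρ ^ 5 ≤ 2 * B ∧ k ≤ 2 * B ∧
      J * k + 2 * B ≤ ρ * (2 * B) ∧ ρ * (2 * B) ≤ (J + 1) * k + 2 * B ∧
      J ≤ d / (2 * k) ∧ d / (2 * k) < d / k ∧ 1 < d / k ∧ 1 ≤ W ∧ k * W ≤ d ∧ W < d ∧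
      4096 * ρ ^ 4 * (ρ * (2 * B)) ≤ W ∧
      1600000 * (ρ : ℝ) ^ 3 * (1 + Real.log W) ≤ 2 * B ∧
      l * (12288 * ρ ^ 5 * (2 * B)) + ρ * (2 * B) ≤ W ∧
      l' * (12288 * ρ ^ 5 * (2 * B)) + 1 + d / (2 * k) ≤ d / k ∧
      ((ρ : ℝ) * (2 * B)) ^ 2 * (1 - 512 * (ρ : ℝ) ^ 3 / ((2 * B : ℕ) : ℝ)) ^ l ≤ ε / 4 ∧
      ((d / (2 * k) : ℕ) : ℝ) * (1 - 512 * (ρ : ℝ) ^ 3 / ((2 * B : ℕ) : ℝ)) ^ l' ≤ ε / 4 ∧
      4 / ε ≤ Real.log ((ρ : ℝ) / 2) / (2 * k) := by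
  have hkR : (1 : ℝ) ≤ k := by exact_mod_cast hk
  have hkε : (1 : ℝ) ≤ k / ε := by
    rw [le_div_iff₀ hε]; linarith
  set E : ℝ := Real.exp (8 * k / ε) with hE
  have hE8 : 8 * (k : ℝ) / ε = 8 * (k / ε) := by ring
  have hE1 : (2980 : ℝ) ≤ E := by
    refine num_exp8.trans (Real.exp_le_exp.2 ?_)
    rw [hE8]; linarith
  have hEk : (k : ℝ) / ε ≤ E := by
    have := Real.add_one_le_exp (8 * (k : ℝ) / ε)
    rw [hE8] at this
    rw [hE, hE8]; linarith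
  -- `T`
  set Nr : ℝ := ((2 * B : ℕ) : ℝ) with hNr
  have hNr2 : Nr = 2 * (B : ℝ) := by rw [hNr]; push_cast; ring
  have hEN : E ^ 10 ≤ Nr := by
    rw [hNr2]
    refine le_trans (le_of_eq ?_) hB
    rw [hE, ← Real.exp_nat_mul]
    congr 1
    push_cast
    ring
  have hN0 : 0 < Nr := lt_of_lt_of_le (by positivity) hEN
  obtain ⟨T, hT0, hT10⟩ : ∃ T : ℝ, 0 ≤ T ∧ T ^ 10 = Nr := by
    refine ⟨Nr ^ ((1 : ℝ) / 10), by positivity, ?_⟩
    rw [← Real.rpow_natCast, ← Real.rpow_mul hN0.le]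
    norm_num
  obtain ⟨S, hS0, hS30⟩ : ∃ S : ℝ, 0 ≤ S ∧ S ^ 30 = (d : ℝ) := by
    refine ⟨(d : ℝ) ^ ((1 : ℝ) / 30), by positivity, ?_⟩
    rw [← Real.rpow_natCast, ← Real.rpow_mul (by positivity)]
    norm_num
  have hET : E ≤ T := by
    by_contra h
    rw [not_le] at h
    have : T ^ 10 < E ^ 10 := pow_lt_pow_left₀ h hT0 (by norm_num)
    linarith
  have hdR : Nr ^ 3 ≤ (d : ℝ) := by
    rw [hNr]; exact_mod_cast hd
  have hTS : T ≤ S := by
    by_contra h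
    rw [not_le] at h
    have h1 : S ^ 30 < T ^ 30 := pow_lt_pow_left₀ h hS0 (by norm_num)
    have h2 : T ^ 30 = Nr ^ 3 := by rw [← hT10]; ring
    linarith
  have hT : (2980 : ℝ) ≤ T := hE1.trans hET
  have hS : (2980 : ℝ) ≤ S := hT.trans hTS
  have hkT : (k : ℝ) ≤ T := by
    have : (k : ℝ) ≤ k / ε := by
      rw [le_div_iff₀ hε]; nlinarith
    linarith
  have hεT : 1 / ε ≤ T := by
    have : 1 / ε ≤ k / ε := div_le_div_of_nonneg_right hkR hε.le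
    linarith
  -- `ρ`
  set ρ : ℕ := ⌈2 * E⌉₊ with hρ
  have hρ1 : 2 * E ≤ (ρ : ℝ) := Nat.le_ceil _
  have hρ2 : (ρ : ℝ) < 2 * E + 1 := Nat.ceil_lt_add_one (by positivity)
  have hρT : (ρ : ℝ) ≤ 3 * T := by linarith
  have hρR : (2 : ℝ) ≤ ρ := by linarith
  have hρN : 2 ≤ ρ := by exact_mod_cast hρR
  have hρp : ∀ n : ℕ, (ρ : ℝ) ^ n ≤ 3 ^ n * T ^ n := by
    intro n
    rw [← mul_pow]
    exact pow_le_pow_left₀ (by positivity) hρT n
  have hT1 : (1 : ℝ) ≤ T := by linarith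
  have hpw : ∀ a b : ℕ, a ≤ b → T ^ a ≤ T ^ b := fun a b hab => pow_le_pow_right₀ hT1 hab
  have hbig : ∀ a b : ℕ, a + 3 ≤ b → 26463592000 * T ^ a ≤ T ^ b := by
    intro a b hab
    have h1 : (26463592000 : ℝ) ≤ T ^ 3 := by
      calc (26463592000 : ℝ) = 2980 ^ 3 := by norm_num
        _ ≤ T ^ 3 := pow_le_pow_left₀ (by norm_num) hT 3
    calc 26463592000 * T ^ a ≤ T ^ 3 * T ^ a := mul_le_mul_of_nonneg_right h1 (by positivity)
      _ = T ^ (a + 3) := by ring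
      _ ≤ T ^ b := hpw _ _ hab
  have hc1 : 65536 * (ρ : ℝ) ^ 5 ≤ Nr := by
    have h1 := hρp 5
    have h2 := hbig 5 10 (by norm_num)
    rw [← hT10]
    have h3 : (0 : ℝ) ≤ T ^ 5 := by positivity
    nlinarith
  have hc1N : 65536 * ρ ^ 5 ≤ 2 * B := by
    rw [hNr] at hc1; exact_mod_cast hc1
  have hkN : k ≤ 2 * B := by
    have h1 : (k : ℝ) ≤ Nr := by
      rw [← hT10]
      calc (k : ℝ) ≤ T ^ 1 := by simpa using hkT
        _ ≤ T ^ 10 := hpw _ _ (by norm_num)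
    rw [hNr] at h1; exact_mod_cast h1
  have hNpos : 0 < 2 * B := by
    rw [hNr] at hN0; exact_mod_cast hN0
  have hkpos : 0 < k := hk
  have hBsq : (2 * B) ^ 3 = (2 * B) * ((2 * B) * (2 * B)) := by ring
  have h2kN : 2 * k ≤ (2 * B) ^ 3 := by
    have h1 : 2 ≤ 2 * B := by omega
    calc 2 * k ≤ (2 * B) * (2 * B) := Nat.mul_le_mul h1 hkN
      _ ≤ (2 * B) * ((2 * B) * (2 * B)) := by nlinarith
      _ = (2 * B) ^ 3 := hBsq.symm
  have h2kd : 2 * k ≤ d := h2kN.trans hd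
  have hdk2 : d / (2 * k) = d / k / 2 := by
    rw [Nat.div_div_eq_div_mul, mul_comm]
  have hdk : 2 ≤ d / k := by
    rw [Nat.le_div_iff_mul_le hkpos]; exact h2kd
  -- `W`
  set W : ℕ := (2 * B) ^ 3 / (2 * k) with hW
  have hW1 : 2 * k * W ≤ (2 * B) ^ 3 := Nat.mul_div_le _ _
  have hWbig : 4096 * ρ ^ 4 * (ρ * (2 * B)) ≤ W := by
    rw [hW, Nat.le_div_iff_mul_le (by omega)]
    have h1 : 4096 * (ρ : ℝ) ^ 4 * (ρ * Nr) * (2 * k) ≤ Nr ^ 3 := by
      have h2 := hρp 5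
      have h3 := hbig 16 30 (by norm_num)
      have e1 : 4096 * (ρ : ℝ) ^ 4 * (ρ * Nr) * (2 * k) = 8192 * ((ρ : ℝ) ^ 5 * k) * Nr := by ring
      have e2 : (ρ : ℝ) ^ 5 * k ≤ (3 ^ 5 * T ^ 5) * T :=
        mul_le_mul h2 hkT (by positivity) (by positivity)
      rw [e1]
      calc 8192 * ((ρ : ℝ) ^ 5 * k) * Nr ≤ 8192 * ((3 ^ 5 * T ^ 5) * T) * Nr := by
            refine mul_le_mul_of_nonneg_right ?_ hN0.le
            linarith
        _ = 1990656 * T ^ 16 := by rw [← hT10]; ring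
        _ ≤ 26463592000 * T ^ 16 := by
            have : (0 : ℝ) ≤ T ^ 16 := by positivity
            linarith
        _ ≤ T ^ 30 := h3
        _ = Nr ^ 3 := by rw [← hT10]; ring
    rw [hNr] at h1
    exact_mod_cast h1
  have hW0 : 1 ≤ W := by
    refine le_trans ?_ hWbig
    have : 0 < 4096 * ρ ^ 4 * (ρ * (2 * B)) := by positivity
    omega
  have hρW : ρ * (2 * B) ≤ W := by
    refine le_trans ?_ hWbig
    exact Nat.le_mul_of_pos_left _ (by positivity)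
  have hWd : k * W ≤ d := by
    have : k * W ≤ 2 * k * W := by nlinarith
    omega
  have hWd' : W < d := by
    have : W ≤ k * W := Nat.le_mul_of_pos_left _ hkpos
    have h2 : 2 * (k * W) ≤ (2 * B) ^ 3 := by
      calc 2 * (k * W) = 2 * k * W := by ring
        _ ≤ _ := hW1
    omega
  have hD0 : 0 < 12288 * ρ ^ 5 * (2 * B) := by positivity
  set J : ℕ := (ρ - 1) * (2 * B) / k with hJ
  set l : ℕ := (W - ρ * (2 * B)) / (12288 * ρ ^ 5 * (2 * B)) with hl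
  set l' : ℕ := (d / k - d / (2 * k) - 1) / (12288 * ρ ^ 5 * (2 * B)) with hl'
  have hρs : (ρ - 1) * (2 * B) + 2 * B = ρ * (2 * B) := by
    obtain ⟨m, hm⟩ : ∃ m, ρ = m + 1 := ⟨ρ - 1, by omega⟩
    rw [hm]; simp only [Nat.add_sub_cancel]; ring
  -- the real inequalities for the two powers
  have h512 : 512 * (ρ : ℝ) ^ 3 ≤ Nr := by
    refine le_trans ?_ hc1
    have h1 : (ρ : ℝ) ^ 3 ≤ (ρ : ℝ) ^ 5 := pow_le_pow_right₀ (by linarith) (by norm_num)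
    nlinarith
  have hδ1 : 512 * (ρ : ℝ) ^ 3 / Nr ≤ 1 := by
    rw [div_le_one hN0]; exact h512
  have hN1 : (1 : ℝ) ≤ Nr := by
    rw [← hT10]; exact one_le_pow₀ hT1
  have hlogT : ∀ x : ℝ, 0 < x → Real.log x ≤ x := fun x hx => by
    have := Real.log_le_sub_one_of_pos hx; linarith
  have hWr : Nr ^ 3 / (2 * k) - 1 ≤ (W : ℝ) := by
    have h1 : (2 * B) ^ 3 < (W + 1) * (2 * k) := by
      have h2 := Nat.div_add_mod ((2 * B) ^ 3) (2 * k)
      have h3 := Nat.mod_lt ((2 * B) ^ 3) (show 0 < 2 * k by omega)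
      rw [← hW] at h2
      nlinarith
    have h2 : Nr ^ 3 < ((W : ℝ) + 1) * (2 * k) := by
      rw [hNr]; exact_mod_cast h1
    have h3 : Nr ^ 3 / (2 * k) < (W : ℝ) + 1 := by
      rw [div_lt_iff₀ (by positivity)]; exact h2
    linarith
  have hfl : ∀ m q : ℕ, 0 < q → (m : ℝ) / q - 1 ≤ ((m / q : ℕ) : ℝ) := by
    intro m q hq
    have h2 := Nat.div_add_mod m q
    have h3 := Nat.mod_lt m hq
    have hq' : (0 : ℝ) < q := by exact_mod_cast hq
    have h4 : (m : ℝ) < q * ((m / q : ℕ) : ℝ) + q := by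
      have : m < q * (m / q) + q := by omega
      exact_mod_cast this
    have h5 : (m : ℝ) / q < ((m / q : ℕ) : ℝ) + 1 := by
      rw [div_lt_iff₀ hq']; linarith
    linarith
  refine ⟨ρ, J, W, l, l', hρN, hc1N, hkN, ?_, ?_, ?_, ?_, ?_, hW0, hWd, hWd', hWbig, ?_, ?_, ?_,
    ?_, ?_, ?_⟩
  · have : J * k ≤ (ρ - 1) * (2 * B) := Nat.div_mul_le_self _ _
    omega
  · have h2 := Nat.div_add_mod ((ρ - 1) * (2 * B)) k
    have h3 := Nat.mod_lt ((ρ - 1) * (2 * B)) hkpos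
    rw [← hJ] at h2
    have : (J + 1) * k = k * J + k := by ring
    omega
  · rw [hJ, Nat.le_div_iff_mul_le (by omega)]
    have h1 : (ρ - 1) * (2 * B) / k * k ≤ (ρ - 1) * (2 * B) := Nat.div_mul_le_self _ _
    have h2 : 2 * ((ρ - 1) * (2 * B)) ≤ (2 * B) ^ 3 := by
      have h3 : 2 * (ρ - 1) ≤ 2 * B := by
        have : ρ ≤ ρ ^ 5 := Nat.le_self_pow (by norm_num) ρ
        omega
      calc 2 * ((ρ - 1) * (2 * B)) = (2 * (ρ - 1)) * (2 * B) := by ring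
        _ ≤ (2 * B) * (2 * B) := Nat.mul_le_mul_right _ h3
        _ ≤ (2 * B) * ((2 * B) * (2 * B)) := by nlinarith
        _ = (2 * B) ^ 3 := hBsq.symm
    calc (ρ - 1) * (2 * B) / k * (2 * k) = 2 * ((ρ - 1) * (2 * B) / k * k) := by ring
      _ ≤ 2 * ((ρ - 1) * (2 * B)) := Nat.mul_le_mul_left _ h1
      _ ≤ d := h2.trans hd
  · rw [hdk2]; omega
  · omega
  · -- the logarithm of `W`
    have hWN : (W : ℝ) ≤ Nr ^ 3 := by
      have : W ≤ (2 * B) ^ 3 := Nat.div_le_self _ _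
      rw [hNr]; exact_mod_cast this
    have h1 : Real.log W ≤ Real.log (Nr ^ 3) :=
      Real.log_le_log (by exact_mod_cast hW0) hWN
    have h2 : Real.log (Nr ^ 3) = 30 * Real.log T := by
      rw [← hT10, ← pow_mul, Real.log_pow]; norm_num
    have h3 : 1 + Real.log W ≤ 31 * T := by
      have := hlogT T (by linarith)
      linarith
    have h4 := hρp 3
    have h5 : (ρ : ℝ) ^ 3 * (1 + Real.log W) ≤ (3 ^ 3 * T ^ 3) * (31 * T) := by
      have h6 : 0 ≤ 1 + Real.log W := by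
        have := Real.log_natCast_nonneg W
        linarith
      exact mul_le_mul h4 h3 h6 (by positivity)
    have h6 := hbig 4 10 (by norm_num)
    rw [← hNr2, ← hT10]
    have h7 : (0 : ℝ) ≤ T ^ 4 := by positivity
    calc 1600000 * (ρ : ℝ) ^ 3 * (1 + Real.log W) = 1600000 * ((ρ : ℝ) ^ 3 * (1 + Real.log W)) := by
          ring
      _ ≤ 1600000 * ((3 ^ 3 * T ^ 3) * (31 * T)) := by linarith
      _ = 1339200000 * T ^ 4 := by ring
      _ ≤ 26463592000 * T ^ 4 := by linarith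
      _ ≤ T ^ 10 := h6
  · have : l * (12288 * ρ ^ 5 * (2 * B)) ≤ W - ρ * (2 * B) := Nat.div_mul_le_self _ _
    omega
  · have : l' * (12288 * ρ ^ 5 * (2 * B)) ≤ d / k - d / (2 * k) - 1 := Nat.div_mul_le_self _ _
    omega
  · -- first power
    rw [← hNr2]
    set A : ℝ := 4 * ((ρ : ℝ) * Nr) ^ 2 / ε with hA
    have hA0 : 0 < A := by positivity
    have hAlog : Real.log A ≤ 4 + 31 * T := by
      have h1 : A ≤ 36 * T ^ 23 := by
        have h2 := hρp 2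
        calc A = 4 * ((ρ : ℝ) ^ 2 * Nr ^ 2) * (1 / ε) := by rw [hA]; ring
          _ ≤ 4 * ((3 ^ 2 * T ^ 2) * Nr ^ 2) * T := by
              refine mul_le_mul ?_ hεT (by positivity) (by positivity)
              have := mul_le_mul_of_nonneg_right h2 (show (0 : ℝ) ≤ Nr ^ 2 by positivity)
              linarith
          _ = 36 * T ^ 23 := by rw [← hT10]; ring
      have h2 : Real.log A ≤ Real.log (36 * T ^ 23) := Real.log_le_log hA0 h1
      rw [Real.log_mul (by norm_num) (by positivity), Real.log_pow] at h2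
      have h3 : Real.log 36 ≤ 4 := by
        rw [Real.log_le_iff_le_exp (by norm_num)]
        have h4 : (2.7182818283 : ℝ) < Real.exp 1 := Real.exp_one_gt_d9
        have h5 : Real.exp 4 = (Real.exp 1) ^ 4 := by
          rw [← Real.exp_nat_mul]; norm_num
        rw [h5]
        calc (36 : ℝ) ≤ (2.7182818283 : ℝ) ^ 4 := by norm_num
          _ ≤ (Real.exp 1) ^ 4 := pow_le_pow_left₀ (by norm_num) h4.le 4
      have h4 := hlogT T (by linarith)
      push_cast at h2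
      linarith
    have hmain : Real.log A ≤ 512 * (ρ : ℝ) ^ 3 / Nr * l := by
      refine num_floor (M := ((W - ρ * (2 * B) : ℕ) : ℝ)) (T := T) (k := k) (D := Nr ^ 3) hT hρR h512
        hN1 ?_ hkR ?_ ?_ hAlog
      · have := hfl (W - ρ * (2 * B)) (12288 * ρ ^ 5 * (2 * B)) hD0
        rw [← hl] at this
        have e : ((12288 * ρ ^ 5 * (2 * B) : ℕ) : ℝ) = 12288 * (ρ : ℝ) ^ 5 * Nr := by
          rw [hNr]; push_cast; ring
        rw [e] at this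
        exact this
      · rw [Nat.cast_sub hρW]
        have e : ((ρ * (2 * B) : ℕ) : ℝ) = ρ * Nr := by rw [hNr]; push_cast; ring
        rw [e]
        linarith
      · have h1 : (k : ℝ) * ρ ^ 2 * Nr ^ 2 ≤ 9 * T ^ 3 * Nr ^ 2 := by
          have h2 := hρp 2
          have h3 : (k : ℝ) * ρ ^ 2 ≤ T * (3 ^ 2 * T ^ 2) :=
            mul_le_mul hkT h2 (by positivity) (by positivity)
          have := mul_le_mul_of_nonneg_right h3 (show (0 : ℝ) ≤ Nr ^ 2 by positivity)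
          calc (k : ℝ) * ρ ^ 2 * Nr ^ 2 ≤ T * (3 ^ 2 * T ^ 2) * Nr ^ 2 := this
            _ = 9 * T ^ 3 * Nr ^ 2 := by ring
        have h2 : T ^ 7 / 9 ≤ Nr ^ 3 / ((k : ℝ) * ρ ^ 2 * Nr ^ 2) := by
          rw [div_le_div_iff₀ (by norm_num) (by positivity)]
          calc T ^ 7 * ((k : ℝ) * ρ ^ 2 * Nr ^ 2) ≤ T ^ 7 * (9 * T ^ 3 * Nr ^ 2) :=
                mul_le_mul_of_nonneg_left h1 (by positivity)
            _ = T ^ 10 * (9 * Nr ^ 2) := by ring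
            _ = Nr ^ 3 * 9 := by rw [hT10]; ring
        have h3 : (0 : ℝ) ≤ T ^ 7 := by positivity
        nlinarith
    have h1 := num_pow_le (n := l) hδ1 hA0 hmain
    calc ((ρ : ℝ) * Nr) ^ 2 * (1 - 512 * (ρ : ℝ) ^ 3 / Nr) ^ l ≤ ((ρ : ℝ) * Nr) ^ 2 * (1 / A) :=
          mul_le_mul_of_nonneg_left h1 (by positivity)
      _ = ε / 4 := by
          rw [hA]
          have : (0 : ℝ) < (ρ : ℝ) * Nr := by positivity
          field_simp
  · -- second power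
    have hm1 : 1 ≤ d / (2 * k) := by
      rw [Nat.le_div_iff_mul_le (by omega)]; omega
    set m : ℕ := d / (2 * k) with hm
    have hm0 : (0 : ℝ) < m := by exact_mod_cast hm1
    set A : ℝ := 4 * (m : ℝ) / ε with hA
    have hA0 : 0 < A := by positivity
    have hmd : (m : ℝ) ≤ d := by
      have : m ≤ d := Nat.div_le_self _ _
      exact_mod_cast this
    have hAlog : Real.log A ≤ 4 + 31 * S := by
      have h1 : A ≤ 4 * S ^ 31 := by
        calc A = 4 * (m : ℝ) * (1 / ε) := by rw [hA]; ring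
          _ ≤ 4 * (d : ℝ) * S := by
              refine mul_le_mul (by linarith) (hεT.trans hTS) (by positivity) (by positivity)
          _ = 4 * S ^ 31 := by rw [← hS30]; ring
      have h2 : Real.log A ≤ Real.log (4 * S ^ 31) := Real.log_le_log hA0 h1
      rw [Real.log_mul (by norm_num) (by positivity), Real.log_pow] at h2
      have h3 : Real.log 4 ≤ 4 := hlogT 4 (by norm_num)
      have h4 := hlogT S (by linarith)
      push_cast at h2
      linarith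
    have hmain : Real.log A ≤ 512 * (ρ : ℝ) ^ 3 / Nr * l' := by
      refine num_floor (M := ((d / k - m - 1 : ℕ) : ℝ)) (T := S) (k := k) (D := d) hS hρR h512
        hN1 ?_ hkR ?_ ?_ hAlog
      · have := hfl (d / k - m - 1) (12288 * ρ ^ 5 * (2 * B)) hD0
        rw [← hl'] at this
        have e : ((12288 * ρ ^ 5 * (2 * B) : ℕ) : ℝ) = 12288 * (ρ : ℝ) ^ 5 * Nr := by
          rw [hNr]; push_cast; ring
        rw [e] at this
        exact this
      · have h2 : ((d / k - m - 1 : ℕ) : ℝ) = ((d / k : ℕ) : ℝ) - m - 1 := by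
          rw [Nat.cast_sub (by omega), Nat.cast_sub (by omega)]
          simp
        rw [h2]
        have h3 : (d : ℝ) / k - 1 ≤ ((d / k : ℕ) : ℝ) := hfl d k hkpos
        have h4 : (m : ℝ) ≤ (d : ℝ) / (2 * k) := by
          rw [hm]
          have := @Nat.cast_div_le ℝ _ _ _ d (2 * k)
          push_cast at this
          exact this
        have h5 : (d : ℝ) / k = 2 * ((d : ℝ) / (2 * k)) := by
          field_simp
        have h6 : (0 : ℝ) ≤ ρ * Nr := by positivity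
        linarith
      · have h1 : (k : ℝ) * ρ ^ 2 * Nr ^ 2 ≤ 9 * S ^ 23 := by
          have h2 := hρp 2
          have h3 : (k : ℝ) * ρ ^ 2 ≤ T * (3 ^ 2 * T ^ 2) :=
            mul_le_mul hkT h2 (by positivity) (by positivity)
          have h4 := mul_le_mul_of_nonneg_right h3 (show (0 : ℝ) ≤ Nr ^ 2 by positivity)
          have h5 : T ^ 23 ≤ S ^ 23 := pow_le_pow_left₀ hT0 hTS 23
          calc (k : ℝ) * ρ ^ 2 * Nr ^ 2 ≤ T * (3 ^ 2 * T ^ 2) * Nr ^ 2 := h4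
            _ = 9 * T ^ 23 := by rw [← hT10]; ring
            _ ≤ 9 * S ^ 23 := by linarith
        have h2 : S ^ 7 / 9 ≤ (d : ℝ) / ((k : ℝ) * ρ ^ 2 * Nr ^ 2) := by
          rw [div_le_div_iff₀ (by norm_num) (by positivity)]
          calc S ^ 7 * ((k : ℝ) * ρ ^ 2 * Nr ^ 2) ≤ S ^ 7 * (9 * S ^ 23) :=
                mul_le_mul_of_nonneg_left h1 (by positivity)
            _ = S ^ 30 * 9 := by ring
            _ = (d : ℝ) * 9 := by rw [hS30]
        have h3 : (0 : ℝ) ≤ S ^ 7 := by positivity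
        nlinarith
    have h1 := num_pow_le (n := l') hδ1 hA0 hmain
    calc (m : ℝ) * (1 - 512 * (ρ : ℝ) ^ 3 / Nr) ^ l' ≤ (m : ℝ) * (1 / A) :=
          mul_le_mul_of_nonneg_left h1 (by positivity)
      _ = ε / 4 := by
          rw [hA]
          field_simp
  · have h1 : 8 * (k : ℝ) / ε ≤ Real.log ((ρ : ℝ) / 2) := by
      rw [Real.le_log_iff_exp_le (by positivity)]
      linarith
    have h2 : 4 / ε = (8 * (k : ℝ) / ε) / (2 * k) := by
      field_simp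
      norm_num
    rw [h2]
    exact div_le_div_of_nonneg_right h1 (by positivity)

end SC4
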