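import Pool.Agent.Helper4.SC.Near

/-!
# SC-7: two walks in the same environment meet

`Q_nonneg`, `Q_le_one`: induction along the definition (average of numbers in `[0,1]`).

`one_sub_Q` (`N = 2 B`, `0 ≤ c` is not needed): for all `s, t`
`∑_{i<L} H (s-c-i) H (t-c-i) ≤ (1 - Q c v N s t) (1 + 16 L / N^2)`. Strong induction on
`(s-c).toNat + (t-c).toNat`.
 * `s < c` or `t < c`: the left side is `0` (a factor `H` of a negative number), `Q = 1`.
 * `s = t ≥ c`: `Q = 0`; `∑_i H(s-c-i)^2`: at most one term with `s-c-i = 0`, it is `1`; the others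
   are `≤ (4/N)^2` (`H_le`, or `0` if the argument is negative).
 * `t < s`, `t ≥ c`: both sides are averages over `b < N` of the values at `(s-1-v-b, t)`: for the
   sum, if `t-c-i ≥ 0` then `s-c-i > 0` and `H_rec` applies, if `t-c-i < 0` the term is `0` anyway.
 * `s < t` symmetric.

`Q_le`: `R = ρ N`, `L = 4096 ρ^5 N`, `65536 ρ^5 ≤ N` (so `16 L ≤ N^2`). For `s, t ≥ c + 2 L` every
term of the sum is at least `(1/(2R))^2` by `H_lower'` (`s-c-i ≥ L = 4096 ρ^4 R`), so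
`(1 - Q) * 2 ≥ L/(4R^2)`, `1 - Q ≥ L/(8R^2) = 512 ρ^3/N`.
-/

set_option autoImplicit false

namespace SC4

open Finset

private lemma q_ind (c : ℤ) (p : ℤ → ℤ → Prop) (hout : ∀ s t, (s < c ∨ t < c) → p s t)
    (hdiag : ∀ s, c ≤ s → p s s)
    (hleft : ∀ s t, t < s → c ≤ t → (∀ s', s' < s → p s' t) → p s t)
    (hright : ∀ s t, s < t → c ≤ s → (∀ t', t' < t → p s t') → p s t) (s t : ℤ) : p s t := by
  obtain ⟨n, hn⟩ : ∃ n : ℕ, (s - c).toNat + (t - c).toNat ≤ n := ⟨_, le_rfl⟩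
  induction n generalizing s t with
  | zero =>
    by_cases h : s < c ∨ t < c
    · exact hout s t h
    · have h1 : s = t := by omega
      rw [h1]
      exact hdiag t (by omega)
  | succ n ih =>
    by_cases h : s < c ∨ t < c
    · exact hout s t h
    · rcases lt_trichotomy t s with h1 | h1 | h1
      · exact hleft s t h1 (by omega) fun s' hs' => ih s' t (by omega)
      · rw [h1]
        exact hdiag s (by omega)
      · exact hright s t h1 (by omega) fun t' ht' => ih s t' (by omega)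

lemma Q_nonneg (c : ℤ) (v N : ℕ) (s t : ℤ) : 0 ≤ Q c v N s t := by
  refine q_ind c (fun s t => 0 ≤ Q c v N s t) ?_ ?_ ?_ ?_ s t
  · intro s t h
    rw [Q_out c v N h]
    exact zero_le_one
  · intro s h
    rw [Q_diag c v N h]
  · intro s t h h' ih
    rw [Q_left c v N h h']
    exact div_nonneg (sum_nonneg fun b _ => ih _ (by omega)) (Nat.cast_nonneg _)
  · intro s t h h' ih
    rw [Q_right c v N h h']
    exact div_nonneg (sum_nonneg fun b _ => ih _ (by omega)) (Nat.cast_nonneg _)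

private lemma avg_le_one (N : ℕ) (f : ℕ → ℝ) (hf : ∀ b, f b ≤ 1) :
    (∑ b ∈ range N, f b) / N ≤ 1 := by
  apply div_le_one_of_le₀ _ (Nat.cast_nonneg _)
  calc ∑ b ∈ range N, f b ≤ ∑ _b ∈ range N, (1 : ℝ) := sum_le_sum fun b _ => hf b
    _ = N := by simp

lemma Q_le_one (c : ℤ) (v N : ℕ) (s t : ℤ) : Q c v N s t ≤ 1 := by
  refine q_ind c (fun s t => Q c v N s t ≤ 1) ?_ ?_ ?_ ?_ s t
  · intro s t h
    rw [Q_out c v N h]
  · intro s h
    rw [Q_diag c v N h]
    exact zero_le_one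
  · intro s t h h' ih
    rw [Q_left c v N h h']
    exact avg_le_one N _ fun b => ih _ (by omega)
  · intro s t h h' ih
    rw [Q_right c v N h h']
    exact avg_le_one N _ fun b => ih _ (by omega)

private lemma H_mul_rec (v N : ℕ) {z w : ℤ} (h : w < z) :
    H v N z * H v N w = (∑ b ∈ range N, H v N (z - 1 - v - b) * H v N w) / N := by
  by_cases hw : w < 0
  · rw [H_neg v N hw]
    simp
  · rw [H_rec v N (by omega : 0 < z), ← sum_mul, div_mul_eq_mul_div]

private lemma avg_step (N : ℕ) (hN : 0 < N) (f q : ℕ → ℝ) (D : ℝ)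
    (h : ∀ b, f b ≤ (1 - q b) * D) :
    (∑ b ∈ range N, f b) / N ≤ (1 - (∑ b ∈ range N, q b) / N) * D := by
  have hN0 : (0 : ℝ) < N := by exact_mod_cast hN
  calc (∑ b ∈ range N, f b) / N ≤ (∑ b ∈ range N, (1 - q b) * D) / N :=
        div_le_div_of_nonneg_right (sum_le_sum fun b _ => h b) hN0.le
    _ = (1 - (∑ b ∈ range N, q b) / N) * D := by
        rw [← sum_mul, sum_sub_distrib]
        simp only [sum_const, card_range, nsmul_eq_mul, mul_one]
        field_simp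

private lemma diag_le (v B : ℕ) (hB : 0 < B) (L : ℕ) (z : ℤ) :
    ∑ i ∈ range L, H v (2 * B) (z - i) * H v (2 * B) (z - i) ≤
      1 + 16 * L / ((2 * B : ℕ) : ℝ) ^ 2 := by
  have hN0 : (0 : ℝ) < ((2 * B : ℕ) : ℝ) := by exact_mod_cast (by omega : 0 < 2 * B)
  have h1 : ∀ i : ℕ, H v (2 * B) (z - i) * H v (2 * B) (z - i) ≤
      (if i = z.toNat then 1 else 0) + 16 / ((2 * B : ℕ) : ℝ) ^ 2 := by
    intro i
    have h16 : (0 : ℝ) ≤ 16 / ((2 * B : ℕ) : ℝ) ^ 2 := by positivity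
    rcases lt_trichotomy (z - i) 0 with h | h | h
    · rw [H_neg v _ h, mul_zero]
      split_ifs <;> linarith
    · rw [if_pos (by omega), h, H_zero]
      linarith
    · have h2 := H_le v B hB h
      have h3 := H_nonneg v (2 * B) (z - i)
      have h4 : H v (2 * B) (z - i) * H v (2 * B) (z - i) ≤
          (4 / ((2 * B : ℕ) : ℝ)) * (4 / ((2 * B : ℕ) : ℝ)) :=
        mul_le_mul h2 h2 h3 (h3.trans h2)
      have h5 : (4 / ((2 * B : ℕ) : ℝ)) * (4 / ((2 * B : ℕ) : ℝ)) =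
          16 / ((2 * B : ℕ) : ℝ) ^ 2 := by
        field_simp
        norm_num
      rw [h5] at h4
      split_ifs <;> linarith
  calc ∑ i ∈ range L, H v (2 * B) (z - i) * H v (2 * B) (z - i)
      ≤ ∑ i ∈ range L, ((if i = z.toNat then (1 : ℝ) else 0) + 16 / ((2 * B : ℕ) : ℝ) ^ 2) :=
        sum_le_sum fun i _ => h1 i
    _ = (∑ i ∈ range L, (if i = z.toNat then (1 : ℝ) else 0)) +
        16 * L / ((2 * B : ℕ) : ℝ) ^ 2 := by
        rw [sum_add_distrib, sum_const, card_range, nsmul_eq_mul]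
        ring
    _ ≤ 1 + 16 * L / ((2 * B : ℕ) : ℝ) ^ 2 := by
        rw [sum_ite_eq' (range L) z.toNat (fun _ => (1 : ℝ))]
        split_ifs <;> linarith

lemma one_sub_Q (c : ℤ) (v B : ℕ) (hB : 0 < B) (L : ℕ) (s t : ℤ) :
    ∑ i ∈ range L, H v (2 * B) (s - c - i) * H v (2 * B) (t - c - i) ≤
      (1 - Q c v (2 * B) s t) * (1 + 16 * L / ((2 * B : ℕ) : ℝ) ^ 2) := by
  have hN : 0 < 2 * B := by omega
  refine q_ind c (fun s t => ∑ i ∈ range L, H v (2 * B) (s - c - i) * H v (2 * B) (t - c - i) ≤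
      (1 - Q c v (2 * B) s t) * (1 + 16 * L / ((2 * B : ℕ) : ℝ) ^ 2)) ?_ ?_ ?_ ?_ s t
  · intro s t h
    rw [Q_out c v _ h, sub_self, zero_mul]
    apply le_of_eq
    apply sum_eq_zero
    intro i _
    rcases h with h | h
    · rw [H_neg v (2 * B) (z := s - c - i) (by omega), zero_mul]
    · rw [H_neg v (2 * B) (z := t - c - i) (by omega), mul_zero]
  · intro s h
    rw [Q_diag c v _ h, sub_zero, one_mul]
    exact diag_le v B hB L (s - c)
  · intro s t h h' ih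
    rw [Q_left c v _ h h']
    have e : ∑ i ∈ range L, H v (2 * B) (s - c - i) * H v (2 * B) (t - c - i) =
        (∑ b ∈ range (2 * B), ∑ i ∈ range L, H v (2 * B) (s - 1 - v - b - c - i) *
          H v (2 * B) (t - c - i)) / ((2 * B : ℕ) : ℝ) := by
      rw [sum_comm, sum_div]
      apply sum_congr rfl
      intro i _
      rw [H_mul_rec v (2 * B) (by omega : t - c - (i : ℤ) < s - c - i)]
      congr 1
      apply sum_congr rfl
      intro b _
      congr 2
      ring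
    rw [e]
    exact avg_step (2 * B) hN _ (fun b => Q c v (2 * B) (s - 1 - v - b) t) _
      fun b => ih _ (by omega)
  · intro s t h h' ih
    rw [Q_right c v _ h h']
    have e : ∑ i ∈ range L, H v (2 * B) (s - c - i) * H v (2 * B) (t - c - i) =
        (∑ b ∈ range (2 * B), ∑ i ∈ range L, H v (2 * B) (s - c - i) *
          H v (2 * B) (t - 1 - v - b - c - i)) / ((2 * B : ℕ) : ℝ) := by
      rw [sum_comm, sum_div]
      apply sum_congr rfl
      intro i _
      rw [mul_comm, H_mul_rec v (2 * B) (by omega : s - c - (i : ℤ) < t - c - i)]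
      congr 1
      apply sum_congr rfl
      intro b _
      rw [mul_comm]
      congr 2
      ring
    rw [e]
    exact avg_step (2 * B) hN _ (fun b => Q c v (2 * B) s (t - 1 - v - b)) _
      fun b => ih _ (by omega)

lemma Q_le (c : ℤ) (v B ρ : ℕ) (hB : 0 < B) (hρ : 1 ≤ ρ) (hR : v + 2 * B ≤ ρ * (2 * B))
    (hN : 65536 * ρ ^ 5 ≤ 2 * B) (s t : ℤ) (hs : c + 2 * (4096 * (ρ : ℤ) ^ 5 * (2 * B)) ≤ s)
    (ht : c + 2 * (4096 * (ρ : ℤ) ^ 5 * (2 * B)) ≤ t) :
    Q c v (2 * B) s t ≤ 1 - 512 * (ρ : ℝ) ^ 3 / ((2 * B : ℕ) : ℝ) := by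
  have h1 := one_sub_Q c v B hB (4096 * ρ ^ 5 * (2 * B)) s t
  obtain ⟨N, hNN⟩ : ∃ N : ℝ, N = ((2 * B : ℕ) : ℝ) := ⟨_, rfl⟩
  obtain ⟨r, hr⟩ : ∃ r : ℝ, r = (ρ : ℝ) := ⟨_, rfl⟩
  have hN0 : 0 < N := by
    rw [hNN]
    exact_mod_cast (by omega : 0 < 2 * B)
  have hr1 : 1 ≤ r := by
    rw [hr]
    exact_mod_cast hρ
  have hN5 : 65536 * r ^ 5 ≤ N := by
    rw [hNN, hr]
    exact_mod_cast hN
  have hL : ((4096 * ρ ^ 5 * (2 * B) : ℕ) : ℝ) = 4096 * r ^ 5 * N := by
    rw [hNN, hr]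
    push_cast
    ring
  have hLz : ((4096 * ρ ^ 5 * (2 * B) : ℕ) : ℤ) = 4096 * (ρ : ℤ) ^ 5 * (2 * B) := by
    push_cast
    ring
  have hlow : ∀ x : ℤ, c + 2 * (4096 * (ρ : ℤ) ^ 5 * (2 * B)) ≤ x →
      ∀ i ∈ range (4096 * ρ ^ 5 * (2 * B)), 1 / (2 * (r * N)) ≤ H v (2 * B) (x - c - i) := by
    intro x hx i hi
    have h2 := H_lower' v B ρ hB hρ hR (x - c - i) (by
      have h3 : (i : ℤ) < ((4096 * ρ ^ 5 * (2 * B) : ℕ) : ℤ) := by
        exact_mod_cast mem_range.mp hi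
      rw [hLz] at h3
      have h4 : 4096 * (ρ : ℤ) ^ 4 * (ρ * (2 * B) : ℤ) = 4096 * (ρ : ℤ) ^ 5 * (2 * B) := by ring
      rw [h4]
      linarith)
    have h5 : ((ρ * (2 * B) : ℕ) : ℝ) = r * N := by
      rw [hr, hNN]
      push_cast
      ring
    rw [h5] at h2
    exact h2
  have h6 : ((4096 * ρ ^ 5 * (2 * B) : ℕ) : ℝ) * (1 / (2 * (r * N)) * (1 / (2 * (r * N)))) ≤
      ∑ i ∈ range (4096 * ρ ^ 5 * (2 * B)),
        H v (2 * B) (s - c - i) * H v (2 * B) (t - c - i) := by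
    have h7 : ∑ _i ∈ range (4096 * ρ ^ 5 * (2 * B)), (1 / (2 * (r * N)) * (1 / (2 * (r * N)))) =
        ((4096 * ρ ^ 5 * (2 * B) : ℕ) : ℝ) * (1 / (2 * (r * N)) * (1 / (2 * (r * N)))) := by
      rw [sum_const, card_range, nsmul_eq_mul]
    rw [← h7]
    apply sum_le_sum
    intro i hi
    exact mul_le_mul (hlow s hs i hi) (hlow t ht i hi) (by positivity) (H_nonneg _ _ _)
  have h8 := h6.trans h1
  have h9 := Q_le_one c v (2 * B) s t
  rw [hL, ← hNN] at h8
  rw [← hNN, ← hr]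
  have h10 : 16 * (4096 * r ^ 5 * N) / N ^ 2 ≤ 1 := by
    rw [div_le_one (by positivity)]
    nlinarith
  have h11 : (1 - Q c v (2 * B) s t) * (1 + 16 * (4096 * r ^ 5 * N) / N ^ 2) ≤
      (1 - Q c v (2 * B) s t) * 2 :=
    mul_le_mul_of_nonneg_left (by linarith) (by linarith)
  have h12 : 4096 * r ^ 5 * N * (1 / (2 * (r * N)) * (1 / (2 * (r * N)))) =
      2 * (512 * r ^ 3 / N) := by
    field_simp
    ring
  rw [h12] at h8
  linarith

end SC4
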