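import Pool.Agent.Helper4.SC.Defs

/-!
# SC-1: the renewal identity

`wt v N i` is the probability that a step `v + 1 + b` (`b` uniform in `{0, ..., N - 1}`) is larger
than `i`. It is `1` for `i ≤ v`, `(N - (i - v)) / N` for `v ≤ i ≤ v + N`, and `0` from `v + N` on.

`renewal`: induction on `z ≥ 0` (write `z` as a natural number). `z = 0`: only `i = 0` counts
(`H v N (0 - i) = 0` for `i ≥ 1`), `wt v N 0 = 1`, `H v N 0 = 1`. Step from `z` to `z + 1`:
`T(z+1) - T(z) = H(z+1) + ∑_{i < v+N} (wt (i+1) - wt i) H(z-i)` (shift the index; the last weight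
`wt (v+N)` is `0`), and `wt (i+1) - wt i` is `0` for `i < v` and `-1/N` for `v ≤ i < v + N`; the sum
over `i = v + b` is `-(∑_{b<N} H(z - v - b))/N = - H(z+1)` by `H_rec` at `z + 1`.
`sum_wt`: `∑_{i<v} 1 + ∑_{b<N} (N-b)/N = v + (N+1)/2`.
-/

set_option autoImplicit false

namespace SC4

open Finset

lemma wt_nonneg (v N i : ℕ) : 0 ≤ wt v N i := by
  unfold wt
  positivity

lemma wt_le_one (v N i : ℕ) : wt v N i ≤ 1 := by
  unfold wt
  apply div_le_one_of_le₀ _ (Nat.cast_nonneg _)
  exact_mod_cast Nat.sub_le _ _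

private lemma wt_low {v N i : ℕ} (hN : 0 < N) (hi : i ≤ v) : wt v N i = 1 := by
  unfold wt
  rw [Nat.sub_eq_zero_of_le hi, Nat.sub_zero]
  exact div_self (by exact_mod_cast hN.ne')

private lemma wt_high {v N b : ℕ} (hb : b ≤ N) : wt v N (v + b) = ((N : ℝ) - b) / N := by
  unfold wt
  rw [Nat.add_sub_cancel_left, Nat.cast_sub hb]

private lemma wt_end (v N : ℕ) : wt v N (v + N) = 0 := by
  rw [wt_high le_rfl, sub_self, zero_div]

lemma sum_wt (v N : ℕ) (hN : 0 < N) : ∑ i ∈ range (v + N), wt v N i = mu v N := by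
  rw [sum_range_add]
  have h1 : ∑ i ∈ range v, wt v N i = v := by
    rw [sum_congr rfl fun i hi => wt_low hN (mem_range.mp hi).le]
    simp
  have h2 : ∑ b ∈ range N, wt v N (v + b) = ((N : ℝ) + 1) / 2 := by
    rw [sum_congr rfl fun b hb => wt_high (mem_range.mp hb).le, ← sum_div]
    have h3 : ∀ n : ℕ, ∑ b ∈ range n, ((N : ℝ) - b) = n * N - n * (n - 1) / 2 := by
      intro n
      induction n with
      | zero => simp
      | succ n ih =>
        rw [sum_range_succ, ih]
        push_cast
        ring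
    rw [h3]
    have h4 : (N : ℝ) ≠ 0 := by exact_mod_cast hN.ne'
    field_simp
    ring
  rw [h1, h2]
  rfl

private lemma renewal_nat (v N : ℕ) (hN : 0 < N) (z : ℕ) :
    ∑ i ∈ range (v + N), wt v N i * H v N ((z : ℤ) - i) = 1 := by
  induction z with
  | zero =>
    rw [sum_eq_single 0]
    · rw [wt_low hN (Nat.zero_le _), one_mul]
      have : ((0 : ℕ) : ℤ) - ((0 : ℕ) : ℤ) = 0 := by norm_num
      rw [this, H_zero]
    · intro i _ hi
      rw [H_neg v N (by omega), mul_zero]
    · intro h
      exact absurd (mem_range.mpr (by omega)) h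
  | succ z ih =>
    have e1 : ∑ i ∈ range (v + N), wt v N i * H v N (((z + 1 : ℕ) : ℤ) - i) =
        ∑ i ∈ range (v + N), wt v N (i + 1) * H v N ((z : ℤ) - i) + H v N ((z : ℤ) + 1) := by
      have e2 := sum_range_succ (fun i : ℕ => wt v N i * H v N (((z + 1 : ℕ) : ℤ) - i)) (v + N)
      rw [wt_end, zero_mul, add_zero] at e2
      rw [← e2, sum_range_succ']
      congr 1
      · apply sum_congr rfl
        intro i _
        congr 2
        push_cast
        ring
      · rw [wt_low hN (Nat.zero_le _), one_mul]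
        congr 1
    have e3 : ∑ i ∈ range (v + N), wt v N (i + 1) * H v N ((z : ℤ) - i) =
        ∑ i ∈ range (v + N), wt v N i * H v N ((z : ℤ) - i) - H v N ((z : ℤ) + 1) := by
      rw [sum_range_add, sum_range_add]
      have e4 : ∑ i ∈ range v, wt v N (i + 1) * H v N ((z : ℤ) - i) =
          ∑ i ∈ range v, wt v N i * H v N ((z : ℤ) - i) := by
        apply sum_congr rfl
        intro i hi
        have := mem_range.mp hi
        rw [wt_low hN (show i + 1 ≤ v by omega), wt_low hN (show i ≤ v by omega)]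
      have e5 : ∑ b ∈ range N, wt v N (v + b + 1) * H v N ((z : ℤ) - ((v + b : ℕ) : ℤ)) =
          ∑ b ∈ range N, wt v N (v + b) * H v N ((z : ℤ) - ((v + b : ℕ) : ℤ)) -
            H v N ((z : ℤ) + 1) := by
        rw [H_rec v N (by omega : (0 : ℤ) < (z : ℤ) + 1), sum_div, ← sum_sub_distrib]
        apply sum_congr rfl
        intro b hb
        have hb' := mem_range.mp hb
        rw [add_assoc v b 1, wt_high (show b + 1 ≤ N by omega), wt_high hb'.le]
        have e6 : (z : ℤ) + 1 - 1 - v - b = (z : ℤ) - ((v + b : ℕ) : ℤ) := by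
          push_cast
          ring
        rw [e6]
        have h4 : (N : ℝ) ≠ 0 := by exact_mod_cast hN.ne'
        push_cast
        field_simp
        ring
      rw [e4, e5]
      ring
    rw [e1, e3, ih]
    ring

lemma renewal (v N : ℕ) (hN : 0 < N) {z : ℤ} (hz : 0 ≤ z) :
    ∑ i ∈ range (v + N), wt v N i * H v N (z - i) = 1 := by
  obtain ⟨n, rfl⟩ := Int.eq_ofNat_of_zero_le hz
  exact renewal_nat v N hN n

end SC4
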