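import Pool.Agent.Helper4.SC.Defs

/-!
# SC: the systems with small negative coefficients
-/

set_option autoImplicit false

namespace SC4

open Finset

/-- the map `U(m, d, R)`, where `R` consists of the numbers `r i`, `1 ≤ i ≤ d - 1` -/
def Umap (m d : ℕ) (r : ℤ → ℤ) (n : ℤ) : ℤ :=
  if (d : ℤ) ∣ n then n / (d : ℤ) else ((m : ℤ) * n - r ((m : ℤ) * n % (d : ℤ))) / (d : ℤ)

/-- the systems `R = {r 1, ..., r (d - 1)}` with `r i ≡ i` mod `d` and `- N d < r i < 0`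
(the function `r` is `0` outside `{1, ..., d - 1}`, so that it corresponds to exactly one `R`) -/
def Neg (d N : ℕ) : Set (ℤ → ℤ) :=
  {r | (∀ i : ℤ, 1 ≤ i → i ≤ (d : ℤ) - 1 →
      r i ≡ i [ZMOD (d : ℤ)] ∧ -((N : ℤ) * (d : ℤ)) < r i ∧ r i < 0) ∧
    ∀ i : ℤ, i < 1 ∨ (d : ℤ) - 1 < i → r i = 0}

/-- some positive integer `n` is purely periodic for `U(m, d, R)` and lies in the trajectory of every
`a` with `1 ≤ a ≤ A` -/
def Absorbed (m d A : ℕ) (r : ℤ → ℤ) : Prop :=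
  ∃ n : ℤ, 0 < n ∧ (∃ p : ℕ, 0 < p ∧ (Umap m d r)^[p] n = n) ∧
    ∀ a : ℤ, 1 ≤ a → a ≤ (A : ℤ) → ∃ i : ℕ, (Umap m d r)^[i] a = n

/-- the system of `ω : ZMod d → Fin N` -/
noncomputable def rOf (d N : ℕ) (ω : ZMod d → Fin N) (i : ℤ) : ℤ :=
  if 1 ≤ i ∧ i ≤ (d : ℤ) - 1 then i - (d : ℤ) * ((ω ((i : ℤ) : ZMod d) : ℕ) + 1) else 0

/-- the environment of `ω` -/
noncomputable def tau (k d N : ℕ) (ω : ZMod d → Fin N) (n : ℤ) : ℕ :=
  (ω (((k : ℤ) * n : ℤ) : ZMod d) : ℕ)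

end SC4
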